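import Pool.Agent.Helper20.PS.Bud
import Pool.Agent.Helper1.FIVE.OBClass

/-!
# The classes of wall states with the budget
-/

set_option autoImplicit false

namespace Pool.Agent.Helper20.PS

open Matrix
open Pool.Agent.Helper12.LW (LFree toR)
open Pool.Agent.Helper84.FL (Superbase WidthLe)
open Pool.Agent.Helper1.FIVE (HasB classesB Budget)
open Pool.Agent.Helper38.TET (OChain)

variable {K : Set (Fin 3 → ℝ)} {W : ℝ} {g : Fin 4 → Fin 3 → ℝ} {b : Fin 4 → ℝ} {mu : Fin 3 → ℝ}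

theorem BState.toBudget {κ : ℝ} {n : Fin 3 → Fin 3 → ℝ} {nC nD : Fin 3 → ℝ} {b' : Fin 3 → ℝ} {bC bD' : ℝ}
    {ρ : Fin 3 → ℝ} {lab : (Fin 3 → ℤ) → Fin 5} {f : Fin 4 → Fin 3 → ℤ} {x : Fin 3 → ℤ} {t : ℝ}
    (h : BState κ K W n nC nD b' bC bD' ρ lab f x t mu) : Budget nC b' bC bD' ρ lab t mu where
  h0 := h.t0
  h1 := h.t1
  eta := by rw [add_comm]; exact h.etaD
  mu0 := h.mu_pos
  rel := h.rho_mu
  cut := h.bud.cut
  ord := h.bud.ord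
  act := h.bud.act
  act' := h.bud.act'
  labCD := h.labDC

/-- **Thirteen classes of wall states with the budget.** -/
theorem exists_hasB (thmA : ∀ (K : Set (Fin 3 → ℝ)) (f P : Fin 4 → Fin 3 → ℤ) (g : Fin 4 → Fin 3 → ℝ), LFree K →
      OChain K f P g → (∀ m : Fin 3 → ℝ, ∃ a : Fin 4 → ℝ, ∑ j, a j • g j = m) → WidthLe K (2 + Real.sqrt 2))
    {κ : ℝ} (h0 : 0 ≤ κ) (h1 : κ ≤ 1) (h : Two K (2 + Real.sqrt 2) g b mu)
    (hA : (∃ p : Fin 4 → Fin 3 → ℝ, (∀ k, p k ∈ K) ∧ 183 / 50 ≤ ∑ k, (b k - g k ⬝ᵥ p k)) ∨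
      ∃ p : Fin 4 → Fin 3 → ℝ, (∀ k, p k ∈ K) ∧ 183 / 50 ≤ ∑ k, (hD b mu k - gD g mu k ⬝ᵥ p k)) :
    ∃ l ∈ classesB, HasB κ K (2 + Real.sqrt 2) l := by
  obtain ⟨g', b', mu', h', hB⟩ := exists_bud thmA h hA
  obtain ⟨n, nC, nD, b'', bC, bD', ρ, lab, f, x, t, hS⟩ := exists_bstate thmA h0 h1 h' hB
  exact HasB.exists_class hS.st hS.toBudget

end Pool.Agent.Helper20.PS
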