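import Pool.Agent.Helper20.PS.WFacts
import Pool.Agent.Helper20.PS.BCls
import Pool.Agent.Helper80.TK.State
import Pool.Agent.Helper1.FIVE.OZ

/-!
# The wall state with the two circuits

The merged form (`κ = 1`). The number `c i` is the part of the facet `i` in the circuit `C`, divided by the height
`1 - h` of the circuit, and `s i` the same for the circuit `D`, in a form without division, so that `h = 0` and `h = 1`
are allowed.
-/

set_option autoImplicit false

namespace Pool.Agent.Helper20.PS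

open Matrix
open Pool.Agent.Helper12.LW (LFree toR)
open Pool.Agent.Helper84.FL (Superbase WidthLe)
open Pool.Agent.Helper1.FIVE
open Pool.Agent.Helper20.FIVE (gq FF Vv pt FF_gram fact_w exists_coord)
open Pool.Agent.Helper38.TET (OChain)
open Pool.Agent.Helper80.TK (KS Bary yv gz)

/-- the facts of the two circuits -/
structure CS (K : Set (Fin 3 → ℝ)) (n : Fin 3 → Fin 3 → ℝ) (b : Fin 3 → ℝ) (lab : (Fin 3 → ℤ) → Fin 5) (h : ℝ)
    (mu c s : Fin 3 → ℝ) : Prop where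
  cpos : ∀ i, 0 < c i
  one : ∀ i, c i * ((1 - h) + h * mu i) = 1
  mul : ∀ i, s i = mu i * c i
  subC : ∀ x ∈ K, ∑ i, c i * (b i - n i ⬝ᵥ x) ≤ 1
  subD : ∀ x ∈ K, ∑ i, s i * (b i - n i ⬝ᵥ x) ≤ 1
  labC : ∀ z, lab z = 0 → 1 ≤ ∑ i, c i * (b i - n i ⬝ᵥ toR z)
  labD : ∀ z, lab z = 4 → 1 ≤ ∑ i, s i * (b i - n i ⬝ᵥ toR z)
  labCD : ∀ z, lab z = 4 → ∑ i, c i * (b i - n i ⬝ᵥ toR z) ≤ 1

theorem CS.permI {K : Set (Fin 3 → ℝ)} {n : Fin 3 → Fin 3 → ℝ} {b : Fin 3 → ℝ} {lab : (Fin 3 → ℤ) → Fin 5} {h : ℝ}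
    {mu c s : Fin 3 → ℝ} (hc : CS K n b lab h mu c s) (σ : Equiv.Perm (Fin 3)) (τ : Equiv.Perm (Fin 5))
    (h0 : τ 0 = 0) (h4 : τ 4 = 4) :
    CS K (fun i => n (σ i)) (fun i => b (σ i)) (fun z => τ (lab z)) h (fun i => mu (σ i)) (fun i => c (σ i))
      fun i => s (σ i) where
  cpos := fun i => hc.cpos _
  one := fun i => hc.one _
  mul := fun i => hc.mul _
  subC := fun x hx => by
    rw [Equiv.sum_comp σ fun i => c i * (b i - n i ⬝ᵥ x)]
    exact hc.subC x hx
  subD := fun x hx => by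
    rw [Equiv.sum_comp σ fun i => s i * (b i - n i ⬝ᵥ x)]
    exact hc.subD x hx
  labC := fun z hz => by
    rw [Equiv.sum_comp σ fun i => c i * (b i - n i ⬝ᵥ toR z)]
    exact hc.labC z (τ.injective (by rw [hz, h0]))
  labD := fun z hz => by
    rw [Equiv.sum_comp σ fun i => s i * (b i - n i ⬝ᵥ toR z)]
    exact hc.labD z (τ.injective (by rw [hz, h4]))
  labCD := fun z hz => by
    rw [Equiv.sum_comp σ fun i => c i * (b i - n i ⬝ᵥ toR z)]
    exact hc.labCD z (τ.injective (by rw [hz, h4]))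

/-- a wall state of the merged form with the two circuits and given labels of the six points -/
def HasK (K : Set (Fin 3 → ℝ)) (W : ℝ) (l : Fin 6 → Fin 5) : Prop :=
  ∃ n nC nD b bC bD ρ lab f x h mu c s, OState 1 K W n nC nD b bC bD ρ lab f x ∧ Budget nC b bC bD ρ lab h mu ∧
    CS K n b lab h mu c s ∧ labs lab f x = l

/-- the moves without the exchange of `C` and `D` -/
theorem HasK.step {K : Set (Fin 3 → ℝ)} {W : ℝ} {l : Fin 6 → Fin 5} (h : HasK K W l) (k : Fin 6) (hk : k ≠ 5) :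
    HasK K W (mv k l) := by
  obtain ⟨n, nC, nD, b, bC, bD, ρ, lab, f, x, t, mu, c, s, h, B, C, rfl⟩ := h
  have key : ∀ k, HasF 1 K W n nC nD b bC bD ρ lab (mv k (labs lab f x)) → HasK K W (mv k (labs lab f x)) := by
    rintro k ⟨f', x', h', hl⟩
    exact ⟨n, nC, nD, b, bC, bD, ρ, lab, f', x', t, mu, c, s, h', B, C, hl⟩
  have key2 : ∀ (σ : Equiv.Perm (Fin 3)) (τ : Equiv.Perm (Fin 5)), τ 0 = 0 → τ 4 = 4 → (∀ i, τ (li (σ i)) = li i) →
      (OneP fun i => τ (labs lab f x i)) → HasK K W fun i => τ (labs lab f x i) := by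
    intro σ τ h0 h4 hi hone
    have hfr : ∀ y z, frm 1 (fun i => n (σ i)) nC nD y z = frm 1 n nC nD y z := by
      intro y z
      unfold frm
      rw [Equiv.sum_comp σ fun i => (n i ⬝ᵥ y) * (n i ⬝ᵥ z)]
    exact ⟨fun i => n (σ i), nC, nD, fun i => b (σ i), bC, bD, fun i => ρ (σ i), fun z => τ (lab z), f, x, t,
      fun i => mu (σ i), fun i => c (σ i), fun i => s (σ i),
      ⟨h.five.permI σ τ hi h0 h4, h.sb, fun l m hlm => by rw [hfr]; exact h.obt l m hlm, by rw [hfr]; exact h.wall,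
        hone⟩, B.permI σ τ h4, C.permI σ τ h0 h4, rfl⟩
  fin_cases k
  · exact key 0 h.stepF0
  · exact key 1 h.stepF1
  · exact key 2 h.stepF2
  · exact key2 (Equiv.swap 0 1) (Equiv.swap 1 2) (by decide) (by decide) (by decide) (oneP_mv 3 _ h.oct)
  · exact key2 (Equiv.swap 1 2) (Equiv.swap 2 3) (by decide) (by decide) (by decide) (oneP_mv 4 _ h.oct)
  · exact absurd rfl hk

theorem HasK.word {K : Set (Fin 3 → ℝ)} {W : ℝ} {l : Fin 6 → Fin 5} (h : HasK K W l) (w : List (Fin 6)) (hw : 5 ∉ w) :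
    HasK K W (wd w l) := by
  induction w generalizing l with
  | nil => exact h
  | cons k w ih =>
    rw [List.mem_cons, not_or] at hw
    exact ih (h.step k (Ne.symm hw.1)) hw.2

theorem HasK.exists_class {K : Set (Fin 3 → ℝ)} {W : ℝ} {l : Fin 6 → Fin 5} (h : HasK K W l) :
    ∃ l ∈ classesB, HasK K W l := by
  have h' : OneP l := by
    obtain ⟨n, nC, nD, b, bC, bD, ρ, lab, f, x, t, mu, c, s, h, B, C, rfl⟩ := h
    exact h.oct
  obtain ⟨w, -, h5, hw⟩ := exists_wordB chkBB l h'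
  exact ⟨_, hw, h.word w h5⟩

variable {K : Set (Fin 3 → ℝ)} {W : ℝ} {g : Fin 4 → Fin 3 → ℝ} {b : Fin 4 → ℝ} {mu : Fin 3 → ℝ}

/-- the facts of the two circuits at the time `t` -/
theorem Two.cs (h : Two K W g b mu) {t : ℝ} (ht : t ∈ Set.Icc (0 : ℝ) 1) :
    CS K (nT g mu t) (bT b mu t) (lab5 g b) t mu (fun i => 1 / cf mu t i) fun i => mu i / cf mu t i := by
  have hc := cf_pos h.mu_pos ht
  have hs : g 0 = -∑ i : Fin 3, g i.succ := by
    have h1 := h.sum_g
    rw [Fin.sum_univ_succ] at h1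
    exact eq_neg_of_add_eq_zero_left h1
  have hb : b 0 = 1 - ∑ i : Fin 3, b i.succ := by
    have h1 := h.sum_b
    rw [Fin.sum_univ_succ] at h1
    linarith
  have e1 : ∀ y : Fin 3 → ℝ, ∑ i, 1 / cf mu t i * (bT b mu t i - nT g mu t i ⬝ᵥ y) = 1 - (b 0 - g 0 ⬝ᵥ y) := by
    intro y
    have h1 : ∀ i, 1 / cf mu t i * (bT b mu t i - nT g mu t i ⬝ᵥ y) = b i.succ - g i.succ ⬝ᵥ y := by
      intro i
      rw [bT, nT, smul_dotProduct, smul_eq_mul, ← mul_sub, ← mul_assoc, one_div_mul_cancel (hc i).ne', one_mul]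
    rw [Finset.sum_congr rfl fun i _ => h1 i, Finset.sum_sub_distrib, hs, hb, neg_dotProduct, sum_dotProduct]
    ring
  have e2 : ∀ y : Fin 3 → ℝ, ∑ i, mu i / cf mu t i * (bT b mu t i - nT g mu t i ⬝ᵥ y) =
      1 - (bD b mu - vD g mu ⬝ᵥ y) := by
    intro y
    have h1 : ∀ i, mu i / cf mu t i * (bT b mu t i - nT g mu t i ⬝ᵥ y) = mu i * b i.succ - mu i * (g i.succ ⬝ᵥ y) := by
      intro i
      rw [bT, nT, smul_dotProduct, smul_eq_mul, ← mul_sub, ← mul_assoc, div_mul_cancel₀ _ (hc i).ne', mul_sub]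
    rw [Finset.sum_congr rfl fun i _ => h1 i, Finset.sum_sub_distrib, bD, vD, neg_dotProduct, sum_dotProduct]
    simp only [smul_dotProduct, smul_eq_mul]
    ring
  refine ⟨fun i => one_div_pos.2 (hc i), fun i => one_div_mul_cancel (hc i).ne', fun i => ?_, fun x hx => ?_,
    fun x hx => ?_, fun z hz => ?_, fun z hz => ?_, fun z hz => ?_⟩
  · rw [mul_one_div]
  · rw [e1]
    have := h.sub 0 x hx
    linarith
  · rw [e2]
    have := h.subD x hx
    linarith
  · rw [e1]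
    have := lab5_0 hz
    linarith
  · rw [e2]
    have := h.lab5_D hz
    linarith
  · rw [e1]
    have := lab5_4 hz
    linarith

/-- **The wall state with the two circuits and the budget.** -/
theorem exists_hasK (thmA : ∀ (K : Set (Fin 3 → ℝ)) (f P : Fin 4 → Fin 3 → ℤ) (g : Fin 4 → Fin 3 → ℝ), LFree K →
      OChain K f P g → (∀ m : Fin 3 → ℝ, ∃ a : Fin 4 → ℝ, ∑ j, a j • g j = m) → WidthLe K (2 + Real.sqrt 2))
    (h : Two K (2 + Real.sqrt 2) g b mu)
    (hA : (∃ p : Fin 4 → Fin 3 → ℝ, (∀ k, p k ∈ K) ∧ 183 / 50 ≤ ∑ k, (b k - g k ⬝ᵥ p k)) ∨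
      ∃ p : Fin 4 → Fin 3 → ℝ, (∀ k, p k ∈ K) ∧ 183 / 50 ≤ ∑ k, (hD b mu k - gD g mu k ⬝ᵥ p k)) :
    ∃ l ∈ classesB, HasK K (2 + Real.sqrt 2) l := by
  obtain ⟨g', b', mu', h', hB⟩ := exists_bud thmA h hA
  obtain ⟨t, f, x, ht, hx⟩ := exists_ostate_t thmA zero_le_one le_rfl h'
  have hc := cf_pos h'.mu_pos ht
  have ht1 : 0 ≤ 1 - t := by linarith [ht.2]
  have hS : Budget ((1 - t) • g' 0) (bT b' mu' t) ((1 - t) * b' 0) (t * bD b' mu') (rT mu' t) (lab5 g' b') t mu' := by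
    refine ⟨ht.1, ht.2, ?_, h'.mu_pos, ?_, hB.cut, hB.ord, hB.act, hB.act', ?_⟩
    · have h2 : ∀ i : Fin 3, rT mu' t i * bT b' mu' t i = t * (mu' i * b' i.succ) := by
        intro i
        have h3 : rT mu' t i * cf mu' t i = t * mu' i := div_mul_cancel₀ _ (hc i).ne'
        have h4 : bT b' mu' t i = cf mu' t i * b' i.succ := rfl
        rw [h4, ← mul_assoc, h3]
        ring
      rw [Finset.sum_congr rfl fun i _ => h2 i, ← Finset.mul_sum, bD]
      ring
    · intro i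
      exact div_mul_cancel₀ _ (hc i).ne'
    · intro z hz
      rw [smul_dotProduct, smul_eq_mul]
      exact mul_le_mul_of_nonneg_left (lab5_4 hz).le ht1
  exact HasK.exists_class ⟨_, _, _, _, _, _, _, _, f, x, t, mu', _, _, hx, hS, h'.cs ht, rfl⟩

/-! ### the state of the certificate -/

/-- the state with the parameters of the form -/
structure KF (W : ℝ) (l : Fin 6 → Fin 5) (F Z : Matrix (Fin 3) (Fin 3) ℝ) (S : ℝ) (p : Fin 5 → ℝ)
    (cls : Fin 3 → Bool) (d c s : Fin 3 → ℝ) (h : ℝ) (L : (Fin 3 → ℤ) → Fin 5) : Prop where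
  p0 : ∀ i, 0 ≤ p i
  psum : ∑ i, p i = S ^ 2
  Spos : 0 < S
  gram : Fᵀ * F = sellM p
  inv : (Fᵀ * F) * Z = 1
  oct : ∀ i, L (oc i) = l i
  ks : KS W F (F * Z) cls d c s h L
  clsA : ∃ i, cls i = true
  clsB : ∃ i, cls i = false
  lin : ∀ i, (1 - h) * c i + h * s i = 1
  ord : h * ∑ i : Fin 3, (if cls i = true then 0 else d i) ≤ (1 - h) * ∑ i : Fin 3, (if cls i = true then d i else 0)

theorem gz_gq (j : Fin 4) (a : Fin 3) : (gz j a : ℝ) = gq j a := by
  fin_cases j <;> fin_cases a <;> simp [gz, gq]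

theorem yv_pr (F : Matrix (Fin 3) (Fin 3) ℝ) (j : Fin 4) (v : Fin 3 → ℤ) :
    yv F j v = pr F (vecMulVec (gq j) (toR v)) := by
  unfold yv pr
  simp only [gz_gq, Matrix.trace, Matrix.diag, Matrix.mul_apply, Matrix.transpose_apply, vecMulVec_apply, toR,
    Fin.sum_univ_three]
  ring

theorem frm_merge (n : Fin 3 → Fin 3 → ℝ) (nC nD y z : Fin 3 → ℝ) :
    frm 0 n (nC + nD) 0 y z = frm 1 n nC nD y z := by
  unfold frm
  simp only [add_dotProduct, zero_dotProduct]
  ring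

theorem gram4 {n : Fin 3 → Fin 3 → ℝ} {nC nD : Fin 3 → ℝ} (hG : ∑ j, G4 n nC nD j = 0) (f : Fin 4 → Fin 3 → ℤ) :
    (FF (G4 n nC nD) f)ᵀ * FF (G4 n nC nD) f =
      (1 / 4 : ℝ) • ((V5 n (nC + nD) 0 f)ᵀ * V5 n (nC + nD) 0 f) := by
  ext l m
  have h1 := FF_gram hG f l m
  rw [Matrix.smul_apply, V5_gram, smul_eq_mul]
  have h2 : ∑ k, Vv (G4 n nC nD) f k l * Vv (G4 n nC nD) f k m =
      frm 0 n (nC + nD) 0 (toR (f l.castSucc)) (toR (f m.castSucc)) := by
    rw [Fin.sum_univ_four]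
    simp only [Vv, G4, frm, Fin.sum_univ_three, Matrix.cons_val_zero, Matrix.cons_val_one, Matrix.cons_val,
      zero_dotProduct]
    ring
  linarith

theorem HasK.kf {K : Set (Fin 3 → ℝ)} {W : ℝ} {l : Fin 6 → Fin 5} (hH : HasK K W l) :
    ∃ F Z S p cls d c s h L, KF W l F Z S p cls d c s h L := by
  obtain ⟨n, nC, nD, b, bC, bD, ρ, lab, f, x, h, mu, c, s, hO, B, C, rfl⟩ := hH
  have F5 := hO.five
  obtain ⟨Z, hZ⟩ := F5.exists_Z4 hO.sb
  obtain ⟨p, hp⟩ : ∃ p : Fin 5 → ℝ, p = ![sel5 n (nC + nD) 0 f 0 2 / 4, sel5 n (nC + nD) 0 f 0 3 / 4,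
      sel5 n (nC + nD) 0 f 1 2 / 4, sel5 n (nC + nD) 0 f 1 3 / 4, sel5 n (nC + nD) 0 f 2 3 / 4] := ⟨_, rfl⟩
  have hs0 : ∀ i j, i ≠ j → 0 ≤ sel5 n (nC + nD) 0 f i j / 4 := by
    intro i j hij
    unfold sel5
    rw [frm_merge]
    have := hO.obt i j hij
    linarith
  have hp0 : ∀ i, 0 ≤ p i := by
    intro i
    rw [hp]
    fin_cases i
    · exact hs0 0 2 (by decide)
    · exact hs0 0 3 (by decide)
    · exact hs0 1 2 (by decide)
    · exact hs0 1 3 (by decide)
    · exact hs0 2 3 (by decide)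
  have hw0 : sel5 n (nC + nD) 0 f 0 1 = 0 := by
    unfold sel5
    rw [frm_merge, hO.wall, neg_zero]
  have hgram : (FF (G4 n nC nD) f)ᵀ * FF (G4 n nC nD) f = sellM p := by
    rw [gram4 F5.sumG, V5_selling n (nC + nD) 0 hO.sb.sum, hw0, hp]
    unfold sellM
    ext i j
    fin_cases i <;> fin_cases j <;> simp <;> ring
  have hppos : 0 < ∑ i, p i := by
    refine lt_of_le_of_ne (Finset.sum_nonneg fun i _ => hp0 i) fun h0 => ?_
    have h1 := (Finset.sum_eq_zero_iff_of_nonneg fun i _ => hp0 i).1 h0.symm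
    have h2 : sellM p = 0 := by
      unfold sellM
      ext i j
      fin_cases i <;> fin_cases j <;> simp [h1]
    have h3 := hZ
    rw [hgram, h2, Matrix.zero_mul] at h3
    have h4 := congrFun (congrFun h3 0) 0
    simp at h4
  have hli : ∀ i : Fin 3, li i = i.succ.castSucc := fun i => rfl
  have hval : ∀ (i : Fin 3) (z y : Fin 3 → ℤ), yv (FF (G4 n nC nD) f) i.succ (z - y) =
      n i ⬝ᵥ toR (latt f x z) - n i ⬝ᵥ toR (latt f x y) := by
    intro i z y
    rw [yv_pr, Pool.Agent.Helper1.FIVE.val_eq f F5.sumG x]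
  have hmu := B.mu0
  have hh0 := B.h0
  have hh1 : 0 ≤ 1 - h := by linarith [B.h1]
  have hc0 := C.cpos
  have hs0' : ∀ i, 0 ≤ s i := fun i => by
    rw [C.mul]
    exact (mul_pos (hmu i) (hc0 i)).le
  obtain ⟨cls, hcls⟩ : ∃ cls : Fin 3 → Bool, ∀ i, cls i = true ↔ mu i ≤ 1 := by
    classical
    exact ⟨fun i => decide (mu i ≤ 1), fun i => decide_eq_true_iff⟩
  have hcls' : ∀ i, cls i = false ↔ 1 < mu i := fun i => by
    rw [← Bool.not_eq_true, hcls, not_le]
  obtain ⟨d, hd⟩ : ∃ d : Fin 3 → ℝ, d = fun i => if cls i = true then h * (1 - mu i) else (1 - h) * (1 - 1 / mu i) :=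
    ⟨_, rfl⟩
  have hdA : ∀ i, cls i = true → d i = h * (1 - mu i) := fun i hi => by rw [hd]; simp only; rw [if_pos hi]
  have hdB : ∀ i, cls i = false → d i = (1 - h) * (1 - 1 / mu i) := fun i hi => by
    rw [hd]; simp only; rw [if_neg (by rw [hi]; decide)]
  have hinv : ∀ i, cls i = false → 0 ≤ 1 - 1 / mu i ∧ 0 < 1 / mu i := fun i hi => by
    have h1 := (hcls' i).1 hi
    have h2 : 1 / mu i ≤ 1 := by rw [div_le_one (hmu i)]; exact h1.le
    exact ⟨by linarith, one_div_pos.2 (hmu i)⟩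
  refine ⟨FF (G4 n nC nD) f, Z, Real.sqrt (∑ i, p i), p, cls, d, c, s, h, fun v => lab (latt f x v), hp0,
    (Real.sq_sqrt hppos.le).symm, Real.sqrt_pos.2 hppos, hgram, hZ, ?_, ⟨?_, ?_, fun i => (hc0 i).le, hs0', ?_, ?_, ?_,
    ?_, ?_, ?_, ?_, B.h0, B.h1, ?_, ?_⟩, ?_, ?_, ?_, ?_⟩
  · intro i
    show lab (latt f x (oc i)) = lab (octp f x i)
    rw [octp_eq hO.sb.sum]
  · intro i
    rcases Bool.eq_false_or_eq_true (cls i) with hi | hi
    · rw [hdA i hi]
      exact mul_nonneg hh0 (by linarith [(hcls i).1 hi])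
    · rw [hdB i hi]
      exact mul_nonneg hh1 (hinv i hi).1
  · intro i
    rcases Bool.eq_false_or_eq_true (cls i) with hi | hi
    · rw [hdA i hi]
      have h1 := hmu i
      have h2 := (hcls i).1 hi
      nlinarith [mul_nonneg hh1 (sub_nonneg.2 h2)]
    · rw [hdB i hi]
      obtain ⟨h1, h2⟩ := hinv i hi
      nlinarith [mul_nonneg hh0 h1]
  · intro i hi
    rw [hdA i hi]
    have h1 := C.one i
    refine ⟨by linarith, ?_⟩
    rw [C.mul, ← h1, mul_comm (mu i)]
    refine mul_le_mul_of_nonneg_left ?_ (hc0 i).le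
    have h2 := mul_nonneg hh1 (sub_nonneg.2 ((hcls i).1 hi))
    linarith
  · intro i hi
    rw [hdB i hi]
    have h1 := C.one i
    have h2 := (hcls' i).1 hi
    constructor
    · rw [C.mul]
      have h3 : mu i * (1 / mu i) = 1 := mul_one_div_cancel (hmu i).ne'
      linear_combination h1 + c i * (1 - h) * h3
    · nlinarith [mul_nonneg (mul_nonneg (hc0 i).le hh0) (sub_nonneg.2 h2.le)]
  · intro i z y hz hy
    rw [hval]
    have h1 := F5.lab_i _ i (hz.trans (hli i).symm)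
    have h2 : n i ⬝ᵥ toR (latt f x y) ≤ b i := by
      rcases hy with hy | hy
      · exact (F5.lab_C _ hy).2 i
      · exact (F5.lab_D _ hy).2 i
    linarith
  · intro z y hz hy
    refine (C.labC _ hy).trans (Finset.sum_le_sum fun i _ => ?_)
    rw [hval]
    refine mul_le_mul_of_nonneg_left ?_ (hc0 i).le
    have h1 := F5.lab_i _ i ((hz i).trans (hli i).symm)
    linarith
  · intro z y hz hy
    refine (C.labD _ hy).trans (Finset.sum_le_sum fun i _ => ?_)
    rw [hval]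
    refine mul_le_mul_of_nonneg_left ?_ (hs0' i)
    have h1 := F5.lab_i _ i ((hz i).trans (hli i).symm)
    linarith
  · intro z y y' hz hy hy'
    have h1 := C.labC _ hy
    have h2 := C.labCD _ hy'
    have h3 : ∑ i : Fin 3, c i * (yv (FF (G4 n nC nD) f) i.succ (z i - y) - yv (FF (G4 n nC nD) f) i.succ (z i - y')) =
        ∑ i, c i * (b i - n i ⬝ᵥ toR (latt f x y)) - ∑ i, c i * (b i - n i ⬝ᵥ toR (latt f x y')) := by
      rw [← Finset.sum_sub_distrib]
      refine Finset.sum_congr rfl fun i _ => ?_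
      rw [hval, hval]
      ring
    rw [h3]
    linarith
  · intro u hu
    obtain ⟨r, hr, hru⟩ := exists_uu hO.sb u hu
    obtain ⟨y, hy, y', hy', hlt⟩ := F5.wide r hr
    have hb : ∀ y ∈ K, Bary c s fun j => B4 b bC bD j - G4 n nC nD j ⬝ᵥ y := by
      intro y hy
      refine ⟨fun j => sub_nonneg.2 (F5.leB hy j), ?_, ?_, ?_⟩
      · rw [Finset.sum_sub_distrib, ← sum_dotProduct, F5.sumG, zero_dotProduct, sub_zero, F5.sumB]
      · have h1 := C.subC y hy
        rw [Fin.sum_univ_three] at h1 ⊢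
        exact h1
      · have h1 := C.subD y hy
        rw [Fin.sum_univ_three] at h1 ⊢
        exact h1
    refine ⟨_, _, hb y hy, hb y' hy', ?_⟩
    obtain ⟨v, hv⟩ := exists_pt hO.sb (y - y')
    have h1 := fact_w F5.sumG f Z hZ (toR r) v
    rw [hv] at h1
    have h2 : (fun l : Fin 3 => toR r ⬝ᵥ toR (f l.castSucc)) = toR u := hru
    rw [h2] at h1
    have h3 : ∑ j : Fin 4, ((B4 b bC bD j - G4 n nC nD j ⬝ᵥ y') - (B4 b bC bD j - G4 n nC nD j ⬝ᵥ y)) *
        yv (FF (G4 n nC nD) f * Z) j u = 4 * (toR r ⬝ᵥ (y - y')) := by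
      rw [h1]
      refine Finset.sum_congr rfl fun j _ => ?_
      rw [yv_pr, dotProduct_sub]
      unfold pr
      ring
    rw [h3]
    linarith
  · intro i hi
    rw [hdA i hi]
    have h1 := mul_nonneg hh0 (hmu i).le
    linarith
  · have h1 : ∀ i, (if cls i = true then 0 else d i) ≤ (1 - h) * max 0 (1 - 1 / mu i) := by
      intro i
      rcases Bool.eq_false_or_eq_true (cls i) with hi | hi
      · rw [if_pos hi]
        exact mul_nonneg hh1 (le_max_left _ _)
      · rw [if_neg (by rw [hi]; decide), hdB i hi]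
        exact mul_le_mul_of_nonneg_left (le_max_right _ _) hh1
    refine (Finset.sum_le_sum fun i _ => h1 i).trans ?_
    rw [← Finset.mul_sum, mul_comm]
    exact mul_le_mul_of_nonneg_right B.cut hh1
  · obtain ⟨i, hi⟩ := B.act'
    exact ⟨i, (hcls i).2 hi.le⟩
  · obtain ⟨i, hi⟩ := B.act
    exact ⟨i, (hcls' i).2 hi⟩
  · intro i
    rw [C.mul]
    linear_combination C.one i
  · have h1 : ∀ i, (if cls i = true then 0 else d i) = (1 - h) * max 0 (1 - 1 / mu i) := by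
      intro i
      rcases Bool.eq_false_or_eq_true (cls i) with hi | hi
      · rw [if_pos hi, max_eq_left, mul_zero]
        have h2 := (hcls i).1 hi
        have h3 : 1 ≤ 1 / mu i := by rw [le_div_iff₀ (hmu i)]; linarith
        linarith
      · rw [if_neg (by rw [hi]; decide), hdB i hi, max_eq_right (hinv i hi).1]
    have h2 : ∀ i, (if cls i = true then d i else 0) = h * max 0 (1 - mu i) := by
      intro i
      rcases Bool.eq_false_or_eq_true (cls i) with hi | hi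
      · rw [if_pos hi, hdA i hi, max_eq_right]
        linarith [(hcls i).1 hi]
      · rw [if_neg (by rw [hi]; decide), max_eq_left, mul_zero]
        linarith [(hcls' i).1 hi]
    rw [Finset.sum_congr rfl fun i _ => h1 i, Finset.sum_congr rfl fun i _ => h2 i, ← Finset.mul_sum, ← Finset.mul_sum]
    have h3 := mul_le_mul_of_nonneg_left B.ord (mul_nonneg hh0 hh1)
    linarith

end Pool.Agent.Helper20.PS
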