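import Pool.Agent.Helper20.PS.GL

/-!
# The number of rainbow cells is odd
-/

set_option autoImplicit false

namespace Pool.Agent.Helper20.PS

open Matrix

/-- the standard superbase -/
def e4 : Fin 4 → V := ![![1, 0, 0], ![0, 1, 0], ![0, 0, 1], ![-1, -1, -1]]

/-- labels for one simplex -/
def lab0 (v : V) : Fin 4 :=
  if v 0 ≤ v 1 ∧ v 0 ≤ v 2 ∧ v 0 + (v 0 + v 1 + v 2) ≤ 0 then 1
  else if v 1 ≤ v 0 ∧ v 1 ≤ v 2 ∧ v 1 + (v 0 + v 1 + v 2) ≤ 0 then 2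
  else if v 2 ≤ v 0 ∧ v 2 ≤ v 1 ∧ v 2 + (v 0 + v 1 + v 2) ≤ 0 then 3
  else 0

theorem lab0_one {v : V} (h : lab0 v = 1) : v 0 ≤ v 1 ∧ v 0 ≤ v 2 ∧ v 0 + (v 0 + v 1 + v 2) ≤ 0 := by
  unfold lab0 at h
  split_ifs at h with h1 h2 h3 <;> first | assumption | exact absurd h (by decide)

theorem lab0_two {v : V} (h : lab0 v = 2) : v 1 ≤ v 0 ∧ v 1 ≤ v 2 ∧ v 1 + (v 0 + v 1 + v 2) ≤ 0 := by
  unfold lab0 at h
  split_ifs at h with h1 h2 h3 <;> first | assumption | exact absurd h (by decide)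

theorem lab0_three {v : V} (h : lab0 v = 3) : v 2 ≤ v 0 ∧ v 2 ≤ v 1 ∧ v 2 + (v 0 + v 1 + v 2) ≤ 0 := by
  unfold lab0 at h
  split_ifs at h with h1 h2 h3 <;> first | assumption | exact absurd h (by decide)

theorem lab0_zero {v : V} (h : lab0 v = 0) : ∃ i : Fin 3, v i ≤ v 0 ∧ v i ≤ v 1 ∧ v i ≤ v 2 ∧
    0 < v i + (v 0 + v 1 + v 2) := by
  unfold lab0 at h
  split_ifs at h with h1 h2 h3
  · exact absurd h (by decide)
  · exact absurd h (by decide)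
  · exact absurd h (by decide)
  by_cases h4 : v 0 ≤ v 1 ∧ v 0 ≤ v 2
  · exact ⟨0, le_refl _, h4.1, h4.2, by
      by_contra h5
      exact h1 ⟨h4.1, h4.2, by omega⟩⟩
  · by_cases h5 : v 1 ≤ v 0 ∧ v 1 ≤ v 2
    · exact ⟨1, h5.1, le_refl _, h5.2, by
        by_contra h6
        exact h2 ⟨h5.1, h5.2, by omega⟩⟩
    · exact ⟨2, by omega, by omega, le_refl _, by
        by_contra h6
        exact h3 ⟨by omega, by omega, by omega⟩⟩

/-- the rows of one simplex -/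
def B0 : Fin 3 → Fin 3 → ℝ := ![![-1, 0, 0], ![0, -1, 0], ![0, 0, -1]]

theorem dt_B0 : dt B0 ≠ 0 := by
  unfold dt B0
  rw [Matrix.det_fin_three]
  simp

theorem coh0 : Coh (gB B0) lab0 0 := by
  intro v
  have g0 : gB B0 0 ⬝ᵥ rr v = (v 0 : ℝ) + v 1 + v 2 := by
    rw [gB_zero]
    simp only [Fin.sum_univ_three, B0, dotProduct, rr, Pi.neg_apply, Pi.add_apply]
    simp
  have g1 : gB B0 1 ⬝ᵥ rr v = -(v 0 : ℝ) := by
    show B0 0 ⬝ᵥ rr v = _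
    simp [B0, dotProduct, rr, Fin.sum_univ_three]
  have g2 : gB B0 2 ⬝ᵥ rr v = -(v 1 : ℝ) := by
    show B0 1 ⬝ᵥ rr v = _
    simp [B0, dotProduct, rr, Fin.sum_univ_three]
  have g3 : gB B0 3 ⬝ᵥ rr v = -(v 2 : ℝ) := by
    show B0 2 ⬝ᵥ rr v = _
    simp [B0, dotProduct, rr, Fin.sum_univ_three]
  rw [neg_zero]
  obtain ⟨l, hl⟩ : ∃ l, l = lab0 v := ⟨_, rfl⟩
  rw [← hl]
  fin_cases l
  · show 0 ≤ gB B0 0 ⬝ᵥ rr v
    rw [g0]
    obtain ⟨i, h0, h1, h2, h3⟩ := lab0_zero hl.symm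
    have : 0 ≤ v 0 + v 1 + v 2 := by omega
    exact_mod_cast this
  · show 0 ≤ gB B0 1 ⬝ᵥ rr v
    rw [g1]
    obtain ⟨h0, h1, h2⟩ := lab0_one hl.symm
    have : 0 ≤ -v 0 := by omega
    exact_mod_cast this
  · show 0 ≤ gB B0 2 ⬝ᵥ rr v
    rw [g2]
    obtain ⟨h0, h1, h2⟩ := lab0_two hl.symm
    have : 0 ≤ -v 1 := by omega
    exact_mod_cast this
  · show 0 ≤ gB B0 3 ⬝ᵥ rr v
    rw [g3]
    obtain ⟨h0, h1, h2⟩ := lab0_three hl.symm
    have : 0 ≤ -v 2 := by omega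
    exact_mod_cast this

/-- a small box -/
def box0 : Finset V := Fintype.piFinset fun _ => ({-1, 0, 1} : Finset ℤ)

theorem T_box {i j k : Fin 4} (h01 : ∀ a, 0 ≤ e4 i a) (h02 : ∀ a, 0 ≤ e4 j a) (h03 : ∀ a, 0 ≤ e4 k a)
    (hs : ∀ a, e4 i a + e4 j a + e4 k a ≤ 1) (z : V) (h : T e4 (Dl lab0) i j k z ≠ 0) : z ∈ box0 := by
  have hk := rb_ne _ _ _ _ h
  have hv : ∀ κ : Fin 4, ∃ v : V, lab0 v = κ ∧ ∀ a, z a ≤ v a ∧ v a ≤ z a + 1 := by
    intro κ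
    rcases hk κ with h1 | h1 | h1 | h1
    · exact ⟨z, h1.symm, fun a => ⟨le_refl _, by omega⟩⟩
    · refine ⟨_, h1.symm, fun a => ?_⟩
      have a1 := h01 a
      have a2 := h02 a
      have a3 := h03 a
      have a4 := hs a
      have e : (z + e4 i) a = z a + e4 i a := rfl
      rw [e]
      omega
    · refine ⟨_, h1.symm, fun a => ?_⟩
      have a1 := h01 a
      have a2 := h02 a
      have a3 := h03 a
      have a4 := hs a
      have e : (z + e4 i + e4 j) a = z a + e4 i a + e4 j a := rfl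
      rw [e]
      omega
    · refine ⟨_, h1.symm, fun a => ?_⟩
      have a1 := h01 a
      have a2 := h02 a
      have a3 := h03 a
      have a4 := hs a
      have e : (z + e4 i + e4 j + e4 k) a = z a + e4 i a + e4 j a + e4 k a := rfl
      rw [e]
      omega
  obtain ⟨v0, hv0, b0⟩ := hv 0
  obtain ⟨v1, hv1, b1⟩ := hv 1
  obtain ⟨v2, hv2, b2⟩ := hv 2
  obtain ⟨v3, hv3, b3⟩ := hv 3
  obtain ⟨i, c0, c1, c2, c3⟩ := lab0_zero hv0
  obtain ⟨d0, d1, d2⟩ := lab0_one hv1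
  obtain ⟨e0, e1, e2⟩ := lab0_two hv2
  obtain ⟨f0, f1, f2⟩ := lab0_three hv3
  have := b0 0
  have := b0 1
  have := b0 2
  have := b1 0
  have := b1 1
  have := b1 2
  have := b2 0
  have := b2 1
  have := b2 2
  have := b3 0
  have := b3 1
  have := b3 2
  unfold box0
  rw [Fintype.mem_piFinset]
  intro a
  simp only [Finset.mem_insert, Finset.mem_singleton]
  fin_cases a
  · show z 0 = -1 ∨ z 0 = 0 ∨ z 0 = 1
    omega
  · show z 1 = -1 ∨ z 1 = 0 ∨ z 1 = 1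
    omega
  · show z 2 = -1 ∨ z 2 = 0 ∨ z 2 = 1
    omega

theorem e4_nonneg : ∀ i ∈ ({0, 1, 2} : Finset (Fin 4)), ∀ a, 0 ≤ e4 i a := by decide

theorem e4_sum : ∀ i ∈ ({0, 1, 2} : Finset (Fin 4)), ∀ j ∈ ({0, 1, 2} : Finset (Fin 4)),
    ∀ k ∈ ({0, 1, 2} : Finset (Fin 4)), i ≠ j → j ≠ k → i ≠ k → ∀ a, e4 i a + e4 j a + e4 k a ≤ 1 := by decide

theorem N_e4 : N e4 (Dl lab0) = 1 := by
  unfold N
  rw [finsum_eq_sum_of_support_subset (s := box0)]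
  · decide +kernel
  · intro z hz
    by_contra hcon
    apply hz
    have h1 : ∀ i j k : Fin 4, i ∈ ({0, 1, 2} : Finset (Fin 4)) → j ∈ ({0, 1, 2} : Finset (Fin 4)) →
        k ∈ ({0, 1, 2} : Finset (Fin 4)) → i ≠ j → j ≠ k → i ≠ k → T e4 (Dl lab0) i j k z = 0 := by
      intro i j k hi hj hk hij hjk hik
      by_contra h
      exact hcon (T_box (e4_nonneg i hi) (e4_nonneg j hj) (e4_nonneg k hk) (e4_sum i hi j hj k hk hij hjk hik) z h)
    unfold Ks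
    rw [h1 0 1 2, h1 0 2 1, h1 1 0 2, h1 1 2 0, h1 2 0 1, h1 2 1 0] <;> decide

/-- the parity is odd for the standard superbase -/
theorem val_e4 (B : Fin 3 → Fin 3 → ℝ) (hB : dt B ≠ 0) : val e4 B = 1 := by
  rw [val_const e4 B hB B0 dt_B0, ← val_eq e4 dt_B0 coh0, N_e4]

end Pool.Agent.Helper20.PS
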