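import Pool.Agent.Helper20.PS.State

/-!
# Five facets: exchange of the two circuits and the budget of asymmetry
-/

set_option autoImplicit false

namespace Pool.Agent.Helper20.PS

open Matrix
open Pool.Agent.Helper12.LW (LFree toR)
open Pool.Agent.Helper84.FL (Superbase WidthLe)
open Pool.Agent.Helper1.FIVE (frm li Five octp OneP OState)
open Pool.Agent.Helper38.TET (OChain)

/-- the budget: `1 - 1 / mu i` is the depth of the cut by the plane `D` at the vertex `i` of the first simplex,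
`1 - mu i` the depth of the cut by the plane `C` at the vertex `i` of the second one -/
structure Bud (mu : Fin 3 → ℝ) : Prop where
  cut : ∑ i, max 0 (1 - 1 / mu i) ≤ 17 / 50
  ord : ∑ i, max 0 (1 - 1 / mu i) ≤ ∑ i, max 0 (1 - mu i)
  act : ∃ i, 1 < mu i
  act' : ∃ i, mu i < 1

/-- the normals of the second circuit -/
def gD (g : Fin 4 → Fin 3 → ℝ) (mu : Fin 3 → ℝ) : Fin 4 → Fin 3 → ℝ :=
  Fin.cons (vD g mu) fun i : Fin 3 => mu i • g i.succ

/-- the heights of the second circuit -/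
def hD (b : Fin 4 → ℝ) (mu : Fin 3 → ℝ) : Fin 4 → ℝ := Fin.cons (bD b mu) fun i : Fin 3 => mu i * b i.succ

variable {K : Set (Fin 3 → ℝ)} {W : ℝ} {g : Fin 4 → Fin 3 → ℝ} {b : Fin 4 → ℝ} {mu : Fin 3 → ℝ}

theorem Two.vD_swap (h : Two K W g b mu) : vD (gD g mu) (fun i => 1 / mu i) = g 0 := by
  have h3 := h.sum_g
  rw [Fin.sum_univ_succ] at h3
  have h2 : ∀ i : Fin 3, (1 / mu i) • gD g mu i.succ = g i.succ := fun i => by
    simp only [gD, Fin.cons_succ]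
    rw [smul_smul, one_div_mul_cancel (h.mu_pos i).ne', one_smul]
  rw [vD, Finset.sum_congr rfl fun i _ => h2 i, eq_neg_of_add_eq_zero_left h3]

theorem Two.bD_swap (h : Two K W g b mu) : bD (hD b mu) (fun i => 1 / mu i) = b 0 := by
  have h3 := h.sum_b
  rw [Fin.sum_univ_succ] at h3
  have h2 : ∀ i : Fin 3, 1 / mu i * hD b mu i.succ = b i.succ := fun i => by
    simp only [hD, Fin.cons_succ]
    rw [← mul_assoc, one_div_mul_cancel (h.mu_pos i).ne', one_mul]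
  rw [bD, Finset.sum_congr rfl fun i _ => h2 i]
  linarith

/-- **Exchange of the two circuits.** -/
theorem Two.swap (h : Two K W g b mu) : Two K W (gD g mu) (hD b mu) fun i => 1 / mu i := by
  refine ⟨h.free, h.wide, ?_, ?_, ?_, fun i => one_div_pos.2 (h.mu_pos i), ?_, ?_, ?_⟩
  · rw [Fin.sum_univ_succ]
    simp only [gD, Fin.cons_zero, Fin.cons_succ, vD]
    abel
  · rw [Fin.sum_univ_succ]
    simp only [hD, Fin.cons_zero, Fin.cons_succ, bD]
    ring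
  · intro m
    obtain ⟨a, ha⟩ := h.span m
    refine ⟨Fin.cons 0 fun i : Fin 3 => (a i.succ - a 0) / mu i, ?_⟩
    rw [Fin.sum_univ_succ]
    simp only [gD, Fin.cons_zero, Fin.cons_succ, zero_smul, zero_add, smul_smul]
    have h2 : ∀ i : Fin 3, (a i.succ - a 0) / mu i * mu i = a i.succ - a 0 := fun i =>
      div_mul_cancel₀ _ (h.mu_pos i).ne'
    simp only [h2]
    have h3 := h.sum_g
    rw [Fin.sum_univ_succ] at h3
    have h4 : m = a 0 • g 0 + ∑ i : Fin 3, a i.succ • g i.succ := by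
      rw [← ha]
      exact Fin.sum_univ_succ _
    rw [h4, eq_neg_of_add_eq_zero_left h3, smul_neg, Finset.smul_sum]
    simp only [sub_smul, Finset.sum_sub_distrib]
    abel
  · intro j x hx
    refine Fin.cases ?_ (fun i => ?_) j
    · exact h.subD x hx
    · simp only [gD, hD, Fin.cons_succ, smul_dotProduct, smul_eq_mul]
      exact mul_le_mul_of_nonneg_left (h.sub _ x hx) (h.mu_pos i).le
  · intro x hx
    rw [h.vD_swap, h.bD_swap]
    exact h.sub 0 x hx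
  · intro z
    rw [h.vD_swap, h.bD_swap]
    rcases h.cover z with ⟨j, hj⟩ | h1
    · revert hj
      refine Fin.cases ?_ (fun i => ?_) j
      · exact fun hj => Or.inr hj
      · intro hj
        refine Or.inl ⟨i.succ, ?_⟩
        simp only [gD, hD, Fin.cons_succ, smul_dotProduct, smul_eq_mul]
        exact mul_le_mul_of_nonneg_left hj (h.mu_pos i).le
    · exact Or.inl ⟨0, h1⟩

/-- the barycentric functions have the sum one -/
theorem Two.sum_y (h : Two K W g b mu) (x : Fin 3 → ℝ) : ∑ j, (b j - g j ⬝ᵥ x) = 1 := by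
  rw [Finset.sum_sub_distrib, h.sum_b, ← sum_dotProduct, h.sum_g, zero_dotProduct, sub_zero]

/-- the plane `D` in barycentric coordinates -/
theorem vD_dot (g : Fin 4 → Fin 3 → ℝ) (mu : Fin 3 → ℝ) (x : Fin 3 → ℝ) :
    vD g mu ⬝ᵥ x = -∑ i, mu i * (g i.succ ⬝ᵥ x) := by
  rw [vD, neg_dotProduct, sum_dotProduct]
  simp only [smul_dotProduct, smul_eq_mul]

theorem Two.D_iff (_h : Two K W g b mu) (x : Fin 3 → ℝ) :
    vD g mu ⬝ᵥ x ≤ bD b mu ↔ ∑ i, mu i * (b i.succ - g i.succ ⬝ᵥ x) ≤ 1 := by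
  rw [vD_dot, bD]
  simp only [mul_sub, Finset.sum_sub_distrib]
  constructor <;> intro h1 <;> linarith

/-- the plane `D` cuts a vertex of the first simplex -/
theorem Two.act (thmA : ∀ (K : Set (Fin 3 → ℝ)) (f P : Fin 4 → Fin 3 → ℤ) (g : Fin 4 → Fin 3 → ℝ), LFree K →
      OChain K f P g → (∀ m : Fin 3 → ℝ, ∃ a : Fin 4 → ℝ, ∑ j, a j • g j = m) → WidthLe K (2 + Real.sqrt 2))
    (h : Two K (2 + Real.sqrt 2) g b mu) : ∃ i, 1 < mu i := by
  by_contra hcon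
  push Not at hcon
  have hfree : ∀ z : Fin 3 → ℤ, ∃ j, b j ≤ g j ⬝ᵥ toR z := by
    intro z
    by_contra hz
    push Not at hz
    have h1 := (h.cover z).resolve_left fun ⟨j, hj⟩ => absurd hj (not_le.2 (hz j))
    rw [vD_dot, bD] at h1
    have h2 := h.sum_y (toR z)
    rw [Fin.sum_univ_succ] at h2
    have h3 : ∑ i, mu i * (b i.succ - g i.succ ⬝ᵥ toR z) ≤ ∑ i : Fin 3, (b i.succ - g i.succ ⬝ᵥ toR z) := by
      refine Finset.sum_le_sum fun i _ => ?_
      have h4 : 0 ≤ b i.succ - g i.succ ⬝ᵥ toR z := by linarith [hz i.succ]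
      have h5 := mul_le_mul_of_nonneg_right (hcon i) h4
      rwa [one_mul] at h5
    simp only [mul_sub] at h3
    rw [Finset.sum_sub_distrib] at h3
    have h6 := hz 0
    linarith
  obtain ⟨f, P, g', hO, hspan⟩ := Pool.Agent.Helper38.TET.ochain_of_simplex g b h.sum_g h.sum_b h.span hfree
  obtain ⟨y, hy, hle⟩ := thmA K f P g' h.free
    ⟨hO.super, hO.step, hO.sum_g, hO.norm, fun j x hx => hO.sub j x fun k => h.sub k x hx, hO.obt⟩ hspan
  obtain ⟨x, hx, x', hx', hlt⟩ := h.wide y hy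
  have h2 := hle x hx x' hx'
  have h3 : toR y ⬝ᵥ (x - x') = ∑ i, (x i - x' i) * (y i : ℝ) := by
    simp only [dotProduct, toR, Pi.sub_apply]
    exact Finset.sum_congr rfl fun i _ => mul_comm _ _
  rw [h3] at hlt
  exact absurd h2 (not_le.2 hlt)

/-- four points of the body with large barycentric coordinates bound the depth of the cuts -/
theorem Two.cut_of_points (h : Two K W g b mu) (p : Fin 4 → Fin 3 → ℝ) (hp : ∀ k, p k ∈ K)
    (hs : 183 / 50 ≤ ∑ k, (b k - g k ⬝ᵥ p k)) : ∑ i, max 0 (1 - 1 / mu i) ≤ 17 / 50 := by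
  have hy0 : ∀ j k, 0 ≤ b j - g j ⬝ᵥ p k := fun j k => by linarith [h.sub j (p k) (hp k)]
  have hy1 : ∀ j, b j - g j ⬝ᵥ p j ≤ 1 := fun j => by
    rw [← h.sum_y (p j)]
    exact Finset.single_le_sum (f := fun i => b i - g i ⬝ᵥ p j) (fun i _ => hy0 i j) (Finset.mem_univ j)
  have hy2 : ∀ i : Fin 3, b i.succ - g i.succ ⬝ᵥ p i.succ ≤ 1 / mu i := fun i => by
    have h1 := (h.D_iff _).1 (h.subD (p i.succ) (hp i.succ))
    have h2 : mu i * (b i.succ - g i.succ ⬝ᵥ p i.succ) ≤ ∑ j : Fin 3, mu j * (b j.succ - g j.succ ⬝ᵥ p i.succ) :=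
      Finset.single_le_sum (f := fun j : Fin 3 => mu j * (b j.succ - g j.succ ⬝ᵥ p i.succ))
        (fun j _ => mul_nonneg (h.mu_pos j).le (hy0 _ _)) (Finset.mem_univ i)
    rw [le_div_iff₀ (h.mu_pos i)]
    linarith
  have h1 : ∑ i : Fin 3, max 0 (1 - 1 / mu i) ≤ ∑ i : Fin 3, (1 - (b i.succ - g i.succ ⬝ᵥ p i.succ)) := by
    refine Finset.sum_le_sum fun i _ => max_le ?_ ?_
    · linarith [hy1 i.succ]
    · linarith [hy2 i]
  rw [Fin.sum_univ_succ] at hs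
  have h2 := hy1 0
  have h3 : ∑ i : Fin 3, (1 - (b i.succ - g i.succ ⬝ᵥ p i.succ)) =
      3 - ∑ i : Fin 3, (b i.succ - g i.succ ⬝ᵥ p i.succ) := by
    simp only [Fin.sum_univ_three]
    ring
  rw [h3] at h1
  linarith

/-- **The budget.** -/
theorem exists_bud (thmA : ∀ (K : Set (Fin 3 → ℝ)) (f P : Fin 4 → Fin 3 → ℤ) (g : Fin 4 → Fin 3 → ℝ), LFree K →
      OChain K f P g → (∀ m : Fin 3 → ℝ, ∃ a : Fin 4 → ℝ, ∑ j, a j • g j = m) → WidthLe K (2 + Real.sqrt 2))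
    (h : Two K (2 + Real.sqrt 2) g b mu)
    (hA : (∃ p : Fin 4 → Fin 3 → ℝ, (∀ k, p k ∈ K) ∧ 183 / 50 ≤ ∑ k, (b k - g k ⬝ᵥ p k)) ∨
      ∃ p : Fin 4 → Fin 3 → ℝ, (∀ k, p k ∈ K) ∧ 183 / 50 ≤ ∑ k, (hD b mu k - gD g mu k ⬝ᵥ p k)) :
    ∃ (g' : Fin 4 → Fin 3 → ℝ) (b' : Fin 4 → ℝ) (mu' : Fin 3 → ℝ), Two K (2 + Real.sqrt 2) g' b' mu' ∧ Bud mu' := by
  have hs := h.swap
  have e1 : ∀ i : Fin 3, 1 / (1 / mu i) = mu i := fun i => one_div_one_div _
  have h1 : ∑ i, max 0 (1 - 1 / mu i) ≤ 17 / 50 ∨ ∑ i, max 0 (1 - mu i) ≤ 17 / 50 := by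
    rcases hA with ⟨p, hp, hp1⟩ | ⟨p, hp, hp1⟩
    · exact Or.inl (h.cut_of_points p hp hp1)
    · have h2 := hs.cut_of_points p hp hp1
      simp only [e1] at h2
      exact Or.inr h2
  have e2 : ∃ i, mu i < 1 := by
    obtain ⟨i, hi⟩ := hs.act thmA
    refine ⟨i, ?_⟩
    rwa [lt_div_iff₀ (h.mu_pos i), one_mul] at hi
  have e3 : ∃ i, 1 / mu i < 1 := by
    obtain ⟨i, hi⟩ := h.act thmA
    refine ⟨i, ?_⟩
    rwa [div_lt_iff₀ (h.mu_pos i), one_mul]
  rcases le_total (∑ i, max 0 (1 - 1 / mu i)) (∑ i, max 0 (1 - mu i)) with h2 | h2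
  · refine ⟨g, b, mu, h, ⟨?_, h2, h.act thmA, e2⟩⟩
    rcases h1 with h1 | h1
    · exact h1
    · exact h2.trans h1
  · refine ⟨_, _, _, hs, ⟨?_, ?_, hs.act thmA, e3⟩⟩
    · simp only [e1]
      rcases h1 with h1 | h1
      · exact h2.trans h1
      · exact h1
    · simp only [e1]
      exact h2

/-- the wall state with the budget -/
structure BState (κ : ℝ) (K : Set (Fin 3 → ℝ)) (W : ℝ) (n : Fin 3 → Fin 3 → ℝ) (nC nD : Fin 3 → ℝ) (b : Fin 3 → ℝ)
    (bC bD : ℝ) (ρ : Fin 3 → ℝ) (lab : (Fin 3 → ℤ) → Fin 5) (f : Fin 4 → Fin 3 → ℤ) (x : Fin 3 → ℤ) (t : ℝ)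
    (mu : Fin 3 → ℝ) : Prop where
  st : OState κ K W n nC nD b bC bD ρ lab f x
  t0 : 0 ≤ t
  t1 : t ≤ 1
  labDC : ∀ z, lab z = 4 → nC ⬝ᵥ toR z ≤ bC
  etaC : ∑ i, (1 - ρ i) * b i + bC = 1 - t
  etaD : ∑ i, ρ i * b i + bD = t
  mu_pos : ∀ i, 0 < mu i
  rho_mu : ∀ i, ρ i * ((1 - t) + t * mu i) = t * mu i
  bud : Bud mu

/-- **The wall state with the budget.** -/
theorem exists_bstate (thmA : ∀ (K : Set (Fin 3 → ℝ)) (f P : Fin 4 → Fin 3 → ℤ) (g : Fin 4 → Fin 3 → ℝ), LFree K →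
      OChain K f P g → (∀ m : Fin 3 → ℝ, ∃ a : Fin 4 → ℝ, ∑ j, a j • g j = m) → WidthLe K (2 + Real.sqrt 2))
    {κ : ℝ} (h0 : 0 ≤ κ) (h1 : κ ≤ 1) (h : Two K (2 + Real.sqrt 2) g b mu) (hB : Bud mu) :
    ∃ n nC nD b' bC bD' ρ lab f x t, BState κ K (2 + Real.sqrt 2) n nC nD b' bC bD' ρ lab f x t mu := by
  obtain ⟨t, f, x, ht, hx⟩ := exists_ostate_t thmA h0 h1 h
  have hc := cf_pos h.mu_pos ht
  have ht1 : 0 ≤ 1 - t := by linarith [ht.2]
  refine ⟨_, _, _, _, _, _, _, _, _, _, t, hx, ht.1, ht.2, ?_, ?_, ?_, h.mu_pos, ?_, hB⟩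
  · intro z hz
    rw [smul_dotProduct, smul_eq_mul]
    exact mul_le_mul_of_nonneg_left (lab5_4 hz).le ht1
  · have h2 : ∀ i : Fin 3, (1 - rT mu t i) * bT b mu t i = (1 - t) * b i.succ := by
      intro i
      have h3 : rT mu t i * cf mu t i = t * mu i := div_mul_cancel₀ _ (hc i).ne'
      have h4 : bT b mu t i = cf mu t i * b i.succ := rfl
      rw [h4, sub_mul, one_mul, ← mul_assoc, h3, cf]
      ring
    rw [Finset.sum_congr rfl fun i _ => h2 i, ← Finset.mul_sum]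
    have h3 := h.sum_b
    rw [Fin.sum_univ_succ] at h3
    linear_combination (1 - t) * h3
  · have h2 : ∀ i : Fin 3, rT mu t i * bT b mu t i = t * (mu i * b i.succ) := by
      intro i
      have h3 : rT mu t i * cf mu t i = t * mu i := div_mul_cancel₀ _ (hc i).ne'
      have h4 : bT b mu t i = cf mu t i * b i.succ := rfl
      rw [h4, ← mul_assoc, h3]
      ring
    rw [Finset.sum_congr rfl fun i _ => h2 i, ← Finset.mul_sum, bD]
    ring
  · intro i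
    exact div_mul_cancel₀ _ (hc i).ne'

namespace BState

variable {κ : ℝ} {n : Fin 3 → Fin 3 → ℝ} {nC nD : Fin 3 → ℝ} {b' : Fin 3 → ℝ} {bC bD' : ℝ} {ρ : Fin 3 → ℝ}
  {lab : (Fin 3 → ℤ) → Fin 5} {f : Fin 4 → Fin 3 → ℤ} {x : Fin 3 → ℤ} {t : ℝ}

theorem c_pos (h : BState κ K W n nC nD b' bC bD' ρ lab f x t mu) (i : Fin 3) : 0 < (1 - t) + t * mu i :=
  cf_pos h.mu_pos ⟨h.t0, h.t1⟩ i

theorem mu_le (h : BState κ K W n nC nD b' bC bD' ρ lab f x t mu) (i : Fin 3) : 33 / 50 * mu i ≤ 1 := by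
  have h1 : max 0 (1 - 1 / mu i) ≤ ∑ i, max 0 (1 - 1 / mu i) :=
    Finset.single_le_sum (f := fun i => max 0 (1 - 1 / mu i)) (fun _ _ => le_max_left _ _) (Finset.mem_univ i)
  have h2 := (le_max_right 0 (1 - 1 / mu i)).trans (h1.trans h.bud.cut)
  have h3 : 33 / 50 ≤ 1 / mu i := by linarith
  rwa [le_div_iff₀ (h.mu_pos i)] at h3

/-- `h ≥ psi (ρ i)` -/
theorem psi (h : BState κ K W n nC nD b' bC bD' ρ lab f x t mu) (i : Fin 3) :
    33 / 50 * ρ i ≤ t * (1 - 17 / 50 * ρ i) := by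
  have hc := h.c_pos i
  have h1 := h.rho_mu i
  have h2 := h.mu_le i
  have h3 : 0 ≤ t * (1 - t) * (1 - 33 / 50 * mu i) :=
    mul_nonneg (mul_nonneg h.t0 (by linarith [h.t1])) (by linarith)
  have h4 : (33 / 50 * ρ i) * ((1 - t) + t * mu i) ≤ (t * (1 - 17 / 50 * ρ i)) * ((1 - t) + t * mu i) := by
    have e1 : (33 / 50 * ρ i) * ((1 - t) + t * mu i) = 33 / 50 * (t * mu i) := by
      linear_combination (33 / 50) * h1
    have e2 : (t * (1 - 17 / 50 * ρ i)) * ((1 - t) + t * mu i) = t * ((1 - t) + t * mu i) - 17 / 50 * t * (t * mu i) := by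
      linear_combination (-(17 / 50) * t) * h1
    rw [e1, e2]
    linarith
  exact le_of_mul_le_mul_right h4 hc

/-- the plane `C` is not redundant -/
theorem rho_le (h : BState κ K W n nC nD b' bC bD' ρ lab f x t mu) : ∃ i, ρ i ≤ t := by
  obtain ⟨i, hi⟩ := h.bud.act'
  refine ⟨i, ?_⟩
  have hc := h.c_pos i
  have h1 := h.rho_mu i
  have h3 : 0 ≤ t * (1 - t) * (1 - mu i) := mul_nonneg (mul_nonneg h.t0 (by linarith [h.t1])) (by linarith)
  have h4 : ρ i * ((1 - t) + t * mu i) ≤ t * ((1 - t) + t * mu i) := by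
    rw [h1]
    linarith
  exact le_of_mul_le_mul_right h4 hc

/-- the plane `D` is not redundant -/
theorem le_rho (h : BState κ K W n nC nD b' bC bD' ρ lab f x t mu) : ∃ i, t ≤ ρ i := by
  obtain ⟨i, hi⟩ := h.bud.act
  refine ⟨i, ?_⟩
  have hc := h.c_pos i
  have h1 := h.rho_mu i
  have h3 : 0 ≤ t * (1 - t) * (mu i - 1) := mul_nonneg (mul_nonneg h.t0 (by linarith [h.t1])) (by linarith)
  have h4 : t * ((1 - t) + t * mu i) ≤ ρ i * ((1 - t) + t * mu i) := by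
    rw [h1]
    linarith
  exact le_of_mul_le_mul_right h4 hc

end BState

end Pool.Agent.Helper20.PS
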