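import Pool.Agent.Helper20.PS.Cube
import Pool.Agent.Helper21.TET.Spn

/-!
# Labels which are compatible with a simplex: the parity of the number of rainbow cells depends on the simplex only
-/

set_option autoImplicit false

namespace Pool.Agent.Helper20.PS

open Matrix

/-- all labels `0, 1, 2, 3` occur -/
def rb (a b c d : Fin 4) : ZMod 2 :=
  if a ≠ b ∧ a ≠ c ∧ a ≠ d ∧ b ≠ c ∧ b ≠ d ∧ c ≠ d then 1 else 0

/-- the labels are `1, 2, 3` -/
def dr (a b c : Fin 4) : ZMod 2 :=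
  if a ≠ 0 ∧ b ≠ 0 ∧ c ≠ 0 ∧ a ≠ b ∧ a ≠ c ∧ b ≠ c then 1 else 0

theorem rb_eq : ∀ a b c d : Fin 4, rb a b c d = dr b c d + dr a c d + dr a b d + dr a b c := by
  decide

theorem rb_ne : ∀ a b c d : Fin 4, rb a b c d ≠ 0 → ∀ k : Fin 4, k = a ∨ k = b ∨ k = c ∨ k = d := by
  decide

/-- the indicator of a rainbow cell -/
def Dl (lab : V → Fin 4) : V → V → V → V → ZMod 2 := fun a b c d => rb (lab a) (lab b) (lab c) (lab d)

/-- the indicator of the triangles with the labels `1, 2, 3` -/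
def Bl (lab : V → Fin 4) : V → V → V → ZMod 2 := fun a b c => dr (lab a) (lab b) (lab c)

theorem Dl_eq (lab : V → Fin 4) : Dl lab = bd (Bl lab) := by
  funext a b c d
  exact rb_eq _ _ _ _

/-- a lattice point as a real vector -/
def rr (v : V) : Fin 3 → ℝ := fun i => (v i : ℝ)

theorem rr_add (v w : V) : rr (v + w) = rr v + rr w := by
  funext i
  simp [rr]

/-- the labels are compatible with the simplex -/
def Coh (g : Fin 4 → Fin 3 → ℝ) (lab : V → Fin 4) (C : ℝ) : Prop := ∀ v, -C ≤ g (lab v) ⬝ᵥ rr v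

section

variable (f : Fin 4 → V) (g : Fin 4 → Fin 3 → ℝ)

/-- a bound for the steps -/
noncomputable def Gam : ℝ := ∑ k, ∑ m, |g k ⬝ᵥ rr (f m)|

theorem Gam_nonneg : 0 ≤ Gam f g :=
  Finset.sum_nonneg fun _ _ => Finset.sum_nonneg fun _ _ => abs_nonneg _

theorem le_Gam (k m : Fin 4) : g k ⬝ᵥ rr (f m) ≤ Gam f g := by
  have h1 : |g k ⬝ᵥ rr (f m)| ≤ ∑ m, |g k ⬝ᵥ rr (f m)| :=
    Finset.single_le_sum (f := fun m => |g k ⬝ᵥ rr (f m)|) (fun _ _ => abs_nonneg _) (Finset.mem_univ m)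
  have h2 : ∑ m, |g k ⬝ᵥ rr (f m)| ≤ Gam f g :=
    Finset.single_le_sum (f := fun k => ∑ m, |g k ⬝ᵥ rr (f m)|)
      (fun _ _ => Finset.sum_nonneg fun _ _ => abs_nonneg _) (Finset.mem_univ k)
  exact (le_abs_self _).trans (h1.trans h2)

/-- the region of the rainbow cells -/
theorem region {lab : V → Fin 4} {C : ℝ} (hC : Coh g lab C) (i j k : Fin 4) (z : V)
    (h : T f (Dl lab) i j k z ≠ 0) (κ : Fin 4) : -C - 3 * Gam f g ≤ g κ ⬝ᵥ rr z := by
  have h0 := Gam_nonneg f g
  rcases rb_ne _ _ _ _ h κ with h1 | h1 | h1 | h1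
  · have h2 := hC z
    rw [← h1] at h2
    linarith
  · have h2 := hC (z + f i)
    rw [← h1, rr_add, dotProduct_add] at h2
    have := le_Gam f g κ i
    linarith
  · have h2 := hC (z + f i + f j)
    rw [← h1, rr_add, rr_add, dotProduct_add, dotProduct_add] at h2
    have := le_Gam f g κ i
    have := le_Gam f g κ j
    linarith
  · have h2 := hC (z + f i + f j + f k)
    rw [← h1, rr_add, rr_add, rr_add, dotProduct_add, dotProduct_add, dotProduct_add] at h2
    have := le_Gam f g κ i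
    have := le_Gam f g κ j
    have := le_Gam f g κ k
    linarith

theorem regionK {lab : V → Fin 4} {C : ℝ} (hC : Coh g lab C) (z : V) (h : Ks f (Dl lab) z ≠ 0) (κ : Fin 4) :
    -C - 3 * Gam f g ≤ g κ ⬝ᵥ rr z := by
  by_contra hcon
  have h1 : ∀ i j k, T f (Dl lab) i j k z = 0 := fun i j k => by
    by_contra h2
    exact hcon (region f g hC i j k z h2 κ)
  apply h
  unfold Ks
  simp only [h1, add_zero]

/-- lattice points in a box -/
theorem box_finite (R : ℝ) : {z : V | ∀ k, |(z k : ℝ)| ≤ R}.Finite := by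
  refine (Set.finite_Icc (fun _ : Fin 3 => -⌈R⌉) (fun _ : Fin 3 => ⌈R⌉)).subset ?_
  intro z hz
  refine ⟨fun k => ?_, fun k => ?_⟩
  · have h1 := (abs_le.1 (hz k)).1
    have h2 : -((⌈R⌉ : ℤ) : ℝ) ≤ (z k : ℝ) := by linarith [Int.le_ceil R]
    exact_mod_cast h2
  · have h1 := (abs_le.1 (hz k)).2
    have h2 : (z k : ℝ) ≤ ((⌈R⌉ : ℤ) : ℝ) := by linarith [Int.le_ceil R]
    exact_mod_cast h2

variable {f g}

/-- **The rainbow cells are in a bounded region.** -/
theorem bounded (hg : ∑ j, g j = 0) (hspan : ∀ m : Fin 3 → ℝ, ∃ c : Fin 4 → ℝ, ∑ k, c k • g k = m) (C : ℝ) :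
    ∃ R : ℝ, 0 ≤ R ∧ ∀ lab : V → Fin 4, Coh g lab C → ∀ z, Ks f (Dl lab) z ≠ 0 → ∀ k, |(z k : ℝ)| ≤ R := by
  obtain ⟨A, hA, hctrl⟩ := Pool.Agent.Helper21.TET.exists_ctrl g hg hspan
  obtain ⟨c, hc⟩ : ∃ c : ℝ, c = |C| + 3 * Gam f g := ⟨_, rfl⟩
  have hc0 : 0 ≤ c := by
    rw [hc]
    have := Gam_nonneg f g
    positivity
  refine ⟨A * (3 * c), by positivity, fun lab hlab z hz k => ?_⟩
  have h1 : ∀ κ, -c ≤ g κ ⬝ᵥ rr z := fun κ => by
    have := regionK f g hlab z hz κ
    have := le_abs_self C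
    linarith
  have h2 : ∑ κ, g κ ⬝ᵥ rr z = 0 := by rw [← sum_dotProduct, hg, zero_dotProduct]
  refine hctrl (rr z) (3 * c) (fun j => ?_) k
  rw [Fin.sum_univ_four] at h2
  have e0 := h1 0
  have e1 := h1 1
  have e2 := h1 2
  have e3 := h1 3
  fin_cases j
  · show g 0 ⬝ᵥ rr z ≤ 3 * c
    linarith
  · show g 1 ⬝ᵥ rr z ≤ 3 * c
    linarith
  · show g 2 ⬝ᵥ rr z ≤ 3 * c
    linarith
  · show g 3 ⬝ᵥ rr z ≤ 3 * c
    linarith

theorem supp (hg : ∑ j, g j = 0) (hspan : ∀ m : Fin 3 → ℝ, ∃ c : Fin 4 → ℝ, ∑ k, c k • g k = m) {C : ℝ}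
    {lab : V → Fin 4} (hlab : Coh g lab C) : (Function.support (Ks f (Dl lab))).Finite := by
  obtain ⟨R, -, hR⟩ := bounded (f := f) hg hspan C
  exact (box_finite R).subset fun z hz => hR lab hlab z hz

/-- **Invariance.** -/
theorem N_coh (hg : ∑ j, g j = 0) (hspan : ∀ m : Fin 3 → ℝ, ∃ c : Fin 4 → ℝ, ∑ k, c k • g k = m) {C C' : ℝ}
    {lab lab' : V → Fin 4} (hlab : Coh g lab C) (hlab' : Coh g lab' C') : N f (Dl lab) = N f (Dl lab') := by
  classical
  obtain ⟨B, hB⟩ : ∃ B : ℝ, B = max C C' := ⟨_, rfl⟩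
  have hlabB : Coh g lab B := fun v => by
    have := hlab v
    have : C ≤ B := by rw [hB]; exact le_max_left _ _
    linarith
  have hlabB' : Coh g lab' B := fun v => by
    have := hlab' v
    have : C' ≤ B := by rw [hB]; exact le_max_right _ _
    linarith
  obtain ⟨R, hR0, hR⟩ := bounded (f := f) hg hspan B
  obtain ⟨d, hd⟩ : ∃ d : ℝ, d = ∑ m, ∑ k, |(f m k : ℝ)| := ⟨_, rfl⟩
  have hdm : ∀ m k, |(f m k : ℝ)| ≤ d := fun m k => by
    have h1 : |(f m k : ℝ)| ≤ ∑ k, |(f m k : ℝ)| :=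
      Finset.single_le_sum (f := fun k => |(f m k : ℝ)|) (fun _ _ => abs_nonneg _) (Finset.mem_univ k)
    have h2 : ∑ k, |(f m k : ℝ)| ≤ ∑ m, ∑ k, |(f m k : ℝ)| :=
      Finset.single_le_sum (f := fun m => ∑ k, |(f m k : ℝ)|)
        (fun _ _ => Finset.sum_nonneg fun _ _ => abs_nonneg _) (Finset.mem_univ m)
    rw [hd]
    exact h1.trans h2
  obtain ⟨W, hW⟩ : ∃ W : Set V, W = {z : V | ∀ k, |(z k : ℝ)| ≤ R + 3 * d} := ⟨_, rfl⟩
  have hWf : W.Finite := by rw [hW]; exact box_finite _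
  obtain ⟨mix, hmix⟩ : ∃ mix : V → Fin 4, mix = fun v => if v ∈ W then lab' v else lab v := ⟨_, rfl⟩
  have hmixc : Coh g mix B := fun v => by
    rw [hmix]
    by_cases h : v ∈ W
    · simp only [if_pos h]
      exact hlabB' v
    · simp only [if_neg h]
      exact hlabB v
  have h1 : N f (Dl lab) = N f (Dl mix) := by
    rw [Dl_eq, Dl_eq]
    refine N_change f _ _ W hWf (fun a b c ha hb hc => ?_) ?_ ?_
    · unfold Bl
      rw [hmix]
      simp only [if_neg ha, if_neg hb, if_neg hc]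
    · rw [← Dl_eq]
      exact supp hg hspan hlabB
    · rw [← Dl_eq]
      exact supp hg hspan hmixc
  rw [h1]
  unfold N
  refine finsum_congr fun z => ?_
  by_cases hz : ∀ k, |(z k : ℝ)| ≤ R
  · have hd0 : 0 ≤ d := (abs_nonneg _).trans (hdm 0 0)
    have m0 : z ∈ W := by
      rw [hW]
      intro k
      have := hz k
      linarith
    have m1 : ∀ i, z + f i ∈ W := fun i => by
      rw [hW]
      intro k
      have h2 : ((z + f i) k : ℤ) = z k + f i k := rfl
      rw [h2]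
      push_cast
      have h3 := abs_add_le (z k : ℝ) (f i k)
      have := hz k
      have := hdm i k
      linarith
    have m2 : ∀ i j, z + f i + f j ∈ W := fun i j => by
      rw [hW]
      intro k
      have h2 : ((z + f i + f j) k : ℤ) = z k + f i k + f j k := rfl
      rw [h2]
      push_cast
      have h3 := abs_add_le ((z k : ℝ) + f i k) (f j k)
      have h4 := abs_add_le (z k : ℝ) (f i k)
      have := hz k
      have := hdm i k
      have := hdm j k
      linarith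
    have m3 : ∀ i j l, z + f i + f j + f l ∈ W := fun i j l => by
      rw [hW]
      intro k
      have h2 : ((z + f i + f j + f l) k : ℤ) = z k + f i k + f j k + f l k := rfl
      rw [h2]
      push_cast
      have h3 := abs_add_le ((z k : ℝ) + f i k + f j k) (f l k)
      have h5 := abs_add_le ((z k : ℝ) + f i k) (f j k)
      have h4 := abs_add_le (z k : ℝ) (f i k)
      have := hz k
      have := hdm i k
      have := hdm j k
      have := hdm l k
      linarith
    have hT : ∀ i j k, T f (Dl mix) i j k z = T f (Dl lab') i j k z := fun i j k => by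
      unfold T Dl
      rw [hmix]
      simp only [if_pos m0, if_pos (m1 i), if_pos (m2 i j), if_pos (m3 i j k)]
    unfold Ks
    simp only [hT]
  · have e1 : Ks f (Dl mix) z = 0 := by
      by_contra h
      exact hz (hR mix hmixc z h)
    have e2 : Ks f (Dl lab') z = 0 := by
      by_contra h
      exact hz (hR lab' hlabB' z h)
    rw [e1, e2]

end

end Pool.Agent.Helper20.PS
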