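import Mathlib

/-!
# Parity of the number of cells in the triangulation of a superbase

The cells are the chains `z, z + f i, z + f i + f j, z + f i + f j + f k`; a function `D` of four lattice points with
values modulo two is summed over all cells.
-/

set_option autoImplicit false

namespace Pool.Agent.Helper20.PS

/-- lattice points -/
abbrev V := Fin 3 → ℤ

/-- the value at the chain with the steps `i, j, k` -/
def T (f : Fin 4 → V) (D : V → V → V → V → ZMod 2) (i j k : Fin 4) (z : V) : ZMod 2 :=
  D z (z + f i) (z + f i + f j) (z + f i + f j + f k)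

/-- the cells in the parallelepiped at `z` -/
def Ks (f : Fin 4 → V) (D : V → V → V → V → ZMod 2) (z : V) : ZMod 2 :=
  T f D 0 1 2 z + T f D 0 2 1 z + T f D 1 0 2 z + T f D 1 2 0 z + T f D 2 0 1 z + T f D 2 1 0 z

/-- the sum over all cells -/
noncomputable def N (f : Fin 4 → V) (D : V → V → V → V → ZMod 2) : ZMod 2 := ∑ᶠ z, Ks f D z

/-- the boundary of a function of triangles -/
def bd (β : V → V → V → ZMod 2) (a b c d : V) : ZMod 2 := β b c d + β a c d + β a b d + β a b c

/-- the two triangles in the parallelogram spanned by `f i`, `f j` at `z` -/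
def Bs (f : Fin 4 → V) (β : V → V → V → ZMod 2) (i j : Fin 4) (z : V) : ZMod 2 :=
  β z (z + f i) (z + f i + f j) + β z (z + f j) (z + f i + f j)

theorem two_zero (a : ZMod 2) : a + a = 0 := CharTwo.add_self_eq_zero a

/-- the boundary of the parallelepiped -/
theorem Ks_eq (f : Fin 4 → V) (β : V → V → V → ZMod 2) (z : V) :
    Ks f (bd β) z = (Bs f β 0 1 z + Bs f β 0 1 (z + f 2)) + (Bs f β 0 2 z + Bs f β 0 2 (z + f 1)) +
      (Bs f β 1 2 z + Bs f β 1 2 (z + f 0)) := by
  unfold Ks T Bs bd
  have e10 : z + f 1 + f 0 = z + f 0 + f 1 := by abel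
  have e20 : z + f 2 + f 0 = z + f 0 + f 2 := by abel
  have e21 : z + f 2 + f 1 = z + f 1 + f 2 := by abel
  have e021 : z + f 0 + f 2 + f 1 = z + f 0 + f 1 + f 2 := by abel
  have e120 : z + f 1 + f 2 + f 0 = z + f 0 + f 1 + f 2 := by abel
  simp only [e10, e20, e21, e021, e120]
  generalize z + f 0 + f 1 + f 2 = a012
  generalize z + f 0 + f 1 = a01
  generalize z + f 0 + f 2 = a02
  generalize z + f 1 + f 2 = a12
  generalize z + f 0 = a0
  generalize z + f 1 = a1
  generalize z + f 2 = a2
  have h1 := two_zero (β z a01 a012)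
  have h2 := two_zero (β z a02 a012)
  have h3 := two_zero (β z a12 a012)
  have h4 := two_zero (β z a0 a012)
  have h5 := two_zero (β z a1 a012)
  have h6 := two_zero (β z a2 a012)
  linear_combination h1 + h2 + h3 + h4 + h5 + h6

theorem support_shift {h : V → ZMod 2} (hs : h.support.Finite) (a : V) :
    (Function.support fun z => h (z + a)).Finite := by
  have : (Function.support fun z => h (z + a)) = (fun z => z + a) ⁻¹' h.support := rfl
  rw [this]
  exact hs.preimage (fun x _ y _ hxy => add_right_cancel hxy)

theorem finsum_shift (h : V → ZMod 2) (a : V) : ∑ᶠ z, h (z + a) = ∑ᶠ z, h z :=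
  finsum_comp_equiv (Equiv.addRight a) (f := h)

theorem finsum_shift_add (h : V → ZMod 2) (a : V) (hs : h.support.Finite) :
    ∑ᶠ z, (h z + h (z + a)) = 0 := by
  rw [finsum_add_distrib hs (support_shift hs a), finsum_shift, two_zero]

/-- **Finite changes.**  Two functions of triangles which differ only at triangles meeting a finite set have the same
number of boundary cells. -/
theorem N_change (f : Fin 4 → V) (β β' : V → V → V → ZMod 2) (S : Set V) (hS : S.Finite)
    (hβ : ∀ a b c, a ∉ S → b ∉ S → c ∉ S → β a b c = β' a b c)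
    (hs : (Function.support (Ks f (bd β))).Finite) (hs' : (Function.support (Ks f (bd β'))).Finite) :
    N f (bd β) = N f (bd β') := by
  have hB : ∀ i j : Fin 4, (Function.support fun z => Bs f β i j z + Bs f β' i j z).Finite := by
    intro i j
    have hA : ∀ a : V, {z : V | z + a ∈ S}.Finite := fun a =>
      hS.preimage (f := fun z : V => z + a) (fun x _ y _ hxy => add_right_cancel hxy)
    refine ((((hA 0).union (hA (f i))).union (hA (f j))).union (hA (f i + f j))).subset ?_
    intro z hz
    by_contra hcon
    have h0 : z ∉ S := fun h => hcon (Or.inl (Or.inl (Or.inl (by rwa [Set.mem_ofPred_eq, add_zero]))))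
    have h1 : z + f i ∉ S := fun h => hcon (Or.inl (Or.inl (Or.inr h)))
    have h2 : z + f j ∉ S := fun h => hcon (Or.inl (Or.inr h))
    have h3 : z + f i + f j ∉ S := fun h => hcon (Or.inr (by rwa [Set.mem_ofPred_eq, ← add_assoc]))
    apply hz
    show Bs f β i j z + Bs f β' i j z = 0
    unfold Bs
    rw [hβ _ _ _ h0 h1 h3, hβ _ _ _ h0 h2 h3]
    exact two_zero _
  have h1 : N f (bd β) + N f (bd β') = 0 := by
    unfold N
    rw [← finsum_add_distrib hs hs']
    obtain ⟨E, hE⟩ : ∃ E : Fin 4 → Fin 4 → V → ZMod 2, E = fun i j z => Bs f β i j z + Bs f β' i j z :=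
      ⟨_, rfl⟩
    have hEs : ∀ i j, (E i j).support.Finite := fun i j => by rw [hE]; exact hB i j
    have h2 : ∀ z, Ks f (bd β) z + Ks f (bd β') z =
        (E 0 1 z + E 0 1 (z + f 2)) + (E 0 2 z + E 0 2 (z + f 1)) + (E 1 2 z + E 1 2 (z + f 0)) := by
      intro z
      rw [Ks_eq, Ks_eq, hE]
      simp only
      ring
    have hfs : ∀ (i j : Fin 4) (a : V), (Function.support fun z => E i j z + E i j (z + a)).Finite := by
      intro i j a
      exact ((hEs i j).union (support_shift (hEs i j) a)).subset (Function.support_add _ _)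
    rw [finsum_congr h2, finsum_add_distrib ?_ (hfs 1 2 (f 0)), finsum_add_distrib (hfs 0 1 (f 2)) (hfs 0 2 (f 1)),
      finsum_shift_add _ _ (hEs 0 1), finsum_shift_add _ _ (hEs 0 2), finsum_shift_add _ _ (hEs 1 2), add_zero,
      add_zero]
    exact ((hfs 0 1 (f 2)).union (hfs 0 2 (f 1))).subset (Function.support_add _ _)
  have h2 := two_zero (N f (bd β'))
  linear_combination h1 - h2

end Pool.Agent.Helper20.PS
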