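import Pool.Agent.Helper20.PS.Parity

/-!
# Counting the rainbow cells by flags
-/

set_option autoImplicit false

namespace Pool.Agent.Helper20.PS

open Matrix
open Pool.Agent.Helper22.Sym (Superb)

/-- the first label is `0`, the others are `1, 2, 3` -/
def fl (a b c d : Fin 4) : ZMod 2 := if a = 0 then dr b c d else 0

theorem rb_fl : ∀ a b c d : Fin 4, rb a b c d = fl a b c d + fl b c d a + fl c d a b + fl d a b c := by
  decide

theorem fl_rb : ∀ a b c d : Fin 4, fl a b c d ≠ 0 → rb a b c d ≠ 0 := by decide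

/-- the flags with the steps `i, j, k` -/
def Fl (f : Fin 4 → V) (lab : V → Fin 4) (i j k : Fin 4) (z : V) : ZMod 2 :=
  fl (lab z) (lab (z + f i)) (lab (z + f i + f j)) (lab (z + f i + f j + f k))

/-- the number of flags modulo two -/
noncomputable def NF (f : Fin 4 → V) (lab : V → Fin 4) : ZMod 2 :=
  ∑ σ : Equiv.Perm (Fin 4), ∑ᶠ z, Fl f lab (σ 0) (σ 1) (σ 2) z

section

variable {f : Fin 4 → V} {g : Fin 4 → Fin 3 → ℝ}

/-- the support for one order -/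
theorem suppT (hg : ∑ j, g j = 0) (hspan : ∀ m : Fin 3 → ℝ, ∃ c : Fin 4 → ℝ, ∑ k, c k • g k = m) {C : ℝ}
    {lab : V → Fin 4} (hlab : Coh g lab C) (i j k : Fin 4) : (Function.support (T f (Dl lab) i j k)).Finite := by
  obtain ⟨A, hA, hctrl⟩ := Pool.Agent.Helper21.TET.exists_ctrl g hg hspan
  obtain ⟨c, hc⟩ : ∃ c : ℝ, c = |C| + 3 * Gam f g := ⟨_, rfl⟩
  refine (box_finite (A * (3 * c))).subset fun z hz => ?_
  intro κ
  have h1 : ∀ κ, -c ≤ g κ ⬝ᵥ rr z := fun κ => by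
    have := region f g hlab i j k z hz κ
    have := le_abs_self C
    linarith
  have h2 : ∑ κ, g κ ⬝ᵥ rr z = 0 := by rw [← sum_dotProduct, hg, zero_dotProduct]
  refine hctrl (rr z) (3 * c) (fun j => ?_) κ
  rw [Fin.sum_univ_four] at h2
  have e0 := h1 0
  have e1 := h1 1
  have e2 := h1 2
  have e3 := h1 3
  fin_cases j
  · show g 0 ⬝ᵥ rr z ≤ 3 * c
    linarith
  · show g 1 ⬝ᵥ rr z ≤ 3 * c
    linarith
  · show g 2 ⬝ᵥ rr z ≤ 3 * c
    linarith
  · show g 3 ⬝ᵥ rr z ≤ 3 * c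
    linarith

end

/-- the triples of different indices -/
theorem perm_image : (Finset.univ : Finset (Equiv.Perm (Fin 4))).image (fun σ => (σ 0, σ 1, σ 2)) =
    Finset.univ.filter fun p : Fin 4 × Fin 4 × Fin 4 => p.1 ≠ p.2.1 ∧ p.1 ≠ p.2.2 ∧ p.2.1 ≠ p.2.2 := by
  decide +kernel

theorem perm_inj : ∀ σ τ : Equiv.Perm (Fin 4), (σ 0, σ 1, σ 2) = (τ 0, τ 1, τ 2) → σ = τ := by
  decide +kernel

theorem sum_perm (S : Fin 4 → Fin 4 → Fin 4 → ZMod 2) :
    ∑ σ : Equiv.Perm (Fin 4), S (σ 0) (σ 1) (σ 2) =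
      ∑ p ∈ (Finset.univ.filter fun p : Fin 4 × Fin 4 × Fin 4 => p.1 ≠ p.2.1 ∧ p.1 ≠ p.2.2 ∧ p.2.1 ≠ p.2.2),
        S p.1 p.2.1 p.2.2 := by
  rw [← perm_image, Finset.sum_image (f := fun p : Fin 4 × Fin 4 × Fin 4 => S p.1 p.2.1 p.2.2)
    (fun σ _ τ _ h => perm_inj σ τ h)]

theorem filter_eq : (Finset.univ.filter fun p : Fin 4 × Fin 4 × Fin 4 => p.1 ≠ p.2.1 ∧ p.1 ≠ p.2.2 ∧ p.2.1 ≠ p.2.2) =
    {(0, 1, 2), (1, 2, 3), (2, 3, 0), (3, 0, 1), (0, 2, 1), (2, 1, 3), (1, 3, 0), (3, 0, 2),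
     (1, 0, 2), (0, 2, 3), (2, 3, 1), (3, 1, 0), (1, 2, 0), (2, 0, 3), (0, 3, 1), (3, 1, 2),
     (2, 0, 1), (0, 1, 3), (1, 3, 2), (3, 2, 0), (2, 1, 0), (1, 0, 3), (0, 3, 2), (3, 2, 1)} := by
  decide +kernel

/-- **The two ways of counting agree.** -/
theorem NF_eq {f : Fin 4 → V} (hf : ∑ l, f l = 0) {lab : V → Fin 4}
    (hs : ∀ i j k, (Function.support (T f (Dl lab) i j k)).Finite) : NF f lab = N f (Dl lab) := by
  have hFs : ∀ i j k, (Function.support (Fl f lab i j k)).Finite := fun i j k =>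
    (hs i j k).subset fun z hz => fl_rb _ _ _ _ hz
  obtain ⟨S, hS⟩ : ∃ S : Fin 4 → Fin 4 → Fin 4 → ZMod 2, S = fun i j k => ∑ᶠ z, Fl f lab i j k z := ⟨_, rfl⟩
  have hsum : f 0 + f 1 + f 2 + f 3 = 0 := by rw [← hf, Fin.sum_univ_four]
  have hone : ∀ i j k l : Fin 4, f i + f j + f k + f l = 0 →
      ∑ᶠ z, T f (Dl lab) i j k z = S i j k + S j k l + S k l i + S l i j := by
    intro i j k l hl
    have h1 : ∀ z, T f (Dl lab) i j k z = Fl f lab i j k z + Fl f lab j k l (z + f i) +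
        Fl f lab k l i (z + (f i + f j)) + Fl f lab l i j (z + (f i + f j + f k)) := by
      intro z
      have e1 : z + f i + f j + f k + f l = z := by
        have : z + f i + f j + f k + f l = z + (f i + f j + f k + f l) := by abel
        rw [this, hl, add_zero]
      have e2 : z + (f i + f j) = z + f i + f j := by abel
      have e3 : z + (f i + f j + f k) = z + f i + f j + f k := by abel
      unfold T Dl Fl
      rw [e2, e3, rb_fl, e1]
    rw [finsum_congr h1]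
    have s1 := support_shift (hFs j k l) (f i)
    have s2 := support_shift (hFs k l i) (f i + f j)
    have s3 := support_shift (hFs l i j) (f i + f j + f k)
    have s01 : (Function.support fun z => Fl f lab i j k z + Fl f lab j k l (z + f i)).Finite :=
      ((hFs i j k).union s1).subset (Function.support_add _ _)
    have s012 : (Function.support fun z => Fl f lab i j k z + Fl f lab j k l (z + f i) +
        Fl f lab k l i (z + (f i + f j))).Finite := (s01.union s2).subset (Function.support_add _ _)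
    rw [finsum_add_distrib s012 s3, finsum_add_distrib s01 s2, finsum_add_distrib (hFs i j k) s1,
      finsum_shift, finsum_shift, finsum_shift, hS]
  have a01 : (Function.support fun z => T f (Dl lab) 0 1 2 z + T f (Dl lab) 0 2 1 z).Finite :=
    ((hs 0 1 2).union (hs 0 2 1)).subset (Function.support_add _ _)
  have a02 : (Function.support fun z => T f (Dl lab) 0 1 2 z + T f (Dl lab) 0 2 1 z +
      T f (Dl lab) 1 0 2 z).Finite := (a01.union (hs 1 0 2)).subset (Function.support_add _ _)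
  have a03 : (Function.support fun z => T f (Dl lab) 0 1 2 z + T f (Dl lab) 0 2 1 z +
      T f (Dl lab) 1 0 2 z + T f (Dl lab) 1 2 0 z).Finite := (a02.union (hs 1 2 0)).subset (Function.support_add _ _)
  have a04 : (Function.support fun z => T f (Dl lab) 0 1 2 z + T f (Dl lab) 0 2 1 z +
      T f (Dl lab) 1 0 2 z + T f (Dl lab) 1 2 0 z + T f (Dl lab) 2 0 1 z).Finite :=
    (a03.union (hs 2 0 1)).subset (Function.support_add _ _)
  have h2 : N f (Dl lab) = ∑ᶠ z, T f (Dl lab) 0 1 2 z + ∑ᶠ z, T f (Dl lab) 0 2 1 z + ∑ᶠ z, T f (Dl lab) 1 0 2 z +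
      ∑ᶠ z, T f (Dl lab) 1 2 0 z + ∑ᶠ z, T f (Dl lab) 2 0 1 z + ∑ᶠ z, T f (Dl lab) 2 1 0 z := by
    unfold N Ks
    rw [finsum_add_distrib a04 (hs 2 1 0), finsum_add_distrib a03 (hs 2 0 1), finsum_add_distrib a02 (hs 1 2 0),
      finsum_add_distrib a01 (hs 1 0 2), finsum_add_distrib (hs 0 1 2) (hs 0 2 1)]
  have e021 : f 0 + f 2 + f 1 + f 3 = 0 := by rw [← hsum]; abel
  have e102 : f 1 + f 0 + f 2 + f 3 = 0 := by rw [← hsum]; abel
  have e120 : f 1 + f 2 + f 0 + f 3 = 0 := by rw [← hsum]; abel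
  have e201 : f 2 + f 0 + f 1 + f 3 = 0 := by rw [← hsum]; abel
  have e210 : f 2 + f 1 + f 0 + f 3 = 0 := by rw [← hsum]; abel
  rw [h2, hone 0 1 2 3 hsum, hone 0 2 1 3 e021, hone 1 0 2 3 e102, hone 1 2 0 3 e120, hone 2 0 1 3 e201,
    hone 2 1 0 3 e210]
  have h3 : NF f lab = ∑ σ : Equiv.Perm (Fin 4), S (σ 0) (σ 1) (σ 2) := by
    unfold NF
    rw [hS]
  rw [h3, sum_perm, filter_eq]
  repeat rw [Finset.sum_insert (by decide)]
  rw [Finset.sum_singleton]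
  ring

/-- **Parity, by flags.** -/
theorem parityF {f : Fin 4 → V} {u : Fin 4 → V} (h : Superb f u) {g : Fin 4 → Fin 3 → ℝ} (hg : ∑ j, g j = 0)
    (hspan : ∀ m : Fin 3 → ℝ, ∃ c : Fin 4 → ℝ, ∑ k, c k • g k = m) {lab : V → Fin 4} {C : ℝ}
    (hlab : Coh g lab C) : NF f lab = 1 := by
  rw [NF_eq h.1 fun i j k => suppT hg hspan hlab i j k]
  exact parity h hg hspan hlab

/-! ### Five labels -/

/-- merge the labels `0` and `4` -/
def mg (l : Fin 5) : Fin 4 := if l = 4 then 0 else if l = 1 then 1 else if l = 2 then 2 else if l = 3 then 3 else 0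

/-- the first label is `0`, the others are `1, 2, 3` -/
def F4 (l0 l1 l2 l3 : Fin 5) : ZMod 2 :=
  if l0 = 0 ∧ l1 ≠ 0 ∧ l1 ≠ 4 ∧ l2 ≠ 0 ∧ l2 ≠ 4 ∧ l3 ≠ 0 ∧ l3 ≠ 4 ∧ l1 ≠ l2 ∧ l1 ≠ l3 ∧ l2 ≠ l3 then 1 else 0

theorem F4_merge : ∀ a b c d : Fin 5, fl (mg a) (mg b) (mg c) (mg d) =
    F4 a b c d + F4 (Equiv.swap 0 4 a) (Equiv.swap 0 4 b) (Equiv.swap 0 4 c) (Equiv.swap 0 4 d) := by
  decide +kernel

/-- the number of flags of the type `{0, 1, 2, 3}` modulo two -/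
noncomputable def N5 (lab : V → Fin 5) (f : Fin 4 → V) : ZMod 2 :=
  ∑ σ : Equiv.Perm (Fin 4), ∑ᶠ z, F4 (lab z) (lab (z + f (σ 0))) (lab (z + f (σ 0) + f (σ 1)))
    (lab (z + f (σ 0) + f (σ 1) + f (σ 2)))

theorem F4_le : ∀ a b c d : Fin 5, F4 a b c d ≠ 0 → fl (mg a) (mg b) (mg c) (mg d) ≠ 0 := by decide +kernel

theorem F4_le' : ∀ a b c d : Fin 5,
    F4 (Equiv.swap 0 4 a) (Equiv.swap 0 4 b) (Equiv.swap 0 4 c) (Equiv.swap 0 4 d) ≠ 0 →
    fl (mg a) (mg b) (mg c) (mg d) ≠ 0 := by decide +kernel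

/-- **Parity for five labels.** -/
theorem parity5 {f : Fin 4 → V} {u : Fin 4 → V} (h : Superb f u) {g : Fin 4 → Fin 3 → ℝ} (hg : ∑ j, g j = 0)
    (hspan : ∀ m : Fin 3 → ℝ, ∃ c : Fin 4 → ℝ, ∑ k, c k • g k = m) {lab : V → Fin 5} {C : ℝ}
    (hlab : Coh g (fun v => mg (lab v)) C) : N5 lab f + N5 (fun v => Equiv.swap 0 4 (lab v)) f = 1 := by
  have h1 := parityF h hg hspan hlab
  rw [← h1]
  unfold N5 NF
  rw [← Finset.sum_add_distrib]
  refine Finset.sum_congr rfl fun σ _ => ?_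
  have hs : (Function.support (Fl f (fun v => mg (lab v)) (σ 0) (σ 1) (σ 2))).Finite :=
    (suppT (f := f) hg hspan hlab (σ 0) (σ 1) (σ 2)).subset fun z hz => fl_rb _ _ _ _ hz
  rw [← finsum_add_distrib]
  · exact finsum_congr fun z => (F4_merge _ _ _ _).symm
  · exact hs.subset fun z hz => F4_le _ _ _ _ hz
  · exact hs.subset fun z hz => F4_le' _ _ _ _ hz

end Pool.Agent.Helper20.PS
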