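import Pool.Agent.Helper20.PS.Coh

/-!
# The parity does not depend on the simplex
-/

set_option autoImplicit false

namespace Pool.Agent.Helper20.PS

open Matrix

/-- the determinant of three rows -/
noncomputable def dt (B : Fin 3 → Fin 3 → ℝ) : ℝ := (Matrix.of B).det

/-- four vectors with sum zero from three rows -/
def gB (B : Fin 3 → Fin 3 → ℝ) : Fin 4 → Fin 3 → ℝ := Fin.cons (-∑ i, B i) B

theorem gB_zero (B : Fin 3 → Fin 3 → ℝ) : gB B 0 = -∑ i, B i := rfl

theorem gB_succ (B : Fin 3 → Fin 3 → ℝ) (i : Fin 3) : gB B i.succ = B i := rfl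

theorem gB_sum (B : Fin 3 → Fin 3 → ℝ) : ∑ j, gB B j = 0 := by
  rw [Fin.sum_univ_succ, gB_zero]
  simp only [gB_succ]
  exact neg_add_cancel _

theorem gB_span {B : Fin 3 → Fin 3 → ℝ} (hB : dt B ≠ 0) (m : Fin 3 → ℝ) :
    ∃ c : Fin 4 → ℝ, ∑ k, c k • gB B k = m := by
  refine ⟨Fin.cons 0 (m ᵥ* (Matrix.of B)⁻¹), ?_⟩
  rw [Fin.sum_univ_succ]
  simp only [gB_succ, Fin.cons_zero, Fin.cons_succ, zero_smul, zero_add]
  have h1 : (m ᵥ* (Matrix.of B)⁻¹) ᵥ* (Matrix.of B) = m := by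
    rw [vecMul_vecMul, Matrix.nonsing_inv_mul _ (isUnit_iff_ne_zero.2 hB), vecMul_one]
  conv_rhs => rw [← h1]
  funext j
  rw [Finset.sum_apply]
  simp only [Pi.smul_apply, smul_eq_mul]
  rfl

/-- the label of the largest value -/
noncomputable def am (B : Fin 3 → Fin 3 → ℝ) (v : V) : Fin 4 :=
  (Finite.exists_max fun k => gB B k ⬝ᵥ rr v).choose

theorem am_spec (B : Fin 3 → Fin 3 → ℝ) (v : V) (k : Fin 4) :
    gB B k ⬝ᵥ rr v ≤ gB B (am B v) ⬝ᵥ rr v :=
  (Finite.exists_max fun k => gB B k ⬝ᵥ rr v).choose_spec k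

theorem am_growth {B : Fin 3 → Fin 3 → ℝ} (hB : dt B ≠ 0) :
    ∃ c : ℝ, 0 < c ∧ ∀ v, ∀ i, c * |(v i : ℝ)| ≤ gB B (am B v) ⬝ᵥ rr v := by
  obtain ⟨A, hA, hctrl⟩ := Pool.Agent.Helper21.TET.exists_ctrl (gB B) (gB_sum B) (gB_span hB)
  refine ⟨A⁻¹, inv_pos.2 hA, fun v i => ?_⟩
  have h1 := hctrl (rr v) _ (am_spec B v) i
  rw [inv_mul_le_iff₀ hA]
  exact h1

theorem am_coh {B : Fin 3 → Fin 3 → ℝ} (hB : dt B ≠ 0) : Coh (gB B) (am B) 0 := by
  obtain ⟨c, hc, h⟩ := am_growth hB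
  intro v
  have h1 := h v 0
  have h2 := mul_nonneg hc.le (abs_nonneg (v 0 : ℝ))
  linarith

section

variable (f : Fin 4 → V)

/-- the parity for three rows -/
noncomputable def val (B : Fin 3 → Fin 3 → ℝ) : ZMod 2 := N f (Dl (am B))

theorem val_eq {B : Fin 3 → Fin 3 → ℝ} (hB : dt B ≠ 0) {lab : V → Fin 4} {C : ℝ}
    (h : Coh (gB B) lab C) : N f (Dl lab) = val f B :=
  N_coh (gB_sum B) (gB_span hB) h (am_coh hB)

theorem gB_diff (B B' : Fin 3 → Fin 3 → ℝ) {ε : ℝ} (hε : 0 ≤ ε)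
    (h : ∀ i j, |B' i j - B i j| ≤ ε) (v : V) {M : ℝ} (hM : ∀ i, |(v i : ℝ)| ≤ M) (k : Fin 4) :
    gB B k ⬝ᵥ rr v - 9 * ε * M ≤ gB B' k ⬝ᵥ rr v := by
  have hM0 : 0 ≤ M := (abs_nonneg _).trans (hM 0)
  have h1 : ∀ i j, |(B' i j - B i j) * (v j : ℝ)| ≤ ε * M := fun i j => by
    rw [abs_mul]
    exact mul_le_mul (h i j) (hM j) (abs_nonneg _) hε
  have h2 : ∀ i, B' i ⬝ᵥ rr v - B i ⬝ᵥ rr v = ∑ j, (B' i j - B i j) * (v j : ℝ) := fun i => by
    unfold dotProduct rr
    rw [← Finset.sum_sub_distrib]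
    exact Finset.sum_congr rfl fun j _ => by ring
  have h3 : ∀ i, |B' i ⬝ᵥ rr v - B i ⬝ᵥ rr v| ≤ 3 * (ε * M) := fun i => by
    rw [h2, Fin.sum_univ_three]
    have a0 := h1 i 0
    have a1 := h1 i 1
    have a2 := h1 i 2
    have b1 := abs_add_le ((B' i 0 - B i 0) * (v 0 : ℝ) + (B' i 1 - B i 1) * (v 1 : ℝ))
      ((B' i 2 - B i 2) * (v 2 : ℝ))
    have b2 := abs_add_le ((B' i 0 - B i 0) * (v 0 : ℝ)) ((B' i 1 - B i 1) * (v 1 : ℝ))
    linarith
  have hEM : 0 ≤ ε * M := mul_nonneg hε hM0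
  rcases Fin.eq_zero_or_eq_succ k with rfl | ⟨i, rfl⟩
  · rw [gB_zero, gB_zero, neg_dotProduct, neg_dotProduct, sum_dotProduct, sum_dotProduct, Fin.sum_univ_three,
      Fin.sum_univ_three]
    have c0 := (abs_le.1 (h3 0)).2
    have c1 := (abs_le.1 (h3 1)).2
    have c2 := (abs_le.1 (h3 2)).2
    linarith
  · rw [gB_succ, gB_succ]
    have c0 := (abs_le.1 (h3 i)).1
    linarith

/-- the parity is locally constant -/
theorem val_loc {B : Fin 3 → Fin 3 → ℝ} (hB : dt B ≠ 0) :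
    ∃ ε : ℝ, 0 < ε ∧ ∀ B' : Fin 3 → Fin 3 → ℝ, dt B' ≠ 0 → (∀ i j, |B' i j - B i j| ≤ ε) →
      val f B' = val f B := by
  obtain ⟨c, hc, hgr⟩ := am_growth hB
  refine ⟨c / 9, by positivity, fun B' hB' h => ?_⟩
  refine (val_eq f hB' (lab := am B) (C := 0) fun v => ?_).symm
  obtain ⟨i, hi⟩ := Finite.exists_max fun i => |(v i : ℝ)|
  have h1 := gB_diff B B' (ε := c / 9) (by positivity) h v hi (am B v)
  have h2 := hgr v i
  have h3 : 9 * (c / 9) * |(v i : ℝ)| = c * |(v i : ℝ)| := by ring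
  rw [h3] at h1
  linarith

/-- **Paths.** -/
theorem val_path (γ : ℝ → Fin 3 → Fin 3 → ℝ) (hγ : ∀ i j, Continuous fun s => γ s i j)
    (hdet : ∀ s, dt (γ s) ≠ 0) (s t : ℝ) : val f (γ s) = val f (γ t) := by
  have hloc : IsLocallyConstant fun s => val f (γ s) := by
    rw [IsLocallyConstant.iff_eventually_eq]
    intro s
    obtain ⟨ε, hε, h⟩ := val_loc f (hdet s)
    have h1 : ∀ i j, ∀ᶠ y in nhds s, |γ y i j - γ s i j| ≤ ε := fun i j => by
      have h2 := (hγ i j).tendsto s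
      have h3 := h2.eventually (Metric.closedBall_mem_nhds (γ s i j) hε)
      exact h3.mono fun y hy => hy
    have h4 : ∀ᶠ y in nhds s, ∀ i j, |γ y i j - γ s i j| ≤ ε := by
      rw [Filter.eventually_all]
      intro i
      rw [Filter.eventually_all]
      intro j
      exact h1 i j
    exact h4.mono fun y hy => h (γ y) (hdet y) hy
  exact hloc.apply_eq_of_preconnectedSpace s t

/-- add a multiple of a row to another row -/
def addR (B : Fin 3 → Fin 3 → ℝ) (i j : Fin 3) (c : ℝ) : Fin 3 → Fin 3 → ℝ :=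
  fun a b => B a b + if a = i then c * B j b else 0

theorem addR_of (B : Fin 3 → Fin 3 → ℝ) (i j : Fin 3) (c : ℝ) :
    Matrix.of (addR B i j c) = transvection i j c * Matrix.of B := by
  ext a b
  unfold transvection
  rw [Matrix.add_mul, Matrix.one_mul, Matrix.add_apply]
  show B a b + (if a = i then c * B j b else 0) = B a b + _
  congr 1
  rw [Matrix.mul_apply]
  by_cases h : a = i
  · rw [if_pos h, h, Finset.sum_eq_single j]
    · simp
    · intro k _ hk
      simp [hk.symm]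
    · intro h
      exact absurd (Finset.mem_univ _) h
  · rw [if_neg h]
    symm
    refine Finset.sum_eq_zero fun k _ => ?_
    have : i ≠ a := fun h' => h h'.symm
    simp [this]

theorem dt_addR (B : Fin 3 → Fin 3 → ℝ) {i j : Fin 3} (hij : i ≠ j) (c : ℝ) : dt (addR B i j c) = dt B := by
  unfold dt
  rw [addR_of, Matrix.det_mul, Matrix.det_transvection_of_ne _ _ hij, one_mul]

theorem val_addR {B : Fin 3 → Fin 3 → ℝ} (hB : dt B ≠ 0) {i j : Fin 3} (hij : i ≠ j) (c : ℝ) :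
    val f (addR B i j c) = val f B := by
  have h1 := val_path f (fun s => addR B i j s) (fun a b => by
    unfold addR
    by_cases h : a = i
    · simp only [if_pos h]
      fun_prop
    · simp only [if_neg h]
      fun_prop) (fun s => by
    rw [dt_addR B hij]
    exact hB) c 0
  have h2 : addR B i j 0 = B := by
    funext a b
    unfold addR
    simp
  simp only [h2] at h1
  exact h1

/-- permutations of the rows -/
theorem val_perm {B : Fin 3 → Fin 3 → ℝ} (hB : dt B ≠ 0) (τ : Equiv.Perm (Fin 3)) :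
    dt (fun i => B (τ i)) ≠ 0 ∧ val f (fun i => B (τ i)) = val f B := by
  obtain ⟨B', hB'⟩ : ∃ B' : Fin 3 → Fin 3 → ℝ, B' = fun i => B (τ i) := ⟨_, rfl⟩
  rw [← hB']
  have hdet : dt B' ≠ 0 := by
    have h1 : Matrix.of B' = (Matrix.of B).submatrix τ id := by rw [hB']; rfl
    unfold dt
    rw [h1, Matrix.det_permute]
    refine mul_ne_zero ?_ hB
    rcases Int.units_eq_one_or (Equiv.Perm.sign τ) with h | h <;> rw [h] <;> simp
  refine ⟨hdet, ?_⟩
  obtain ⟨T', hT'⟩ : ∃ T' : Fin 4 → Fin 4, T' = Fin.cons 0 fun i => (τ.symm i).succ := ⟨_, rfl⟩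
  have hT0 : T' 0 = 0 := by rw [hT']; rfl
  have hTs : ∀ i : Fin 3, T' i.succ = (τ.symm i).succ := fun i => by rw [hT']; rfl
  have hg : ∀ k, gB B' (T' k) = gB B k := fun k => by
    rcases Fin.eq_zero_or_eq_succ k with rfl | ⟨i, rfl⟩
    · rw [hT0, gB_zero, gB_zero, hB']
      congr 1
      exact Equiv.sum_comp τ B
    · rw [hTs, gB_succ, gB_succ, hB']
      simp
  have hinj : Function.Injective T' := by
    intro a b hab
    rcases Fin.eq_zero_or_eq_succ a with rfl | ⟨i, rfl⟩ <;> rcases Fin.eq_zero_or_eq_succ b with rfl | ⟨j, rfl⟩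
    · rfl
    · rw [hT0, hTs] at hab
      exact absurd hab.symm (Fin.succ_ne_zero _)
    · rw [hT0, hTs] at hab
      exact absurd hab (Fin.succ_ne_zero _)
    · rw [hTs, hTs] at hab
      rw [τ.symm.injective (Fin.succ_injective _ hab)]
  have h1 : Coh (gB B') (fun v => T' (am B v)) 0 := fun v => by
    simp only
    rw [hg]
    exact am_coh hB v
  rw [← val_eq f hdet h1]
  unfold val
  congr 1
  funext a b c d
  unfold Dl rb
  simp only [ne_eq, hinj.eq_iff]

/-- change of signs of rows -/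
def sgR (S : Finset (Fin 3)) (B : Fin 3 → Fin 3 → ℝ) : Fin 3 → Fin 3 → ℝ :=
  fun a b => if a ∈ S then -B a b else B a b

theorem dt_sgR (S : Finset (Fin 3)) {B : Fin 3 → Fin 3 → ℝ} (hB : dt B ≠ 0) : dt (sgR S B) ≠ 0 := by
  have h4 : Matrix.of (sgR S B) = Matrix.diagonal (fun a => if a ∈ S then (-1 : ℝ) else 1) * Matrix.of B := by
    ext a b
    rw [Matrix.diagonal_mul]
    show (if a ∈ S then -B a b else B a b) = (if a ∈ S then (-1 : ℝ) else 1) * B a b
    by_cases h : a ∈ S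
    · simp [h]
    · simp [h]
  unfold dt
  rw [h4, Matrix.det_mul, Matrix.det_diagonal]
  refine mul_ne_zero (Finset.prod_ne_zero_iff.2 fun a _ => ?_) hB
  split_ifs <;> norm_num

theorem val_flip {B : Fin 3 → Fin 3 → ℝ} (hB : dt B ≠ 0) (i : Fin 3) : val f (sgR {i} B) = val f B := by
  obtain ⟨j, hij⟩ : ∃ j : Fin 3, i ≠ j := by
    fin_cases i
    · exact ⟨1, by decide⟩
    · exact ⟨0, by decide⟩
    · exact ⟨0, by decide⟩
  have d1 : dt (addR B i j 1) ≠ 0 := by rw [dt_addR B hij]; exact hB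
  have d2 : dt (addR (addR B i j 1) j i (-1)) ≠ 0 := by rw [dt_addR _ hij.symm]; exact d1
  have h1 := val_addR f d2 hij 1
  have h2 := val_addR f d1 hij.symm (-1)
  have h3 := val_addR f hB hij 1
  rw [h2, h3] at h1
  rw [← h1, ← (val_perm f (dt_sgR {i} hB) (Equiv.swap i j)).2]
  congr 1
  funext a b
  have hji : j ≠ i := hij.symm
  by_cases ha : a = i
  · rw [ha, Equiv.swap_apply_left]
    simp [addR, sgR, hij, hji]
  · by_cases hb : a = j
    · rw [hb, Equiv.swap_apply_right]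
      simp [addR, sgR, hji]
    · rw [Equiv.swap_apply_of_ne_of_ne ha hb]
      simp [addR, sgR, ha, hb]

theorem val_sign {B : Fin 3 → Fin 3 → ℝ} (hB : dt B ≠ 0) (S : Finset (Fin 3)) :
    val f (sgR S B) = val f B := by
  classical
  induction S using Finset.induction_on with
  | empty =>
    have h0 : sgR ∅ B = B := by
      funext a b
      simp [sgR]
    rw [h0]
  | insert i S hi ih =>
    have h1 : sgR (insert i S) B = sgR {i} (sgR S B) := by
      funext a b
      by_cases h : a = i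
      · rw [h]
        simp [sgR, hi]
      · simp [sgR, h]
    rw [h1, val_flip f (dt_sgR S hB) i, ih]

/-- multiply the rows by numbers -/
def scR (D : Fin 3 → ℝ) (B : Fin 3 → Fin 3 → ℝ) : Fin 3 → Fin 3 → ℝ := fun a b => D a * B a b

theorem scR_of (D : Fin 3 → ℝ) (B : Fin 3 → Fin 3 → ℝ) :
    Matrix.of (scR D B) = Matrix.diagonal D * Matrix.of B := by
  ext a b
  rw [Matrix.diagonal_mul]
  rfl

theorem val_diag {B : Fin 3 → Fin 3 → ℝ} (hB : dt B ≠ 0) (D : Fin 3 → ℝ) (hD : ∀ i, D i ≠ 0) :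
    val f (scR D B) = val f B := by
  classical
  obtain ⟨S, hS⟩ : ∃ S : Finset (Fin 3), S = Finset.univ.filter fun i => D i < 0 := ⟨_, rfl⟩
  rw [← val_sign f hB S]
  have h3 := val_path f (fun s => scR (fun i => Real.exp (s * Real.log |D i|)) (sgR S B)) (fun i j => by
    unfold scR
    fun_prop) (fun s => by
    unfold dt
    rw [scR_of, Matrix.det_mul, Matrix.det_diagonal]
    exact mul_ne_zero (Finset.prod_ne_zero_iff.2 fun a _ => (Real.exp_pos _).ne') (dt_sgR S hB)) 1 0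
  have h4 : scR (fun i => Real.exp (1 * Real.log |D i|)) (sgR S B) = scR D B := by
    funext a b
    unfold scR sgR
    simp only [one_mul]
    rw [Real.exp_log (abs_pos.2 (hD a))]
    by_cases h : D a < 0
    · have : a ∈ S := by rw [hS]; simp [h]
      rw [if_pos this, abs_of_neg h]
      ring
    · have : a ∉ S := by rw [hS]; simp [h]
      rw [if_neg this, abs_of_nonneg (not_lt.1 h)]
  have h5 : scR (fun i => Real.exp (0 * Real.log |D i|)) (sgR S B) = sgR S B := by
    funext a b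
    unfold scR
    simp only [zero_mul, Real.exp_zero, one_mul]
  simp only [h4, h5] at h3
  exact h3

/-- **The parity is the same for all simplices.** -/
theorem val_const (A : Fin 3 → Fin 3 → ℝ) (hA : dt A ≠ 0) (B : Fin 3 → Fin 3 → ℝ) (hB : dt B ≠ 0) :
    val f A = val f B := by
  have h1 : ∀ A : Matrix (Fin 3) (Fin 3) ℝ, A.det ≠ 0 → ∀ B : Matrix (Fin 3) (Fin 3) ℝ, B.det ≠ 0 →
      val f (Matrix.of.symm (A * B)) = val f (Matrix.of.symm B) := by
    intro A hA
    refine Matrix.diagonal_transvection_induction_of_det_ne_zero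
      (P := fun A => ∀ B : Matrix (Fin 3) (Fin 3) ℝ, B.det ≠ 0 →
        val f (Matrix.of.symm (A * B)) = val f (Matrix.of.symm B)) A hA ?_ ?_ ?_
    · intro D hD B hB
      have h2 : Matrix.of.symm (Matrix.diagonal D * B) = scR D (Matrix.of.symm B) := by
        rw [Equiv.symm_apply_eq, scR_of, Equiv.apply_symm_apply]
      rw [h2]
      refine val_diag f hB D fun i => ?_
      rw [Matrix.det_diagonal] at hD
      exact Finset.prod_ne_zero_iff.1 hD i (Finset.mem_univ i)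
    · intro t B hB
      have h2 : Matrix.of.symm (t.toMatrix * B) = addR (Matrix.of.symm B) t.i t.j t.c := by
        rw [Equiv.symm_apply_eq, addR_of, Equiv.apply_symm_apply]
        rfl
      rw [h2]
      exact val_addR f hB t.hij t.c
    · intro A1 A2 h1 h2 hA1 hA2 B hB
      rw [Matrix.mul_assoc, hA1 (A2 * B) (by rw [Matrix.det_mul]; exact mul_ne_zero h2 hB), hA2 B hB]
  have h2 := h1 (Matrix.of A * (Matrix.of B)⁻¹) (by
    rw [Matrix.det_mul, Matrix.det_nonsing_inv]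
    exact mul_ne_zero hA (by
      rw [Ring.inverse_eq_inv']
      exact inv_ne_zero hB)) (Matrix.of B) hB
  rw [Matrix.mul_assoc, Matrix.nonsing_inv_mul _ (isUnit_iff_ne_zero.2 hB), Matrix.mul_one] at h2
  exact h2

end

end Pool.Agent.Helper20.PS
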