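import Pool.Agent.Helper24.FIVE.Asym
import Pool.Agent.Helper20.PS.KState
import Pool.Agent.Helper80.TK.Vert

/-!
# The theorem on polytopes with at most five facets, from the thirteen classes of states with two circuits
-/

set_option autoImplicit false

namespace Pool.Agent.Helper20.PS

open Matrix
open Pool.Agent.Helper12.LW (LFree toR)
open Pool.Agent.Helper84.FL (Superbase WidthLe)
open Pool.Agent.Helper20.FIVE (Half)
open Pool.Agent.Helper1.FIVE (classesB)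
open Pool.Agent.Helper38.TET (OChain)

/-- everything about the state that the certificate uses -/
theorem KF.kr {W : ℝ} {l : Fin 6 → Fin 5} {F Z : Matrix (Fin 3) (Fin 3) ℝ} {S : ℝ} {p : Fin 5 → ℝ}
    {cls : Fin 3 → Bool} {d c s : Fin 3 → ℝ} {h : ℝ} {L : (Fin 3 → ℤ) → Fin 5}
    (hk : KF W l F Z S p cls d c s h L) : Pool.Agent.Helper80.TK.KR W F (F * Z) cls d c s h L :=
  ⟨hk.ks, hk.lin, hk.ord, hk.clsA, hk.clsB⟩

/-- **Polytopes with at most five facets**, from the theorem on tetrahedra and the certificate of the thirteen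
classes -/
theorem five_cert_k
    (thmA : ∀ (K : Set (Fin 3 → ℝ)) (f P : Fin 4 → Fin 3 → ℤ) (g : Fin 4 → Fin 3 → ℝ), LFree K →
      OChain K f P g → (∀ m : Fin 3 → ℝ, ∃ a : Fin 4 → ℝ, ∑ j, a j • g j = m) → WidthLe K (2 + Real.sqrt 2))
    (cert : ∀ l : Fin 6 → Fin 5, l ∈ classesB → ∀ F Z S p cls d c s h L,
      ¬ KF (2 + Real.sqrt 2) l F Z S p cls d c s h L)
    (w : Fin 5 → Fin 3 → ℝ) (b : Fin 5 → ℝ)
    (hb : Bornology.IsBounded {x : Fin 3 → ℝ | ∀ i, ∑ j, w i j * x j ≤ b i})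
    (hi : (interior {x : Fin 3 → ℝ | ∀ i, ∑ j, w i j * x j ≤ b i}).Nonempty)
    (hz : ∀ z : Fin 3 → ℤ, (fun j => (z j : ℝ)) ∉ interior {x : Fin 3 → ℝ | ∀ i, ∑ j, w i j * x j ≤ b i}) :
    ∃ y : Fin 3 → ℤ, y ≠ 0 ∧ ∀ x ∈ {x : Fin 3 → ℝ | ∀ i, ∑ j, w i j * x j ≤ b i},
      ∀ x' ∈ {x : Fin 3 → ℝ | ∀ i, ∑ j, w i j * x j ≤ b i},
        ∑ i, (x i - x' i) * (y i : ℝ) ≤ 2 + Real.sqrt 2 := by
  have hE : {x : Fin 3 → ℝ | ∀ i, ∑ j, w i j * x j ≤ b i} = Half w b := rfl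
  rw [hE] at hb hi hz ⊢
  have hcl : IsClosed (Half w b) := by
    have h1 : Half w b = ⋂ i, {x : Fin 3 → ℝ | w i ⬝ᵥ x ≤ b i} := by
      ext x
      simp [Half]
    rw [h1]
    refine isClosed_iInter fun i => isClosed_le ?_ continuous_const
    unfold dotProduct
    fun_prop
  have hcomp : IsCompact (Half w b) := Metric.isCompact_of_isClosed_isBounded hcl hb
  by_contra hcon
  obtain ⟨g, b', mu, hT⟩ := Pool.Agent.Helper24.FIVE.exists_exact w b hcomp hi hz (2 + Real.sqrt 2) (by positivity) hcon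
  obtain ⟨l, hl, hH⟩ := exists_hasK thmA hT (Pool.Agent.Helper24.FIVE.asym hT)
  obtain ⟨F, Z, S, p, cls, d, c, s, h, L, hk⟩ := hH.kf
  exact cert l hl F Z S p cls d c s h L hk

end Pool.Agent.Helper20.PS
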