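import Pool.Agent.Helper20.PS.State

/-!
# The wall state on the straight path

The form is the sum of five squares, `Q = (1 - t) Q_C + t Q_D` with the forms of the two simplices.
-/

set_option autoImplicit false

namespace Pool.Agent.Helper20.PS

open Matrix
open Pool.Agent.Helper12.LW (LFree toR)
open Pool.Agent.Helper84.FL (Superbase WidthLe)
open Pool.Agent.Helper22.Sym (bil)
open Pool.Agent.Helper1.FIVE (frm li octp OneP)
open Pool.Agent.Helper38.TET (OChain)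

/-- the wall state on the straight path: `nC = - ∑ c i n i`, `nD = - ∑ s i n i`, `c i ^ 2 + s i ^ 2 = 1` -/
structure LState (K : Set (Fin 3 → ℝ)) (W : ℝ) (n : Fin 3 → Fin 3 → ℝ) (nC nD : Fin 3 → ℝ) (b : Fin 3 → ℝ)
    (bC bD : ℝ) (c s : Fin 3 → ℝ) (eC eD : ℝ) (lab : (Fin 3 → ℤ) → Fin 5) (f : Fin 4 → Fin 3 → ℤ)
    (x : Fin 3 → ℤ) : Prop where
  wide : ∀ r : Fin 3 → ℤ, r ≠ 0 → ∃ x ∈ K, ∃ x' ∈ K, W < toR r ⬝ᵥ (x - x')
  c0 : ∀ i, 0 ≤ c i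
  s0 : ∀ i, 0 ≤ s i
  cs : ∀ i, c i ^ 2 + s i ^ 2 = 1
  hC : nC = -∑ i, c i • n i
  hD : nD = -∑ i, s i • n i
  eC0 : 0 ≤ eC
  eD0 : 0 ≤ eD
  ee : eC ^ 2 + eD ^ 2 = 1
  sumC : ∑ i, c i * b i + bC = eC
  sumD : ∑ i, s i * b i + bD = eD
  le : ∀ x ∈ K, ∀ i, n i ⬝ᵥ x ≤ b i
  leC : ∀ x ∈ K, nC ⬝ᵥ x ≤ bC
  leD : ∀ x ∈ K, nD ⬝ᵥ x ≤ bD
  lab_i : ∀ z (i : Fin 3), lab z = li i → b i ≤ n i ⬝ᵥ toR z
  lab_C : ∀ z, lab z = 0 → bC ≤ nC ⬝ᵥ toR z ∧ ∀ i, n i ⬝ᵥ toR z ≤ b i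
  lab_D : ∀ z, lab z = 4 → bD ≤ nD ⬝ᵥ toR z ∧ ∀ i, n i ⬝ᵥ toR z ≤ b i
  sb : Superbase f
  obt : ∀ l m, l ≠ m → frm 0 n nC nD (toR (f l)) (toR (f m)) ≤ 0
  wall : frm 0 n nC nD (toR (f 0)) (toR (f 1)) = 0
  oct : OneP fun i => lab (octp f x i)

/-- the factor of the facet `i` on the straight path -/
noncomputable def sf (mu : Fin 3 → ℝ) (t : ℝ) (i : Fin 3) : ℝ := Real.sqrt ((1 - t) + t * mu i ^ 2)

theorem sf_pos {mu : Fin 3 → ℝ} (hmu : ∀ i, 0 < mu i) {t : ℝ} (ht : t ∈ Set.Icc (0 : ℝ) 1) (i : Fin 3) :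
    0 < sf mu t i := by
  refine Real.sqrt_pos.2 ?_
  rcases eq_or_lt_of_le ht.1 with h | h
  · rw [← h]
    norm_num
  · have h1 := mul_pos h (pow_pos (hmu i) 2)
    have h2 := ht.2
    linarith

theorem sf_sq {mu : Fin 3 → ℝ} {t : ℝ} (ht : t ∈ Set.Icc (0 : ℝ) 1) (i : Fin 3) :
    sf mu t i ^ 2 = (1 - t) + t * mu i ^ 2 := by
  refine Real.sq_sqrt ?_
  have h1 := mul_nonneg ht.1 (sq_nonneg (mu i))
  have h2 := ht.2
  linarith

/-- **The wall state on the straight path.** -/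
theorem exists_lstate (thmA : ∀ (K : Set (Fin 3 → ℝ)) (f P : Fin 4 → Fin 3 → ℤ) (g : Fin 4 → Fin 3 → ℝ), LFree K →
      OChain K f P g → (∀ m : Fin 3 → ℝ, ∃ a : Fin 4 → ℝ, ∑ j, a j • g j = m) → WidthLe K (2 + Real.sqrt 2))
    {K : Set (Fin 3 → ℝ)} {g : Fin 4 → Fin 3 → ℝ} {b : Fin 4 → ℝ} {mu : Fin 3 → ℝ}
    (h : Two K (2 + Real.sqrt 2) g b mu) :
    ∃ n nC nD b' bC bD' c s eC eD lab f x, LState K (2 + Real.sqrt 2) n nC nD b' bC bD' c s eC eD lab f x := by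
  obtain ⟨Q, hQ⟩ : ∃ Q : ℝ → Matrix (Fin 3) (Fin 3) ℝ,
      Q = fun t => Matrix.of fun a c => (1 - t) * ∑ j, g j a * g j c +
        t * (vD g mu a * vD g mu c + ∑ i : Fin 3, (mu i * g i.succ a) * (mu i * g i.succ c)) := ⟨_, rfl⟩
  have hform : ∀ t (x y : Fin 3 → ℝ), x ⬝ᵥ Q t *ᵥ y = (1 - t) * ∑ j, (g j ⬝ᵥ x) * (g j ⬝ᵥ y) +
      t * ((vD g mu ⬝ᵥ x) * (vD g mu ⬝ᵥ y) + ∑ i : Fin 3, (mu i * (g i.succ ⬝ᵥ x)) * (mu i * (g i.succ ⬝ᵥ y))) := by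
    intro t x y
    rw [hQ]
    simp only [dotProduct, mulVec, Matrix.of_apply, Fin.sum_univ_three, Fin.sum_univ_four]
    ring
  have hQc : ∀ i j, Continuous fun t => Q t i j := by
    intro i j
    rw [hQ]
    simp only [Matrix.of_apply]
    fun_prop
  have hQp : ∀ t ∈ Set.Icc (0 : ℝ) 1, (Q t).PosDef := by
    intro t ht
    rw [Matrix.posDef_iff_dotProduct_mulVec]
    refine ⟨?_, fun {x} hx => ?_⟩
    · unfold Matrix.IsHermitian
      ext a c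
      rw [hQ]
      simp only [Matrix.conjTranspose_apply, Matrix.of_apply, star_trivial, Fin.sum_univ_three, Fin.sum_univ_four]
      ring
    · have hstar : star x = x := by
        funext i
        simp
      rw [hstar, hform]
      have e1 : ∀ i : Fin 3, 0 ≤ (g i.succ ⬝ᵥ x) * (g i.succ ⬝ᵥ x) := fun i => mul_self_nonneg _
      have e0 := mul_self_nonneg (g 0 ⬝ᵥ x)
      have eD := mul_self_nonneg (vD g mu ⬝ᵥ x)
      obtain ⟨i, hi⟩ : ∃ i : Fin 3, g i.succ ⬝ᵥ x ≠ 0 := by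
        by_contra hcon
        push Not at hcon
        refine hx (h.nT_sep (t := 0) ⟨le_refl _, zero_le_one⟩ x fun i => ?_)
        rw [nT, smul_dotProduct, hcon i, smul_zero]
      have e2 : 0 < (g i.succ ⬝ᵥ x) * (g i.succ ⬝ᵥ x) := mul_self_pos.2 hi
      have h1 : (g i.succ ⬝ᵥ x) * (g i.succ ⬝ᵥ x) ≤ ∑ j, (g j ⬝ᵥ x) * (g j ⬝ᵥ x) :=
        Finset.single_le_sum (f := fun j => (g j ⬝ᵥ x) * (g j ⬝ᵥ x)) (fun _ _ => mul_self_nonneg _)
          (Finset.mem_univ i.succ)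
      have h2 : (mu i * (g i.succ ⬝ᵥ x)) * (mu i * (g i.succ ⬝ᵥ x)) ≤
          ∑ i : Fin 3, (mu i * (g i.succ ⬝ᵥ x)) * (mu i * (g i.succ ⬝ᵥ x)) :=
        Finset.single_le_sum (f := fun i : Fin 3 => (mu i * (g i.succ ⬝ᵥ x)) * (mu i * (g i.succ ⬝ᵥ x)))
          (fun _ _ => mul_self_nonneg _) (Finset.mem_univ i)
      have h3 : 0 < (mu i * (g i.succ ⬝ᵥ x)) * (mu i * (g i.succ ⬝ᵥ x)) :=
        mul_self_pos.2 (mul_ne_zero (h.mu_pos i).ne' hi)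
      rcases eq_or_lt_of_le ht.1 with h4 | h4
      · rw [← h4]
        have : (1 - (0 : ℝ)) * ∑ j, (g j ⬝ᵥ x) * (g j ⬝ᵥ x) = ∑ j, (g j ⬝ᵥ x) * (g j ⬝ᵥ x) := by ring
        rw [this, zero_mul, add_zero]
        linarith
      · have h5 : 0 < t * ((vD g mu ⬝ᵥ x) * (vD g mu ⬝ᵥ x) +
            ∑ i : Fin 3, (mu i * (g i.succ ⬝ᵥ x)) * (mu i * (g i.succ ⬝ᵥ x))) := mul_pos h4 (by linarith)
        have h6 : 0 ≤ (1 - t) * ∑ j, (g j ⬝ᵥ x) * (g j ⬝ᵥ x) :=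
          mul_nonneg (by linarith [ht.2]) (Finset.sum_nonneg fun _ _ => mul_self_nonneg _)
        linarith
  obtain ⟨t, ht, f, x, hf, hobt, hwall, hoct⟩ := exists_wall thmA h Q hQc hQp
    (fun x y => by
      have h1 := hform 0 (toR x) (toR y)
      rw [zero_mul, add_zero, sub_zero, one_mul] at h1
      exact h1)
    (fun x y => by
      have h1 := hform 1 (toR x) (toR y)
      rw [sub_self, zero_mul, zero_add, one_mul] at h1
      exact h1)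
  have ht0 := ht.1
  have ht1 : 0 ≤ 1 - t := by
    have := ht.2
    linarith
  have hs := sf_pos h.mu_pos ht
  have hs2 := sf_sq (mu := mu) ht
  have hfrm : ∀ x y : V, frm 0 (fun i => sf mu t i • g i.succ) (Real.sqrt (1 - t) • g 0) (Real.sqrt t • vD g mu)
      (toR x) (toR y) = bil (Q t) x y := by
    intro x y
    have h1 : bil (Q t) x y = (1 - t) * ∑ j, (g j ⬝ᵥ toR x) * (g j ⬝ᵥ toR y) +
        t * ((vD g mu ⬝ᵥ toR x) * (vD g mu ⬝ᵥ toR y) +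
          ∑ i : Fin 3, (mu i * (g i.succ ⬝ᵥ toR x)) * (mu i * (g i.succ ⬝ᵥ toR y))) := hform t (toR x) (toR y)
    rw [h1]
    have h2 := Real.sq_sqrt ht1
    have h3 := Real.sq_sqrt ht0
    have k0 := hs2 0
    have k1 := hs2 1
    have k2 := hs2 2
    simp only [frm, smul_dotProduct, smul_eq_mul, Fin.sum_univ_three, Fin.sum_univ_four]
    have q0 : (Fin.succ 0 : Fin 4) = 1 := rfl
    have q1 : (Fin.succ 1 : Fin 4) = 2 := rfl
    have q2 : (Fin.succ 2 : Fin 4) = 3 := rfl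
    rw [q0, q1, q2]
    linear_combination ((g 1 ⬝ᵥ toR x) * (g 1 ⬝ᵥ toR y)) * k0 + ((g 2 ⬝ᵥ toR x) * (g 2 ⬝ᵥ toR y)) * k1 +
      ((g 3 ⬝ᵥ toR x) * (g 3 ⬝ᵥ toR y)) * k2 + ((g 0 ⬝ᵥ toR x) * (g 0 ⬝ᵥ toR y)) * h2 +
      ((vD g mu ⬝ᵥ toR x) * (vD g mu ⬝ᵥ toR y)) * h3
  refine ⟨fun i => sf mu t i • g i.succ, Real.sqrt (1 - t) • g 0, Real.sqrt t • vD g mu,
    fun i => sf mu t i * b i.succ, Real.sqrt (1 - t) * b 0, Real.sqrt t * bD b mu,
    fun i => Real.sqrt (1 - t) / sf mu t i, fun i => Real.sqrt t * mu i / sf mu t i, Real.sqrt (1 - t), Real.sqrt t,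
    lab5 g b, f, x, ⟨h.wide, ?_, ?_, ?_, ?_, ?_, Real.sqrt_nonneg _, Real.sqrt_nonneg _, ?_, ?_, ?_, ?_, ?_, ?_, ?_,
      ?_, ?_, hf, ?_, ?_, hoct⟩⟩
  · intro i
    exact div_nonneg (Real.sqrt_nonneg _) (hs i).le
  · intro i
    exact div_nonneg (mul_nonneg (Real.sqrt_nonneg _) (h.mu_pos i).le) (hs i).le
  · intro i
    rw [div_pow, div_pow, mul_pow, Real.sq_sqrt ht1, Real.sq_sqrt ht0, ← add_div, hs2, div_self]
    rw [← hs2]
    exact (pow_pos (hs i) 2).ne'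
  · have h1 := h.sum_g
    rw [Fin.sum_univ_succ] at h1
    rw [eq_neg_of_add_eq_zero_left h1, smul_neg, Finset.smul_sum]
    congr 1
    refine Finset.sum_congr rfl fun i _ => ?_
    rw [smul_smul, div_mul_cancel₀ _ (hs i).ne']
  · rw [vD, smul_neg, Finset.smul_sum]
    congr 1
    refine Finset.sum_congr rfl fun i _ => ?_
    rw [smul_smul, smul_smul, div_mul_cancel₀ _ (hs i).ne']
  · rw [Real.sq_sqrt ht1, Real.sq_sqrt ht0]
    ring
  · have h1 := h.sum_b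
    rw [Fin.sum_univ_succ] at h1
    have h2 : ∀ i : Fin 3, Real.sqrt (1 - t) / sf mu t i * (sf mu t i * b i.succ) = Real.sqrt (1 - t) * b i.succ := by
      intro i
      rw [← mul_assoc, div_mul_cancel₀ _ (hs i).ne']
    rw [Finset.sum_congr rfl fun i _ => h2 i, ← Finset.mul_sum]
    linear_combination Real.sqrt (1 - t) * h1
  · have h2 : ∀ i : Fin 3, Real.sqrt t * mu i / sf mu t i * (sf mu t i * b i.succ) =
        Real.sqrt t * (mu i * b i.succ) := by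
      intro i
      rw [← mul_assoc, div_mul_cancel₀ _ (hs i).ne', mul_assoc]
    rw [Finset.sum_congr rfl fun i _ => h2 i, ← Finset.mul_sum, bD]
    ring
  · intro x hx i
    show (sf mu t i • g i.succ) ⬝ᵥ x ≤ sf mu t i * b i.succ
    rw [smul_dotProduct, smul_eq_mul]
    exact mul_le_mul_of_nonneg_left (h.sub _ x hx) (hs i).le
  · intro x hx
    rw [smul_dotProduct, smul_eq_mul]
    exact mul_le_mul_of_nonneg_left (h.sub _ x hx) (Real.sqrt_nonneg _)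
  · intro x hx
    rw [smul_dotProduct, smul_eq_mul]
    exact mul_le_mul_of_nonneg_left (h.subD x hx) (Real.sqrt_nonneg _)
  · intro z i hz
    show sf mu t i * b i.succ ≤ (sf mu t i • g i.succ) ⬝ᵥ toR z
    rw [smul_dotProduct, smul_eq_mul]
    exact mul_le_mul_of_nonneg_left (lab5_i i hz) (hs i).le
  · intro z hz
    refine ⟨?_, fun i => ?_⟩
    · rw [smul_dotProduct, smul_eq_mul]
      exact mul_le_mul_of_nonneg_left (lab5_0 hz) (Real.sqrt_nonneg _)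
    · show (sf mu t i • g i.succ) ⬝ᵥ toR z ≤ sf mu t i * b i.succ
      rw [smul_dotProduct, smul_eq_mul]
      exact mul_le_mul_of_nonneg_left (lab5_out (Or.inl hz) i).le (hs i).le
  · intro z hz
    refine ⟨?_, fun i => ?_⟩
    · rw [smul_dotProduct, smul_eq_mul]
      exact mul_le_mul_of_nonneg_left (h.lab5_D hz) (Real.sqrt_nonneg _)
    · show (sf mu t i • g i.succ) ⬝ᵥ toR z ≤ sf mu t i * b i.succ
      rw [smul_dotProduct, smul_eq_mul]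
      exact mul_le_mul_of_nonneg_left (lab5_out (Or.inr hz) i).le (hs i).le
  · intro l m hlm
    rw [hfrm]
    exact hobt l m hlm
  · rw [hfrm]
    exact hwall

end Pool.Agent.Helper20.PS
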