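import Pool.Agent.Helper20.PS.Base
import Pool.Agent.Helper82.TET.Glue

/-!
# Parity of the number of rainbow cells for every superbase and every simplex
-/

set_option autoImplicit false

namespace Pool.Agent.Helper20.PS

open Matrix
open Pool.Agent.Helper22.Sym (Superb)

/-- coordinates in a superbase -/
def ph (f : Fin 4 → V) (m : V) : V := m 0 • f 0 + m 1 • f 1 + m 2 • f 2

theorem ph_add (f : Fin 4 → V) (m n : V) : ph f (m + n) = ph f m + ph f n := by
  unfold ph
  simp only [Pi.add_apply, add_smul]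
  abel

theorem ph_e4 (f : Fin 4 → V) : ph f (e4 0) = f 0 ∧ ph f (e4 1) = f 1 ∧ ph f (e4 2) = f 2 := by
  unfold ph e4
  simp

theorem ph_bij {f : Fin 4 → V} {u : Fin 4 → V} (h : Superb f u) : Function.Bijective (ph f) := by
  constructor
  · intro m n hmn
    have h1 : ∀ (i : Fin 4) (m : V), (u i - u 3) ⬝ᵥ ph f m =
        m 0 * ((u i - u 3) ⬝ᵥ f 0) + m 1 * ((u i - u 3) ⬝ᵥ f 1) + m 2 * ((u i - u 3) ⬝ᵥ f 2) := by
      intro i m
      unfold ph
      simp only [dotProduct_add, dotProduct_smul, smul_eq_mul]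
    have h2 : ∀ i : Fin 4, (u i - u 3) ⬝ᵥ ph f m = (u i - u 3) ⬝ᵥ ph f n := fun i => by rw [hmn]
    funext a
    have e := h.2
    fin_cases a
    · have h3 := h2 0
      rw [h1, h1, e 0 3 0, e 0 3 1, e 0 3 2] at h3
      simpa using h3
    · have h3 := h2 1
      rw [h1, h1, e 1 3 0, e 1 3 1, e 1 3 2] at h3
      simpa using h3
    · have h3 := h2 2
      rw [h1, h1, e 2 3 0, e 2 3 1, e 2 3 2] at h3
      simpa using h3
  · intro z
    obtain ⟨a, ha⟩ := (Pool.Agent.Helper82.TET.superbase_of_superb f u h).span z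
    have hs := h.1
    rw [Fin.sum_univ_four] at ha hs
    refine ⟨![a 0 - a 3, a 1 - a 3, a 2 - a 3], ?_⟩
    have h3 : f 3 = -(f 0 + f 1 + f 2) := eq_neg_of_add_eq_zero_right hs
    rw [ha, h3]
    unfold ph
    simp only [Matrix.cons_val_zero, Matrix.cons_val_one, Matrix.cons_val]
    module

theorem Ks_ph (f : Fin 4 → V) (D : V → V → V → V → ZMod 2) (m : V) :
    Ks f D (ph f m) = Ks e4 (fun a b c d => D (ph f a) (ph f b) (ph f c) (ph f d)) m := by
  obtain ⟨h0, h1, h2⟩ := ph_e4 f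
  unfold Ks T
  simp only [ph_add, h0, h1, h2]

theorem N_ph {f : Fin 4 → V} {u : Fin 4 → V} (h : Superb f u) (D : V → V → V → V → ZMod 2) :
    N f D = N e4 (fun a b c d => D (ph f a) (ph f b) (ph f c) (ph f d)) := by
  unfold N
  rw [← finsum_comp_equiv (Equiv.ofBijective _ (ph_bij h)) (f := Ks f D)]
  exact finsum_congr fun m => Ks_ph f D m

theorem three_ne : ∀ j : Fin 3, (3 : Fin 4) ≠ j.castSucc := by decide

/-- **Parity.**  Labels such that every point `v` satisfies `g (lab v) · v ≥ - C`: the number of rainbow cells of every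
superbase is odd. -/
theorem parity {f : Fin 4 → V} {u : Fin 4 → V} (h : Superb f u) {g : Fin 4 → Fin 3 → ℝ} (hg : ∑ j, g j = 0)
    (hspan : ∀ m : Fin 3 → ℝ, ∃ c : Fin 4 → ℝ, ∑ k, c k • g k = m) {lab : V → Fin 4} {C : ℝ}
    (hlab : Coh g lab C) : N f (Dl lab) = 1 := by
  rw [N_ph h]
  obtain ⟨g', hg'⟩ : ∃ g' : Fin 4 → Fin 3 → ℝ, g' = fun k i => g k ⬝ᵥ rr (f i.castSucc) := ⟨_, rfl⟩
  have hval : ∀ k m, g' k ⬝ᵥ rr m = g k ⬝ᵥ rr (ph f m) := by
    intro k m
    have h1 : rr (ph f m) = (m 0 : ℝ) • rr (f 0) + (m 1 : ℝ) • rr (f 1) + (m 2 : ℝ) • rr (f 2) := by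
      funext i
      simp [rr, ph]
    rw [h1, hg']
    simp only [dotProduct_add, dotProduct_smul, smul_eq_mul]
    show ∑ i : Fin 3, (g k ⬝ᵥ rr (f i.castSucc)) * (m i : ℝ) = _
    rw [Fin.sum_univ_three]
    show (g k ⬝ᵥ rr (f 0)) * (m 0 : ℝ) + (g k ⬝ᵥ rr (f 1)) * (m 1 : ℝ) + (g k ⬝ᵥ rr (f 2)) * (m 2 : ℝ) = _
    ring
  have hsum : ∑ k, g' k = 0 := by
    funext i
    rw [Finset.sum_apply, hg']
    show ∑ k, g k ⬝ᵥ rr (f i.castSucc) = 0
    rw [← sum_dotProduct, hg, zero_dotProduct]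
  obtain ⟨B, hB⟩ : ∃ B : Fin 3 → Fin 3 → ℝ, B = fun i => g' i.succ := ⟨_, rfl⟩
  have hgB : gB B = g' := by
    funext k
    rcases Fin.eq_zero_or_eq_succ k with rfl | ⟨i, rfl⟩
    · rw [gB_zero, hB]
      rw [Fin.sum_univ_succ] at hsum
      exact (eq_neg_of_add_eq_zero_left hsum).symm
    · rw [gB_succ, hB]
  have hdet : dt B ≠ 0 := by
    have h1 : IsUnit (Matrix.of B) := by
      rw [← Matrix.vecMul_surjective_iff_isUnit]
      intro y
      obtain ⟨m, hm⟩ : ∃ m : Fin 3 → ℝ, ∀ j : Fin 3, m ⬝ᵥ rr (f j.castSucc) = y j := by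
        refine ⟨∑ i : Fin 3, y i • rr (u i.castSucc - u 3), fun j => ?_⟩
        rw [sum_dotProduct]
        have h2 : ∀ i : Fin 3, (y i • rr (u i.castSucc - u 3)) ⬝ᵥ rr (f j.castSucc) =
            y i * if i = j then 1 else 0 := by
          intro i
          rw [smul_dotProduct, smul_eq_mul]
          congr 1
          have h3 : rr (u i.castSucc - u 3) ⬝ᵥ rr (f j.castSucc) =
              (((u i.castSucc - u 3) ⬝ᵥ f j.castSucc : ℤ) : ℝ) := by
            unfold dotProduct rr
            push_cast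
            rfl
          rw [h3, h.2 i.castSucc 3 j.castSucc]
          have h4 : (3 : Fin 4) ≠ j.castSucc := three_ne j
          rw [if_neg h4]
          by_cases h5 : i = j
          · rw [h5]
            simp
          · rw [if_neg (fun h6 => h5 (Fin.castSucc_injective _ h6)), if_neg h5]
            simp
        simp only [h2, mul_ite, mul_one, mul_zero, Finset.sum_ite_eq', Finset.mem_univ, if_true]
      obtain ⟨c, hc⟩ := hspan m
      refine ⟨fun i => c i.succ - c 0, ?_⟩
      funext j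
      show ∑ i : Fin 3, (c i.succ - c 0) * B i j = y j
      have h5 : ∑ i : Fin 3, g' i.succ j = -g' 0 j := by
        have h6 := congrFun hsum j
        rw [Finset.sum_apply, Fin.sum_univ_succ] at h6
        simp only [Pi.zero_apply] at h6
        linarith
      have h7 : ∑ i : Fin 3, (c i.succ - c 0) * B i j = ∑ k, c k * g' k j := by
        rw [hB, Fin.sum_univ_succ (f := fun k => c k * g' k j)]
        simp only [sub_mul, Finset.sum_sub_distrib, ← Finset.mul_sum]
        rw [h5]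
        ring
      rw [h7, ← hm j, ← hc, sum_dotProduct, hg']
      exact Finset.sum_congr rfl fun k _ => by rw [smul_dotProduct, smul_eq_mul]
    exact ((Matrix.isUnit_iff_isUnit_det _).1 h1).ne_zero
  have hco : Coh (gB B) (fun m => lab (ph f m)) C := fun m => by
    rw [hgB, hval]
    exact hlab _
  have h2 := val_eq e4 hdet hco
  rw [val_e4 B hdet] at h2
  exact h2

end Pool.Agent.Helper20.PS
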