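import Pool.Agent.Helper20.PS.Parity

/-!
# A path of forms: invariants of superbases along flips
-/

set_option autoImplicit false

namespace Pool.Agent.Helper20.PS

open Matrix
open Pool.Agent.Helper22.Sym (Superb bil toR)
open Pool.Agent.Helper84.FL (Superbase)
open Pool.Agent.Helper24.UB (pa pb rt)

/-- the flip at the pair `a, b` -/
def flip4 (a b : Fin 4) (f : Fin 4 → V) : Fin 4 → V :=
  fun l => if l = a then -f a else if l = b then f b else f l + f a

/-- obtuse superbases -/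
def Obt (Q : Matrix (Fin 3) (Fin 3) ℝ) (f : Fin 4 → V) : Prop := ∀ l m, l ≠ m → bil Q (f l) (f m) ≤ 0

/-- the sum of the squares -/
noncomputable def En (Q : Matrix (Fin 3) (Fin 3) ℝ) (f : Fin 4 → V) : ℝ := ∑ l, bil Q (f l) (f l)

theorem others4 : ∀ a b : Fin 4, a ≠ b → ∃ c d : Fin 4, a ≠ c ∧ a ≠ d ∧ b ≠ c ∧ b ≠ d ∧ c ≠ d ∧
    ∀ l : Fin 4, l = a ∨ l = b ∨ l = c ∨ l = d := by
  decide

theorem sum_others {M : Type*} [AddCommMonoid M] {a b c d : Fin 4} (hab : a ≠ b) (hac : a ≠ c) (had : a ≠ d)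
    (hbc : b ≠ c) (hbd : b ≠ d) (hcd : c ≠ d) (hall : ∀ l : Fin 4, l = a ∨ l = b ∨ l = c ∨ l = d) (F : Fin 4 → M) :
    ∑ l, F l = F a + (F b + (F c + F d)) := by
  have huniv : (Finset.univ : Finset (Fin 4)) = {a, b, c, d} := by
    ext l
    simpa using hall l
  rw [huniv, Finset.sum_insert (by simp [hab, hac, had]), Finset.sum_insert (by simp [hbc, hbd]),
    Finset.sum_insert (by simp [hcd]), Finset.sum_singleton]

section

variable {Q : Matrix (Fin 3) (Fin 3) ℝ}

theorem bil_add_l (x y z : V) : bil Q (x + y) z = bil Q x z + bil Q y z :=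
  Pool.Agent.Helper22.Sym.bil_add_left Q x y z

theorem bil_symm (hQ : Q.PosDef) (x y : V) : bil Q x y = bil Q y x := Pool.Agent.Helper22.Sym.bil_comm hQ x y

theorem bil_add_r (hQ : Q.PosDef) (x y z : V) : bil Q x (y + z) = bil Q x y + bil Q x z := by
  rw [bil_symm hQ, bil_add_l, bil_symm hQ y, bil_symm hQ z]

theorem bil_neg_l (x y : V) : bil Q (-x) y = -bil Q x y := by
  have h1 : bil Q (x + -x) y = bil Q x y + bil Q (-x) y := bil_add_l x (-x) y
  have h2 : bil Q (0 : V) y = 0 := by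
    have h3 : bil Q ((0 : V) + 0) y = bil Q 0 y + bil Q 0 y := bil_add_l 0 0 y
    rw [add_zero] at h3
    linarith
  rw [add_neg_cancel, h2] at h1
  linarith

theorem bil_neg_r (hQ : Q.PosDef) (x y : V) : bil Q x (-y) = -bil Q x y := by
  rw [bil_symm hQ, bil_neg_l, bil_symm hQ y]

/-- the flip of a superbase -/
theorem flip_superbase {f : Fin 4 → V} (hf : Superbase f) {a b : Fin 4} (hab : a ≠ b) :
    Superbase (flip4 a b f) := by
  obtain ⟨c, d, hac, had, hbc, hbd, hcd, hall⟩ := others4 a b hab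
  have ea : flip4 a b f a = -f a := by simp [flip4]
  have eb : flip4 a b f b = f b := by simp [flip4, hab.symm]
  have ec : flip4 a b f c = f c + f a := by simp [flip4, hac.symm, hbc.symm]
  have ed : flip4 a b f d = f d + f a := by simp [flip4, had.symm, hbd.symm]
  have hs := hf.sum
  rw [sum_others hab hac had hbc hbd hcd hall] at hs
  refine ⟨?_, fun z => ?_⟩
  · rw [sum_others hab hac had hbc hbd hcd hall, ea, eb, ec, ed, ← hs]
    abel
  · obtain ⟨α, hα⟩ := hf.span z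
    refine ⟨fun l => if l = a then -α a + α c + α d else α l, ?_⟩
    rw [sum_others hab hac had hbc hbd hcd hall] at hα ⊢
    simp only [if_true, if_neg hab.symm, if_neg hac.symm, if_neg had.symm]
    rw [ea, eb, ec, ed, hα]
    module

/-- the flip of an obtuse superbase with `f a`, `f b` orthogonal -/
theorem flip_obt (hQ : Q.PosDef) {f : Fin 4 → V} (hf : ∑ l, f l = 0) (hobt : Obt Q f) {a b : Fin 4} (hab : a ≠ b)
    (h0 : bil Q (f a) (f b) = 0) : Obt Q (flip4 a b f) := by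
  obtain ⟨c, d, hac, had, hbc, hbd, hcd, hall⟩ := others4 a b hab
  have ea : flip4 a b f a = -f a := by simp [flip4]
  have eb : flip4 a b f b = f b := by simp [flip4, hab.symm]
  have ec : flip4 a b f c = f c + f a := by simp [flip4, hac.symm, hbc.symm]
  have ed : flip4 a b f d = f d + f a := by simp [flip4, had.symm, hbd.symm]
  rw [sum_others hab hac had hbc hbd hcd hall] at hf
  have hfd : f d = -(f a + (f b + f c)) := by
    have : f a + (f b + (f c + f d)) = (f a + (f b + f c)) + f d := by abel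
    rw [this] at hf
    exact eq_neg_of_add_eq_zero_right hf
  -- products in terms of `a, b, c`
  obtain ⟨B, hB⟩ : ∃ B : V → V → ℝ, B = bil Q := ⟨_, rfl⟩
  have hBs : ∀ x y, B x y = B y x := fun x y => by rw [hB]; exact bil_symm hQ x y
  have hBl : ∀ x y z, B (x + y) z = B x z + B y z := fun x y z => by rw [hB]; exact bil_add_l x y z
  have hBr : ∀ x y z, B x (y + z) = B x y + B x z := fun x y z => by rw [hB]; exact bil_add_r hQ x y z
  have hBnl : ∀ x y, B (-x) y = -B x y := fun x y => by rw [hB]; exact bil_neg_l x y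
  have hBnr : ∀ x y, B x (-y) = -B x y := fun x y => by rw [hB]; exact bil_neg_r hQ x y
  have h0' : B (f a) (f b) = 0 := by rw [hB]; exact h0
  have o : ∀ l m, l ≠ m → B (f l) (f m) ≤ 0 := fun l m h => by rw [hB]; exact hobt l m h
  have oac := o a c hac
  have oad := o a d had
  have obc := o b c hbc
  have obd := o b d hbd
  have ocd := o c d hcd
  rw [hfd] at oad obd ocd
  simp only [hBnr, hBr] at oad obd ocd
  have hba := hBs (f b) (f a)
  have hca := hBs (f c) (f a)
  have hcb := hBs (f c) (f b)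
  have key : ∀ l m, l ≠ m → B (flip4 a b f l) (flip4 a b f m) ≤ 0 := by
    have kab : B (flip4 a b f a) (flip4 a b f b) ≤ 0 := by
      rw [ea, eb, hBnl]
      linarith
    have kac : B (flip4 a b f a) (flip4 a b f c) ≤ 0 := by
      rw [ea, ec, hBnl, hBr]
      linarith
    have kad : B (flip4 a b f a) (flip4 a b f d) ≤ 0 := by
      rw [ea, ed, hfd, hBnl, hBr]
      simp only [hBnr, hBr]
      linarith
    have kbc : B (flip4 a b f b) (flip4 a b f c) ≤ 0 := by
      rw [eb, ec, hBr]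
      linarith
    have kbd : B (flip4 a b f b) (flip4 a b f d) ≤ 0 := by
      rw [eb, ed, hfd, hBr]
      simp only [hBnr, hBr]
      linarith
    have kcd : B (flip4 a b f c) (flip4 a b f d) ≤ 0 := by
      rw [ec, ed, hfd, hBl, hBr, hBr]
      simp only [hBnr, hBr]
      linarith
    intro l m hlm
    rcases hall l with rfl | rfl | rfl | rfl <;> rcases hall m with rfl | rfl | rfl | rfl
    · exact absurd rfl hlm
    · exact kab
    · exact kac
    · exact kad
    · rw [hBs]; exact kab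
    · exact absurd rfl hlm
    · exact kbc
    · exact kbd
    · rw [hBs]; exact kac
    · rw [hBs]; exact kbc
    · exact absurd rfl hlm
    · exact kcd
    · rw [hBs]; exact kad
    · rw [hBs]; exact kbd
    · rw [hBs]; exact kcd
    · exact absurd rfl hlm
  intro l m hlm
  rw [← hB]
  exact key l m hlm

/-- the sum of the squares after a flip -/
theorem flip_En (hQ : Q.PosDef) {f : Fin 4 → V} (hf : ∑ l, f l = 0) {a b : Fin 4} (hab : a ≠ b) :
    En Q (flip4 a b f) = En Q f - 2 * bil Q (f a) (f b) := by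
  obtain ⟨c, d, hac, had, hbc, hbd, hcd, hall⟩ := others4 a b hab
  have ea : flip4 a b f a = -f a := by simp [flip4]
  have eb : flip4 a b f b = f b := by simp [flip4, hab.symm]
  have ec : flip4 a b f c = f c + f a := by simp [flip4, hac.symm, hbc.symm]
  have ed : flip4 a b f d = f d + f a := by simp [flip4, had.symm, hbd.symm]
  rw [sum_others hab hac had hbc hbd hcd hall] at hf
  have hfd : f d = -(f a + (f b + f c)) := by
    have : f a + (f b + (f c + f d)) = (f a + (f b + f c)) + f d := by abel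
    rw [this] at hf
    exact eq_neg_of_add_eq_zero_right hf
  unfold En
  rw [sum_others hab hac had hbc hbd hcd hall, sum_others hab hac had hbc hbd hcd hall, ea, eb, ec, ed, hfd]
  simp only [bil_neg_l, bil_neg_r hQ, bil_add_l, bil_add_r hQ]
  rw [bil_symm hQ (f b) (f a), bil_symm hQ (f c) (f a), bil_symm hQ (f c) (f b)]
  ring

/-- a nonzero functional on a superbase -/
theorem two_le {g : Fin 4 → V} (hg : Superbase g) {w : V} (hw : w ≠ 0) : 2 ≤ ∑ l, (w ⬝ᵥ g l) ^ 2 := by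
  have h1 : ∑ l, w ⬝ᵥ g l = 0 := by rw [← dotProduct_sum, hg.sum, dotProduct_zero]
  have h2 : ∃ l, w ⬝ᵥ g l ≠ 0 := by
    by_contra hcon
    push Not at hcon
    apply hw
    funext i
    obtain ⟨α, hα⟩ := hg.span (Pi.single i 1)
    have h3 : w ⬝ᵥ (Pi.single i 1 : V) = 0 := by
      rw [hα, dotProduct_sum]
      exact Finset.sum_eq_zero fun l _ => by rw [dotProduct_smul, hcon l, smul_zero]
    simpa using h3
  have h3 : 0 < ∑ l, (w ⬝ᵥ g l) ^ 2 := by
    obtain ⟨l, hl⟩ := h2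
    exact Finset.sum_pos' (fun _ _ => sq_nonneg _) ⟨l, Finset.mem_univ l, by positivity⟩
  have h4 : Even (∑ l, (w ⬝ᵥ g l) ^ 2) := by
    have h5 : ∑ l, (w ⬝ᵥ g l) ^ 2 = ∑ l, (w ⬝ᵥ g l) * (w ⬝ᵥ g l - 1) := by
      have : ∑ l, (w ⬝ᵥ g l) * (w ⬝ᵥ g l - 1) = ∑ l, (w ⬝ᵥ g l) ^ 2 - ∑ l, w ⬝ᵥ g l := by
        rw [← Finset.sum_sub_distrib]
        exact Finset.sum_congr rfl fun l _ => by ring
      rw [this, h1, sub_zero]
    rw [h5]
    exact Finset.even_sum _ fun l _ => Int.even_mul_pred_self _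
  obtain ⟨k, hk⟩ := h4
  omega

/-- **Obtuse superbases have the smallest sum of squares.** -/
theorem En_min (hQ : Q.PosDef) {f : Fin 4 → V} (hf : Superbase f) (hobt : Obt Q f) {g : Fin 4 → V}
    (hg : Superbase g) : En Q f ≤ En Q g := by
  obtain ⟨u, hu⟩ := Pool.Agent.Helper82.TET.superb_of_superbase f hf
  obtain ⟨p, hp⟩ : ∃ p : Fin 6 → ℝ, p = fun s => -bil Q (f (pa s)) (f (pb s)) := ⟨_, rfl⟩
  have hp0 : ∀ s, 0 ≤ p s := fun s => by
    have h1 : ∀ s : Fin 6, pa s ≠ pb s := by decide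
    have := hobt (pa s) (pb s) (h1 s)
    rw [hp]
    simp only
    linarith
  have hex : ∀ x : V, bil Q x x = ∑ s, p s * ((rt u s ⬝ᵥ x : ℤ) : ℝ) ^ 2 := by
    intro x
    have h1 := Pool.Agent.Helper18.UBd.expand Q hQ f u hu (toR x) (toR x)
    unfold bil
    rw [h1, hp]
    refine Finset.sum_congr rfl fun s _ => ?_
    rw [Pool.Agent.Helper18.UBd.toR_dot]
    ring
  have hEn : ∀ h : Fin 4 → V, En Q h = ∑ s, p s * ((∑ l, (rt u s ⬝ᵥ h l) ^ 2 : ℤ) : ℝ) := by
    intro h
    unfold En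
    simp only [hex]
    rw [Finset.sum_comm]
    refine Finset.sum_congr rfl fun s _ => ?_
    rw [← Finset.mul_sum]
    push_cast
    rfl
  rw [hEn, hEn]
  refine Finset.sum_le_sum fun s _ => mul_le_mul_of_nonneg_left ?_ (hp0 s)
  have hne : pa s ≠ pb s := by
    revert s
    decide
  have h1 : ∑ l, (rt u s ⬝ᵥ f l) ^ 2 = 2 := by
    have h2 : ∀ l, rt u s ⬝ᵥ f l = (if pa s = l then 1 else 0) - (if pb s = l then 1 else 0) := fun l =>
      hu.2 (pa s) (pb s) l
    simp only [h2]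
    have h9 : ∀ s : Fin 6, ∑ l, ((if pa s = l then (1 : ℤ) else 0) - (if pb s = l then 1 else 0)) ^ 2 = 2 := by
      decide
    exact h9 s
  have h3 : rt u s ≠ 0 := Pool.Agent.Helper22.Sym.pot_ne f u hu (pa s) (pb s) hne
  have h4 := two_le hg h3
  rw [h1]
  exact_mod_cast h4

end

/-- a uniform lower bound for a path of positive definite forms -/
theorem unif_low (Q : ℝ → Matrix (Fin 3) (Fin 3) ℝ) (hc : ∀ i j, Continuous fun t => Q t i j)
    (hpd : ∀ t ∈ Set.Icc (0 : ℝ) 1, (Q t).PosDef) :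
    ∃ c : ℝ, 0 < c ∧ ∀ t ∈ Set.Icc (0 : ℝ) 1, ∀ x : Fin 3 → ℝ, c * ‖x‖ ^ 2 ≤ x ⬝ᵥ (Q t) *ᵥ x := by
  have hcont : Continuous fun p : ℝ × (Fin 3 → ℝ) => p.2 ⬝ᵥ (Q p.1) *ᵥ p.2 := by
    have h1 : ∀ i j, Continuous fun p : ℝ × (Fin 3 → ℝ) => Q p.1 i j := fun i j => (hc i j).comp continuous_fst
    simp only [dotProduct, mulVec, Fin.sum_univ_three]
    fun_prop
  have hcomp : IsCompact (Set.Icc (0 : ℝ) 1 ×ˢ Metric.sphere (0 : Fin 3 → ℝ) 1) :=
    isCompact_Icc.prod (isCompact_sphere _ _)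
  have hne : (Set.Icc (0 : ℝ) 1 ×ˢ Metric.sphere (0 : Fin 3 → ℝ) 1).Nonempty := by
    refine ⟨(0, fun _ => 1), ⟨le_refl _, zero_le_one⟩, ?_⟩
    rw [mem_sphere_zero_iff_norm]
    simp [pi_norm_const]
  obtain ⟨⟨t0, x0⟩, ⟨ht0, hx0⟩, hmin⟩ := hcomp.exists_isMinOn hne hcont.continuousOn
  have hx0n : ‖x0‖ = 1 := mem_sphere_zero_iff_norm.1 hx0
  have hx00 : x0 ≠ 0 := by
    intro h
    rw [h, norm_zero] at hx0n
    exact zero_ne_one hx0n
  have hpos : 0 < x0 ⬝ᵥ (Q t0) *ᵥ x0 := by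
    have := (hpd t0 ht0).dotProduct_mulVec_pos hx00
    simpa using this
  refine ⟨_, hpos, fun t ht x => ?_⟩
  by_cases hx : x = 0
  · rw [hx]
    simp
  · have hn : 0 < ‖x‖ := norm_pos_iff.2 hx
    have h1 : (t, ‖x‖⁻¹ • x) ∈ Set.Icc (0 : ℝ) 1 ×ˢ Metric.sphere (0 : Fin 3 → ℝ) 1 := by
      refine ⟨ht, ?_⟩
      rw [mem_sphere_zero_iff_norm, norm_smul, norm_inv, norm_norm, inv_mul_cancel₀ hn.ne']
    have h2 := hmin h1
    simp only [Set.mem_ofPred_eq] at h2
    have h3 : (‖x‖⁻¹ • x) ⬝ᵥ (Q t) *ᵥ (‖x‖⁻¹ • x) = (‖x‖ ^ 2)⁻¹ * (x ⬝ᵥ (Q t) *ᵥ x) := by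
      rw [Matrix.mulVec_smul, dotProduct_smul, smul_dotProduct, smul_eq_mul, smul_eq_mul]
      rw [← mul_assoc]
      congr 1
      rw [← mul_inv, sq]
    rw [h3] at h2
    have h4 := mul_le_mul_of_nonneg_left h2 (sq_nonneg ‖x‖)
    rw [← mul_assoc, mul_inv_cancel₀ (by positivity), one_mul] at h4
    linarith

theorem bil_cont {Q : ℝ → Matrix (Fin 3) (Fin 3) ℝ} (hc : ∀ i j, Continuous fun t => Q t i j) (x y : V) :
    Continuous fun t => bil (Q t) x y := by
  unfold bil
  simp only [dotProduct, mulVec, Fin.sum_univ_three]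
  fun_prop

/-- the superbases which are obtuse somewhere on the path -/
theorem finite_obt (Q : ℝ → Matrix (Fin 3) (Fin 3) ℝ) (hc : ∀ i j, Continuous fun t => Q t i j)
    (hpd : ∀ t ∈ Set.Icc (0 : ℝ) 1, (Q t).PosDef) :
    {f : Fin 4 → V | Superbase f ∧ ∃ t ∈ Set.Icc (0 : ℝ) 1, Obt (Q t) f}.Finite := by
  obtain ⟨c, hc0, hlow⟩ := unif_low Q hc hpd
  -- a fixed superbase
  have he : Superbase e4 := by
    refine ⟨by decide, fun z => ⟨![z 0, z 1, z 2, 0], ?_⟩⟩
    rw [Fin.sum_univ_four]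
    funext i
    fin_cases i <;> simp [e4]
  have hEc : Continuous fun t => En (Q t) e4 := by
    unfold En
    exact continuous_finsetSum _ fun l _ => bil_cont hc _ _
  obtain ⟨C, hC⟩ := (isCompact_Icc (a := (0 : ℝ)) (b := 1)).exists_bound_of_continuousOn hEc.continuousOn
  have hbd : ∀ f : Fin 4 → V, Superbase f → (∃ t ∈ Set.Icc (0 : ℝ) 1, Obt (Q t) f) → ∀ l k,
      |(f l k : ℝ)| ≤ C / c + 1 := by
    rintro f hf ⟨t, ht, hobt⟩ l k
    have h1 := En_min (hpd t ht) hf hobt he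
    have h2 := hC t ht
    rw [Real.norm_eq_abs] at h2
    have h3 := (le_abs_self _).trans h2
    have hnn : ∀ m, 0 ≤ bil (Q t) (f m) (f m) := fun m => by
      have := (hpd t ht).posSemidef.dotProduct_mulVec_nonneg (toR (f m))
      simpa [bil] using this
    have h4 : bil (Q t) (f l) (f l) ≤ En (Q t) f :=
      Finset.single_le_sum (f := fun m => bil (Q t) (f m) (f m)) (fun m _ => hnn m) (Finset.mem_univ l)
    have h5 := hlow t ht (toR (f l))
    have h6 : c * ‖toR (f l)‖ ^ 2 ≤ C := by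
      have : toR (f l) ⬝ᵥ (Q t) *ᵥ toR (f l) = bil (Q t) (f l) (f l) := rfl
      linarith
    have h7 : |(f l k : ℝ)| ≤ ‖toR (f l)‖ := norm_le_pi_norm (toR (f l)) k
    have h8 : ‖toR (f l)‖ ^ 2 ≤ C / c := by
      rw [le_div_iff₀ hc0]
      linarith
    nlinarith [norm_nonneg (toR (f l)), sq_nonneg (‖toR (f l)‖ - 1)]
  have hfin : {f : Fin 4 → V | ∀ l, f l ∈ {z : V | ∀ k, |(z k : ℝ)| ≤ C / c + 1}}.Finite :=
    Set.Finite.pi' fun _ => box_finite _
  exact hfin.subset fun f hf l k => hbd f hf.1 hf.2 l k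

/-- **Invariants along a path.**  A function of superbases which does not change under flips of obtuse superbases at
orthogonal pairs takes the same value at an obtuse superbase of `Q 0` and at some obtuse superbase of `Q 1`. -/
theorem path_inv {α : Type*} (Q : ℝ → Matrix (Fin 3) (Fin 3) ℝ) (hc : ∀ i j, Continuous fun t => Q t i j)
    (hpd : ∀ t ∈ Set.Icc (0 : ℝ) 1, (Q t).PosDef) (Inv : (Fin 4 → V) → α) (f0 : Fin 4 → V)
    (hf0 : Superbase f0) (h0 : Obt (Q 0) f0)
    (hflip : ∀ t ∈ Set.Icc (0 : ℝ) 1, ∀ f, Superbase f → Obt (Q t) f → ∀ a b, a ≠ b →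
      bil (Q t) (f a) (f b) = 0 → Inv (flip4 a b f) = Inv f) :
    ∃ f1, Superbase f1 ∧ Obt (Q 1) f1 ∧ Inv f1 = Inv f0 := by
  classical
  obtain ⟨F, hF⟩ : ∃ F : Set (Fin 4 → V), F = {f | (Superbase f ∧ ∃ t ∈ Set.Icc (0 : ℝ) 1, Obt (Q t) f) ∧
      Inv f = Inv f0} := ⟨_, rfl⟩
  have hFf : F.Finite := by
    rw [hF]
    exact (finite_obt Q hc hpd).subset fun f hf => hf.1
  obtain ⟨S, hS⟩ : ∃ S : Set ℝ, S = {t | ∃ f ∈ F, Obt (Q t) f} := ⟨_, rfl⟩
  have hobtc : ∀ f, IsClosed {t | Obt (Q t) f} := by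
    intro f
    have h1 : {t | Obt (Q t) f} = ⋂ l, ⋂ m, {t | l ≠ m → bil (Q t) (f l) (f m) ≤ 0} := by
      ext t
      simp only [Set.mem_iInter, Set.mem_ofPred_eq]
      exact Iff.rfl
    rw [h1]
    refine isClosed_iInter fun l => isClosed_iInter fun m => ?_
    by_cases hlm : l = m
    · have : {t | l ≠ m → bil (Q t) (f l) (f m) ≤ 0} = Set.univ := by
        ext t
        simp [hlm]
      rw [this]
      exact isClosed_univ
    · have : {t | l ≠ m → bil (Q t) (f l) (f m) ≤ 0} = {t | bil (Q t) (f l) (f m) ≤ 0} := by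
        ext t
        simp [hlm]
      rw [this]
      exact isClosed_le (bil_cont hc _ _) continuous_const
  have hSc : IsClosed S := by
    have h1 : S = ⋃ f ∈ F, {t | Obt (Q t) f} := by
      rw [hS]
      ext t
      simp only [Set.mem_iUnion, Set.mem_ofPred_eq, exists_prop]
    rw [h1]
    exact hFf.isClosed_biUnion fun f _ => hobtc f
  have h0S : (0 : ℝ) ∈ S := by
    rw [hS]
    refine ⟨f0, ?_, h0⟩
    rw [hF]
    exact ⟨⟨hf0, 0, ⟨le_refl _, zero_le_one⟩, h0⟩, rfl⟩
  have hsub : Set.Icc (0 : ℝ) 1 ⊆ S := by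
    refine (hSc.inter isClosed_Icc).Icc_subset_of_forall_exists_gt h0S ?_
    rintro t ⟨htS, ht0, ht1⟩ y hy
    have hty : t < y := hy
    have htI : t ∈ Set.Icc (0 : ℝ) 1 := ⟨ht0, ht1.le⟩
    -- the members of `F` which are obtuse at `t`
    obtain ⟨G, hG⟩ : ∃ G : Set (Fin 4 → V), G = {f | f ∈ F ∧ Obt (Q t) f} := ⟨_, rfl⟩
    have hGf : G.Finite := by
      rw [hG]
      exact hFf.subset fun f hf => hf.1
    have hGne : G.Nonempty := by
      rw [hS] at htS
      obtain ⟨f, hf, hfo⟩ := htS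
      exact ⟨f, by rw [hG]; exact ⟨hf, hfo⟩⟩
    -- near `t` the negative products stay negative
    have hev : ∀ᶠ y' in nhdsWithin t (Set.Ioi t), ∀ f ∈ G, ∀ a b, bil (Q t) (f a) (f b) < 0 →
        bil (Q y') (f a) (f b) < 0 := by
      have h1 : ∀ f ∈ G, ∀ᶠ y' in nhdsWithin t (Set.Ioi t), ∀ a b, bil (Q t) (f a) (f b) < 0 →
          bil (Q y') (f a) (f b) < 0 := by
        intro f _
        rw [Filter.eventually_all]
        intro a
        rw [Filter.eventually_all]
        intro b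
        by_cases h : bil (Q t) (f a) (f b) < 0
        · have h2 := (bil_cont hc (f a) (f b)).tendsto t
          have h3 := (h2.mono_left (nhdsWithin_le_nhds (s := Set.Ioi t))).eventually (Iio_mem_nhds h)
          exact h3.mono fun y' hy' _ => hy'
        · exact Filter.Eventually.of_forall fun y' h' => absurd h' h
      exact (hGf.eventually_all).2 h1
    have hev2 : ∀ᶠ y' in nhdsWithin t (Set.Ioi t), y' < min y 1 := by
      have h1 : t < min y 1 := lt_min hty ht1
      exact (Iio_mem_nhds h1 : Set.Iio (min y 1) ∈ nhds t) |> fun h => nhdsWithin_le_nhds h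
    obtain ⟨y', ⟨hneg, hy1⟩, hy0⟩ := ((hev.and hev2).and self_mem_nhdsWithin).exists
    have hy0' : t < y' := hy0
    have hyI : y' ∈ Set.Icc (0 : ℝ) 1 := ⟨by linarith, (hy1.le.trans (min_le_right _ _))⟩
    -- the member with the smallest sum of squares at `y'`
    obtain ⟨f, hfG, hmin⟩ := Set.exists_min_image G (fun f => En (Q y') f) hGf hGne
    have hfG' := hfG
    rw [hG] at hfG'
    obtain ⟨hfF, hfo⟩ := hfG'
    have hfF' := hfF
    rw [hF] at hfF'
    obtain ⟨⟨hsb, -⟩, hinv⟩ := hfF'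
    have hobt : Obt (Q y') f := by
      intro a b hab
      by_contra hcon
      push Not at hcon
      have h1 : bil (Q t) (f a) (f b) = 0 := by
        refine le_antisymm (hfo a b hab) ?_
        by_contra h2
        push Not at h2
        exact absurd (hneg f hfG a b h2) (not_lt.2 hcon.le)
      have h2 : flip4 a b f ∈ G := by
        rw [hG, hF]
        have h3 := flip_superbase hsb hab
        have h4 := flip_obt (hpd t htI) hsb.sum hfo hab h1
        exact ⟨⟨⟨h3, t, htI, h4⟩, (hflip t htI f hsb hfo a b hab h1).trans hinv⟩, h4⟩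
      have h3 := hmin _ h2
      have h4 := flip_En (hpd y' hyI) hsb.sum hab
      rw [h4] at h3
      linarith
    refine ⟨y', ?_, hy0', hy1.le.trans (min_le_left _ _)⟩
    rw [hS]
    exact ⟨f, hfF, hobt⟩
  have h1S := hsub ⟨zero_le_one, le_refl (1 : ℝ)⟩
  rw [hS] at h1S
  obtain ⟨f1, hf1, ho1⟩ := h1S
  rw [hF] at hf1
  exact ⟨f1, hf1.1.1, ho1, hf1.2⟩

end Pool.Agent.Helper20.PS
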