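import Mathlib
import Pool.Agent.Helper12.LW.Defs
import Pool.Agent.Helper84.FL.Geom

/-!
# Five facets as two circuits

The facets `g 0` (label `0`), `g 1, g 2, g 3` (labels `1, 2, 3`) and `vD g mu` (label `4`). The normals of the first
circuit have the sum zero and their heights the sum one; the second circuit consists of `mu i • g i.succ` and `vD g mu`,
again with sum zero and with heights of sum one.
-/

set_option autoImplicit false

namespace Pool.Agent.Helper20.PS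

open Matrix
open Pool.Agent.Helper12.LW (LFree toR)

/-- the normal of the fifth facet -/
def vD (g : Fin 4 → Fin 3 → ℝ) (mu : Fin 3 → ℝ) : Fin 3 → ℝ := -∑ i, mu i • g i.succ

/-- the height of the fifth facet -/
def bD (b : Fin 4 → ℝ) (mu : Fin 3 → ℝ) : ℝ := 1 - ∑ i, mu i * b i.succ

/-- the body `K` lies in a polytope with the facets `g 0, g 1, g 2, g 3, vD g mu` whose interior contains no lattice
point -/
structure Two (K : Set (Fin 3 → ℝ)) (W : ℝ) (g : Fin 4 → Fin 3 → ℝ) (b : Fin 4 → ℝ) (mu : Fin 3 → ℝ) : Prop where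
  free : LFree K
  wide : ∀ r : Fin 3 → ℤ, r ≠ 0 → ∃ x ∈ K, ∃ x' ∈ K, W < toR r ⬝ᵥ (x - x')
  sum_g : ∑ j, g j = 0
  sum_b : ∑ j, b j = 1
  span : ∀ m : Fin 3 → ℝ, ∃ a : Fin 4 → ℝ, ∑ j, a j • g j = m
  mu_pos : ∀ i, 0 < mu i
  sub : ∀ j, ∀ x ∈ K, g j ⬝ᵥ x ≤ b j
  subD : ∀ x ∈ K, vD g mu ⬝ᵥ x ≤ bD b mu
  cover : ∀ z : Fin 3 → ℤ, (∃ j, b j ≤ g j ⬝ᵥ toR z) ∨ bD b mu ≤ vD g mu ⬝ᵥ toR z

end Pool.Agent.Helper20.PS
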