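import Pool.Agent.Helper20.PS.Path
import Pool.Agent.Helper20.PS.Two
import Pool.Agent.Helper65.FIVE.Bridge
import Pool.Agent.Helper1.FIVE.OState
import Pool.Agent.Helper21.WALL.Wall2
import Pool.Agent.Helper38.TET.Tet

/-!
# From two circuits to the wall state
-/

set_option autoImplicit false

namespace Pool.Agent.Helper20.PS

open Matrix
open Pool.Agent.Helper12.LW (LFree toR)
open Pool.Agent.Helper84.FL (Superbase WidthLe)
open Pool.Agent.Helper22.Sym (bil)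
open Pool.Agent.Helper1.FIVE (frm li Five octp OneP OState)
open Pool.Agent.Helper65.FIVE (NN NN_perm NN_exists NN_parity FinNear flipF octD flip_compare mrg sw Dv R)
open Pool.Agent.Helper38.TET (OChain)

/-! ### the matrix of the form -/

/-- the matrix of the form -/
noncomputable def QM (κ : ℝ) (n : Fin 3 → Fin 3 → ℝ) (nC nD : Fin 3 → ℝ) : Matrix (Fin 3) (Fin 3) ℝ :=
  Matrix.of fun a c => ∑ i, n i a * n i c + nC a * nC c + nD a * nD c + κ * (nC a * nD c + nD a * nC c)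

theorem QM_form (κ : ℝ) (n : Fin 3 → Fin 3 → ℝ) (nC nD x y : Fin 3 → ℝ) :
    x ⬝ᵥ QM κ n nC nD *ᵥ y = frm κ n nC nD x y := by
  simp only [QM, frm, dotProduct, mulVec, Matrix.of_apply, Fin.sum_univ_three]
  ring

theorem bil_QM (κ : ℝ) (n : Fin 3 → Fin 3 → ℝ) (nC nD : Fin 3 → ℝ) (x y : V) :
    bil (QM κ n nC nD) x y = frm κ n nC nD (toR x) (toR y) := QM_form κ n nC nD (toR x) (toR y)

theorem QM_posDef {κ : ℝ} (h0 : 0 ≤ κ) (h1 : κ ≤ 1) {n : Fin 3 → Fin 3 → ℝ} {nC nD : Fin 3 → ℝ}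
    (hn : ∀ x : Fin 3 → ℝ, (∀ i, n i ⬝ᵥ x = 0) → x = 0) : (QM κ n nC nD).PosDef := by
  rw [Matrix.posDef_iff_dotProduct_mulVec]
  refine ⟨?_, fun {x} hx => ?_⟩
  · unfold Matrix.IsHermitian
    ext a c
    simp only [QM, Matrix.conjTranspose_apply, Matrix.of_apply, star_trivial]
    have : ∑ i, n i c * n i a = ∑ i, n i a * n i c := Finset.sum_congr rfl fun i _ => mul_comm _ _
    rw [this]
    ring
  · have h2 : star x ⬝ᵥ QM κ n nC nD *ᵥ x = frm κ n nC nD x x := by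
      have : star x = x := by
        funext i
        simp
      rw [this, QM_form]
    rw [h2]
    unfold frm
    have h3 : 0 ≤ ∑ i, (n i ⬝ᵥ x) * (n i ⬝ᵥ x) := Finset.sum_nonneg fun j _ => mul_self_nonneg _
    have h4 : 0 < ∑ i, (n i ⬝ᵥ x) * (n i ⬝ᵥ x) := by
      refine lt_of_le_of_ne h3 fun h => hx (hn x fun i => ?_)
      have := (Finset.sum_eq_zero_iff_of_nonneg fun j _ => mul_self_nonneg (n j ⬝ᵥ x)).1 h.symm i
        (Finset.mem_univ i)
      exact mul_self_eq_zero.1 this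
    have h5 := mul_nonneg h0 (mul_self_nonneg (nC ⬝ᵥ x + nD ⬝ᵥ x))
    have h6 := mul_nonneg (sub_nonneg.2 h1) (add_nonneg (mul_self_nonneg (nC ⬝ᵥ x)) (mul_self_nonneg (nD ⬝ᵥ x)))
    linarith

/-! ### the data at the time `t` -/

/-- the factor of the facet `i` -/
def cf (mu : Fin 3 → ℝ) (t : ℝ) (i : Fin 3) : ℝ := (1 - t) + t * mu i

theorem cf_pos {mu : Fin 3 → ℝ} (hmu : ∀ i, 0 < mu i) {t : ℝ} (ht : t ∈ Set.Icc (0 : ℝ) 1) (i : Fin 3) :
    0 < cf mu t i := by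
  unfold cf
  rcases eq_or_lt_of_le ht.1 with h | h
  · rw [← h]
    norm_num
  · have h1 := mul_pos h (hmu i)
    have h2 := ht.2
    linarith

/-- the three common normals -/
def nT (g : Fin 4 → Fin 3 → ℝ) (mu : Fin 3 → ℝ) (t : ℝ) : Fin 3 → Fin 3 → ℝ := fun i => cf mu t i • g i.succ

/-- their heights -/
def bT (b : Fin 4 → ℝ) (mu : Fin 3 → ℝ) (t : ℝ) : Fin 3 → ℝ := fun i => cf mu t i * b i.succ

/-- the part of the facet `D` -/
noncomputable def rT (mu : Fin 3 → ℝ) (t : ℝ) : Fin 3 → ℝ := fun i => t * mu i / cf mu t i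

open Classical in
/-- the first violated facet in the order `1, 2, 3, 0, 4` -/
noncomputable def lab5 (g : Fin 4 → Fin 3 → ℝ) (b : Fin 4 → ℝ) (z : V) : Fin 5 :=
  if b 1 ≤ g 1 ⬝ᵥ toR z then 1 else if b 2 ≤ g 2 ⬝ᵥ toR z then 2 else if b 3 ≤ g 3 ⬝ᵥ toR z then 3 else
    if b 0 ≤ g 0 ⬝ᵥ toR z then 0 else 4

theorem lab5_i {g : Fin 4 → Fin 3 → ℝ} {b : Fin 4 → ℝ} {z : V} (i : Fin 3) (h : lab5 g b z = li i) :
    b i.succ ≤ g i.succ ⬝ᵥ toR z := by
  unfold lab5 at h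
  by_cases h1 : b 1 ≤ g 1 ⬝ᵥ toR z
  · rw [if_pos h1] at h
    fin_cases i
    · exact h1
    · exact absurd h (by decide)
    · exact absurd h (by decide)
  rw [if_neg h1] at h
  by_cases h2 : b 2 ≤ g 2 ⬝ᵥ toR z
  · rw [if_pos h2] at h
    fin_cases i
    · exact absurd h (by decide)
    · exact h2
    · exact absurd h (by decide)
  rw [if_neg h2] at h
  by_cases h3 : b 3 ≤ g 3 ⬝ᵥ toR z
  · rw [if_pos h3] at h
    fin_cases i
    · exact absurd h (by decide)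
    · exact absurd h (by decide)
    · exact h3
  rw [if_neg h3] at h
  split_ifs at h <;> exact absurd h (by revert i; decide)

theorem lab5_out {g : Fin 4 → Fin 3 → ℝ} {b : Fin 4 → ℝ} {z : V} (h : lab5 g b z = 0 ∨ lab5 g b z = 4) (i : Fin 3) :
    g i.succ ⬝ᵥ toR z < b i.succ := by
  unfold lab5 at h
  by_cases h1 : b 1 ≤ g 1 ⬝ᵥ toR z
  · rw [if_pos h1] at h
    exact absurd h (by decide)
  rw [if_neg h1] at h
  by_cases h2 : b 2 ≤ g 2 ⬝ᵥ toR z
  · rw [if_pos h2] at h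
    exact absurd h (by decide)
  rw [if_neg h2] at h
  by_cases h3 : b 3 ≤ g 3 ⬝ᵥ toR z
  · rw [if_pos h3] at h
    exact absurd h (by decide)
  fin_cases i
  · exact not_le.1 h1
  · exact not_le.1 h2
  · exact not_le.1 h3

theorem lab5_0 {g : Fin 4 → Fin 3 → ℝ} {b : Fin 4 → ℝ} {z : V} (h : lab5 g b z = 0) :
    b 0 ≤ g 0 ⬝ᵥ toR z := by
  unfold lab5 at h
  split_ifs at h with h1 h2 h3 h4
  · exact absurd h (by decide)
  · exact absurd h (by decide)
  · exact absurd h (by decide)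
  · exact h4
  · exact absurd h (by decide)

theorem lab5_4 {g : Fin 4 → Fin 3 → ℝ} {b : Fin 4 → ℝ} {z : V} (h : lab5 g b z = 4) :
    g 0 ⬝ᵥ toR z < b 0 := by
  unfold lab5 at h
  split_ifs at h with h1 h2 h3 h4
  · exact absurd h (by decide)
  · exact absurd h (by decide)
  · exact absurd h (by decide)
  · exact absurd h (by decide)
  · exact not_le.1 h4

section

variable {K : Set (Fin 3 → ℝ)} {W : ℝ} {g : Fin 4 → Fin 3 → ℝ} {b : Fin 4 → ℝ} {mu : Fin 3 → ℝ}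

theorem Two.lab5_D (h : Two K W g b mu) {z : V} (hz : lab5 g b z = 4) : bD b mu ≤ vD g mu ⬝ᵥ toR z := by
  rcases h.cover z with ⟨j, hj⟩ | h1
  · exfalso
    revert hj
    rw [imp_false, not_le]
    revert j
    intro j
    refine Fin.cases ?_ (fun i => ?_) j
    · exact lab5_4 hz
    · exact lab5_out (Or.inr hz) i
  · exact h1

/-- the normals separate points -/
theorem Two.nT_sep (h : Two K W g b mu) {t : ℝ} (ht : t ∈ Set.Icc (0 : ℝ) 1) (x : Fin 3 → ℝ)
    (hx : ∀ i, nT g mu t i ⬝ᵥ x = 0) : x = 0 := by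
  have h1 : ∀ i : Fin 3, g i.succ ⬝ᵥ x = 0 := fun i => by
    have := hx i
    rw [nT, smul_dotProduct, smul_eq_mul] at this
    exact (mul_eq_zero.1 this).resolve_left (cf_pos h.mu_pos ht i).ne'
  have h2 : g 0 ⬝ᵥ x = 0 := by
    have h3 := h.sum_g
    rw [Fin.sum_univ_succ] at h3
    rw [eq_neg_of_add_eq_zero_left h3, neg_dotProduct, sum_dotProduct, Finset.sum_eq_zero fun i _ => h1 i, neg_zero]
  obtain ⟨a, ha⟩ := h.span x
  have h3 : x ⬝ᵥ x = 0 := by
    conv_lhs =>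
      lhs
      rw [← ha]
    rw [sum_dotProduct]
    refine Finset.sum_eq_zero fun j _ => ?_
    rw [smul_dotProduct, smul_eq_mul]
    refine Fin.cases ?_ (fun i => ?_) j
    · rw [h2, mul_zero]
    · rw [h1, mul_zero]
  exact dotProduct_self_eq_zero.1 h3

/-- the five planes at the time `t` -/
theorem Two.five (h : Two K W g b mu) {t : ℝ} (ht : t ∈ Set.Icc (0 : ℝ) 1) :
    Five K W (nT g mu t) ((1 - t) • g 0) (t • vD g mu) (bT b mu t) ((1 - t) * b 0) (t * bD b mu) (rT mu t)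
      (lab5 g b) := by
  have hc := cf_pos h.mu_pos ht
  have ht0 := ht.1
  have ht1 : 0 ≤ 1 - t := by
    have := ht.2
    linarith
  refine ⟨h.wide, ?_, ?_, ?_, ?_, ?_, ?_, ?_, ?_, ?_, ?_, ?_, h.nT_sep ht⟩
  · have h1 := h.sum_g
    rw [Fin.sum_univ_succ] at h1
    have h2 : ∑ i, nT g mu t i = (1 - t) • ∑ i : Fin 3, g i.succ + t • ∑ i, mu i • g i.succ := by
      rw [Finset.smul_sum, Finset.smul_sum, ← Finset.sum_add_distrib]
      refine Finset.sum_congr rfl fun i _ => ?_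
      rw [nT, cf, add_smul, mul_smul]
    have h3 : g 0 = -∑ i : Fin 3, g i.succ := eq_neg_of_add_eq_zero_left h1
    rw [h2, vD, h3, smul_neg, smul_neg]
    abel
  · have h1 := h.sum_b
    rw [Fin.sum_univ_succ] at h1
    have h2 : ∑ i, bT b mu t i = (1 - t) * ∑ i : Fin 3, b i.succ + t * ∑ i, mu i * b i.succ := by
      rw [Finset.mul_sum, Finset.mul_sum, ← Finset.sum_add_distrib]
      refine Finset.sum_congr rfl fun i _ => ?_
      rw [bT, cf]
      ring
    rw [h2, bD]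
    linear_combination (1 - t) * h1
  · intro i
    exact div_nonneg (mul_nonneg ht0 (h.mu_pos i).le) (hc i).le
  · intro i
    rw [rT, div_le_one (hc i), cf]
    linarith
  · rw [vD, smul_neg, Finset.smul_sum]
    congr 1
    refine Finset.sum_congr rfl fun i _ => ?_
    rw [rT, nT, smul_smul, smul_smul, div_mul_cancel₀ _ (hc i).ne']
  · intro x hx i
    rw [nT, bT, smul_dotProduct, smul_eq_mul]
    exact mul_le_mul_of_nonneg_left (h.sub _ x hx) (hc i).le
  · intro x hx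
    rw [smul_dotProduct, smul_eq_mul]
    exact mul_le_mul_of_nonneg_left (h.sub _ x hx) ht1
  · intro x hx
    rw [smul_dotProduct, smul_eq_mul]
    exact mul_le_mul_of_nonneg_left (h.subD x hx) ht0
  · intro z i hz
    rw [nT, bT, smul_dotProduct, smul_eq_mul]
    exact mul_le_mul_of_nonneg_left (lab5_i i hz) (hc i).le
  · intro z hz
    refine ⟨?_, fun i => ?_⟩
    · rw [smul_dotProduct, smul_eq_mul]
      exact mul_le_mul_of_nonneg_left (lab5_0 hz) ht1
    · rw [nT, bT, smul_dotProduct, smul_eq_mul]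
      exact mul_le_mul_of_nonneg_left (lab5_out (Or.inl hz) i).le (hc i).le
  · intro z hz
    refine ⟨?_, fun i => ?_⟩
    · rw [smul_dotProduct, smul_eq_mul]
      exact mul_le_mul_of_nonneg_left (h.lab5_D hz) ht0
    · rw [nT, bT, smul_dotProduct, smul_eq_mul]
      exact mul_le_mul_of_nonneg_left (lab5_out (Or.inr hz) i).le (hc i).le

theorem Two.coh (h : Two K W g b mu) : Coh g (fun z => mrg (lab5 g b z)) (∑ j, |b j|) := by
  intro z
  have hb : ∀ j, -∑ j, |b j| ≤ b j := fun j => by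
    have h1 : |b j| ≤ ∑ j, |b j| := Finset.single_le_sum (f := fun j => |b j|) (fun _ _ => abs_nonneg _) (Finset.mem_univ j)
    have h2 := neg_abs_le (b j)
    linarith
  have hrr : (rr z) = toR z := rfl
  rw [hrr]
  have hcase : ∀ l : Fin 5, l = 0 ∨ l = 4 ∨ l = li 0 ∨ l = li 1 ∨ l = li 2 := by decide
  rcases hcase (lab5 g b z) with h1 | h1 | h1 | h1 | h1
  · have h2 := lab5_0 h1
    show _ ≤ g (mrg (lab5 g b z)) ⬝ᵥ toR z
    rw [h1]
    exact (hb 0).trans h2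
  · show _ ≤ g (mrg (lab5 g b z)) ⬝ᵥ toR z
    rw [h1]
    show _ ≤ g 0 ⬝ᵥ toR z
    have h3 := h.sum_g
    rw [Fin.sum_univ_succ] at h3
    rw [eq_neg_of_add_eq_zero_left h3, neg_dotProduct, sum_dotProduct]
    have h4 : ∑ i : Fin 3, g i.succ ⬝ᵥ toR z ≤ ∑ j, |b j| := by
      have h5 : ∑ i : Fin 3, g i.succ ⬝ᵥ toR z ≤ ∑ i : Fin 3, |b i.succ| :=
        Finset.sum_le_sum fun i _ => (lab5_out (Or.inr h1) i).le.trans (le_abs_self _)
      have h6 : ∑ j, |b j| = |b 0| + ∑ i : Fin 3, |b i.succ| := Fin.sum_univ_succ _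
      have h7 := abs_nonneg (b 0)
      linarith
    linarith
  · have h2 := lab5_i 0 h1
    show _ ≤ g (mrg (lab5 g b z)) ⬝ᵥ toR z
    rw [h1]
    exact (hb 1).trans h2
  · have h2 := lab5_i 1 h1
    show _ ≤ g (mrg (lab5 g b z)) ⬝ᵥ toR z
    rw [h1]
    exact (hb 2).trans h2
  · have h2 := lab5_i 2 h1
    show _ ≤ g (mrg (lab5 g b z)) ⬝ᵥ toR z
    rw [h1]
    exact (hb 3).trans h2

end

/-! ### chains behind all facets -/

theorem perm_superbase {f : Fin 4 → V} (hf : Superbase f) (σ : Equiv.Perm (Fin 4)) :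
    Superbase fun l => f (σ l) := by
  refine ⟨?_, fun z => ?_⟩
  · rw [Equiv.sum_comp σ f]
    exact hf.sum
  · obtain ⟨a, ha⟩ := hf.span z
    refine ⟨fun l => a (σ l), ?_⟩
    rw [ha]
    exact (Equiv.sum_comp σ fun l => a l • f l).symm

/-- a superbase without a chain behind all facets -/
theorem NN_zero (thmA : ∀ (K : Set (Fin 3 → ℝ)) (f P : Fin 4 → Fin 3 → ℤ) (g : Fin 4 → Fin 3 → ℝ), LFree K →
      OChain K f P g → (∀ m : Fin 3 → ℝ, ∃ a : Fin 4 → ℝ, ∑ j, a j • g j = m) → WidthLe K (2 + Real.sqrt 2))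
    {K : Set (Fin 3 → ℝ)} (hK : LFree K) (hw : ¬ WidthLe K (2 + Real.sqrt 2)) {g : Fin 4 → Fin 3 → ℝ}
    {b : Fin 4 → ℝ} (hg : ∑ j, g j = 0) (hb : ∑ j, b j = 1)
    (span : ∀ m : Fin 3 → ℝ, ∃ a : Fin 4 → ℝ, ∑ j, a j • g j = m) (sub : ∀ j, ∀ x ∈ K, g j ⬝ᵥ x ≤ b j)
    {lab : V → Fin 5} (hlab : ∀ (z : V) (j : Fin 4), lab z = j.castSucc → b j ≤ g j ⬝ᵥ toR z)
    {f : Fin 4 → V} (hf : Superbase f)
    (obt : ∀ l m, l ≠ m → ∑ j, (g j ⬝ᵥ toR (f l)) * (g j ⬝ᵥ toR (f m)) ≤ 0) : NN lab f = 0 := by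
  classical
  by_contra hne
  obtain ⟨z, σ, -, hi⟩ := NN_exists hne
  obtain ⟨P, hP⟩ : ∃ P : Fin 4 → V, P = ![z, z + f (σ 0), z + f (σ 0) + f (σ 1), z + f (σ 0) + f (σ 1) + f (σ 2)] :=
    ⟨_, rfl⟩
  have hex : ∀ j : Fin 4, ∃ k : Fin 4, lab (P k) = j.castSucc := by
    intro j
    have hj : (j.castSucc : Fin 5) ≠ 4 := by
      revert j
      decide
    rcases hi j.castSucc hj with h | h | h | h
    · exact ⟨0, by rw [hP]; exact h⟩
    · exact ⟨1, by rw [hP]; exact h⟩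
    · exact ⟨2, by rw [hP]; exact h⟩
    · exact ⟨3, by rw [hP]; exact h⟩
  choose k hk using hex
  have hinj : Function.Injective k := by
    intro i j hij
    have h1 := hk i
    rw [hij, hk j] at h1
    exact (Fin.castSucc_injective 4 h1).symm
  have hbij : Function.Bijective k := Finite.injective_iff_bijective.1 hinj
  obtain ⟨τ, hτ⟩ : ∃ τ : Equiv.Perm (Fin 4), τ = Equiv.ofBijective k hbij := ⟨_, rfl⟩
  have hτk : ∀ j, τ j = k j := fun j => by
    rw [hτ]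
    rfl
  have hlabP : ∀ m, lab (P m) = (τ.symm m).castSucc := by
    intro m
    have h1 := hk (τ.symm m)
    rw [← hτk, Equiv.apply_symm_apply] at h1
    exact h1
  have hσ : f (σ 0) + f (σ 1) + f (σ 2) + f (σ 3) = 0 := by
    have h1 := Equiv.sum_comp σ f
    rw [hf.sum, Fin.sum_univ_four] at h1
    exact h1
  apply hw
  refine Pool.Agent.Helper21.WALL.thmA_out thmA (f := fun l => f (σ l)) (P := P) (g := fun m => g (τ.symm m))
    (b := fun m => b (τ.symm m)) hK (perm_superbase hf σ) ?_ ?_ ?_ ?_ ?_ ?_ ?_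
  · intro l
    rw [hP]
    fin_cases l
    · rfl
    · rfl
    · rfl
    · show z = z + f (σ 0) + f (σ 1) + f (σ 2) + f (σ 3)
      have : z + f (σ 0) + f (σ 1) + f (σ 2) + f (σ 3) = z + (f (σ 0) + f (σ 1) + f (σ 2) + f (σ 3)) := by abel
      rw [this, hσ, add_zero]
  · rw [Equiv.sum_comp τ.symm g]
    exact hg
  · rw [Equiv.sum_comp τ.symm b]
    exact hb
  · intro m
    obtain ⟨a, ha⟩ := span m
    refine ⟨fun j => a (τ.symm j), ?_⟩
    rw [← ha]
    exact Equiv.sum_comp τ.symm fun j => a j • g j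
  · intro j x hx
    exact sub _ x hx
  · intro j
    exact hlab _ _ (hlabP j)
  · intro l m hlm
    have h1 := obt (σ l) (σ m) fun h => hlm (σ.injective h)
    have h2 := Equiv.sum_comp τ.symm fun j => (g j ⬝ᵥ toR (f (σ l))) * (g j ⬝ᵥ toR (f (σ m)))
    exact h2.le.trans h1

/-! ### the odd octahedron -/

/-- the five tetrahedra of a pyramid -/
def S5 (s0 s1 s2 s3 p : Fin 5) : ZMod 2 :=
  R s0 s1 s2 p + R s0 s3 s2 p + R s1 s0 s3 p + R s1 s2 s3 p + R s0 s1 s2 s3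

theorem S5_eq : ∀ s0 s1 s2 s3 p : Fin 5,
    S5 s0 s1 s2 s3 p = if Function.Injective ![s0, s1, s2, s3, p] then 1 else 0 := by
  decide +kernel

theorem Dv_eq (s0 s1 s2 s3 p q : Fin 5) : Dv s0 s1 s2 s3 p q = S5 s0 s1 s2 s3 p + S5 s0 s1 s2 s3 q := by
  unfold Dv S5
  have h2 : ∀ y : ZMod 2, y + y = 0 := CharTwo.add_self_eq_zero
  linear_combination -h2 (R s0 s1 s2 s3)

theorem oneP_of_Dv (l : Fin 6 → Fin 5) (h : Dv (l 0) (l 1) (l 2) (l 3) (l 4) (l 5) ≠ 0) : OneP l := by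
  rw [Dv_eq, S5_eq, S5_eq] at h
  unfold OneP
  by_cases h1 : Function.Injective ![l 0, l 1, l 2, l 3, l 4] <;>
    by_cases h2 : Function.Injective ![l 0, l 1, l 2, l 3, l 5]
  · rw [if_pos h1, if_pos h2] at h
    exact absurd (by decide) h
  · exact Or.inl ⟨h1, h2⟩
  · exact Or.inr ⟨h1, h2⟩
  · rw [if_neg h1, if_neg h2] at h
    exact absurd (by decide) h

/-- a permutation which begins with two given indices -/
theorem exists_perm4 : ∀ a b : Fin 4, a ≠ b → ∃ σ : Equiv.Perm (Fin 4), σ 0 = a ∧ σ 1 = b := by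
  decide +kernel

theorem flipF_perm (f : Fin 4 → V) {a b : Fin 4} (σ : Equiv.Perm (Fin 4)) (h0 : σ 0 = a) (h1 : σ 1 = b) :
    flipF (fun l => f (σ l)) = fun l => flip4 a b f (σ l) := by
  have h20 : σ 2 ≠ a := by
    rw [← h0]
    exact fun h => absurd (σ.injective h) (by decide)
  have h21 : σ 2 ≠ b := by
    rw [← h1]
    exact fun h => absurd (σ.injective h) (by decide)
  have h30 : σ 3 ≠ a := by
    rw [← h0]
    exact fun h => absurd (σ.injective h) (by decide)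
  have h31 : σ 3 ≠ b := by
    rw [← h1]
    exact fun h => absurd (σ.injective h) (by decide)
  have hba : b ≠ a := by
    rw [← h0, ← h1]
    exact fun h => absurd (σ.injective h) (by decide)
  funext l
  fin_cases l
  · show -f (σ 0) = flip4 a b f (σ 0)
    rw [h0, flip4, if_pos rfl]
  · show f (σ 1) = flip4 a b f (σ 1)
    rw [h1, flip4, if_neg hba, if_pos rfl]
  · show f (σ 2) + f (σ 0) = flip4 a b f (σ 2)
    rw [flip4, if_neg h20, if_neg h21, h0]
  · show f (σ 3) + f (σ 0) = flip4 a b f (σ 3)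
    rw [flip4, if_neg h30, if_neg h31, h0]

/-- **The odd octahedron on any path of forms** from the form of the first circuit to the form of the second
circuit. -/
theorem exists_wall (thmA : ∀ (K : Set (Fin 3 → ℝ)) (f P : Fin 4 → Fin 3 → ℤ) (g : Fin 4 → Fin 3 → ℝ), LFree K →
      OChain K f P g → (∀ m : Fin 3 → ℝ, ∃ a : Fin 4 → ℝ, ∑ j, a j • g j = m) → WidthLe K (2 + Real.sqrt 2))
    {K : Set (Fin 3 → ℝ)} {g : Fin 4 → Fin 3 → ℝ} {b : Fin 4 → ℝ} {mu : Fin 3 → ℝ}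
    (h : Two K (2 + Real.sqrt 2) g b mu) (Q : ℝ → Matrix (Fin 3) (Fin 3) ℝ)
    (hQc : ∀ i j, Continuous fun t => Q t i j) (hQp : ∀ t ∈ Set.Icc (0 : ℝ) 1, (Q t).PosDef)
    (hQ0 : ∀ x y : V, bil (Q 0) x y = ∑ j, (g j ⬝ᵥ toR x) * (g j ⬝ᵥ toR y))
    (hQ1 : ∀ x y : V, bil (Q 1) x y = (vD g mu ⬝ᵥ toR x) * (vD g mu ⬝ᵥ toR y) +
      ∑ i : Fin 3, (mu i * (g i.succ ⬝ᵥ toR x)) * (mu i * (g i.succ ⬝ᵥ toR y))) :
    ∃ t ∈ Set.Icc (0 : ℝ) 1, ∃ (f : Fin 4 → V) (x : V), Superbase f ∧ Obt (Q t) f ∧ bil (Q t) (f 0) (f 1) = 0 ∧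
      OneP fun i => lab5 g b (octp f x i) := by
  by_contra hcon
  push Not at hcon
  have hw : ¬ WidthLe K (2 + Real.sqrt 2) := by
    rintro ⟨y, hy, hle⟩
    obtain ⟨x, hx, x', hx', hlt⟩ := h.wide y hy
    have h2 := hle x hx x' hx'
    have h3 : toR y ⬝ᵥ (x - x') = ∑ i, (x i - x' i) * (y i : ℝ) := by
      simp only [dotProduct, toR, Pi.sub_apply]
      exact Finset.sum_congr rfl fun i _ => mul_comm _ _
    rw [h3] at hlt
    exact absurd h2 (not_le.2 hlt)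
  have hfin : FinNear (lab5 g b) := Pool.Agent.Helper65.FIVE.finNear_of_coh h.sum_g h.span h.coh
  have hflip : ∀ t ∈ Set.Icc (0 : ℝ) 1, ∀ f, Superbase f → Obt (Q t) f → ∀ a b', a ≠ b' →
      bil (Q t) (f a) (f b') = 0 → NN (lab5 g b) (flip4 a b' f) = NN (lab5 g b) f := by
    intro t ht f hf hobt a b' hab hbil
    obtain ⟨σ, hσ0, hσ1⟩ := exists_perm4 a b' hab
    by_contra hne
    have h2 : NN (lab5 g b) (fun l => f (σ l)) ≠ NN (lab5 g b) (flipF fun l => f (σ l)) := by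
      rw [flipF_perm f σ hσ0 hσ1, NN_perm, NN_perm]
      exact fun h => hne h.symm
    obtain ⟨x, hx⟩ := flip_compare hfin (fun l => f (σ l)) (perm_superbase hf σ).sum h2
    refine hcon t ht (fun l => f (σ l)) x (perm_superbase hf σ) ?_ ?_ ?_
    · exact fun l m hlm => hobt (σ l) (σ m) fun h => hlm (σ.injective h)
    · rw [← hσ0, ← hσ1] at hbil
      exact hbil
    · exact oneP_of_Dv _ hx
  -- the start
  have m0 : (0 : ℝ) ∈ Set.Icc (0 : ℝ) 1 := ⟨le_refl _, zero_le_one⟩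
  have m1 : (1 : ℝ) ∈ Set.Icc (0 : ℝ) 1 := ⟨zero_le_one, le_refl _⟩
  obtain ⟨f0, u0, hfu0, hob0⟩ := Pool.Agent.Helper22.Sym.selling (Q 0) (hQp 0 m0)
  have hf0 := Pool.Agent.Helper82.TET.superbase_of_superb f0 u0 hfu0
  obtain ⟨f1, hf1, hob1, hN⟩ := path_inv Q hQc hQp (NN (lab5 g b)) f0 hf0 hob0 hflip
  have e0 : NN (lab5 g b) f0 = 0 := by
    refine NN_zero thmA h.free hw h.sum_g h.sum_b h.span h.sub ?_ hf0 ?_
    · intro z j
      refine Fin.cases ?_ (fun i => ?_) j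
      · intro hz
        exact lab5_0 hz
      · intro hz
        have hli : ∀ i : Fin 3, (i.succ.castSucc : Fin 5) = li i := by decide
        exact lab5_i i (hz.trans (hli i))
    · intro l m hlm
      rw [← hQ0]
      exact hob0 l m hlm
  -- the end
  have e1 : NN (fun z => sw (lab5 g b z)) f1 = 0 := by
    refine NN_zero thmA h.free hw (g := Fin.cons (vD g mu) fun i : Fin 3 => mu i • g i.succ)
      (b := Fin.cons (bD b mu) fun i : Fin 3 => mu i * b i.succ) ?_ ?_ ?_ ?_ ?_ hf1 ?_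
    · rw [Fin.sum_univ_succ]
      simp only [Fin.cons_zero, Fin.cons_succ, vD]
      abel
    · rw [Fin.sum_univ_succ]
      simp only [Fin.cons_zero, Fin.cons_succ, bD]
      ring
    · intro m
      obtain ⟨a, ha⟩ := h.span m
      refine ⟨Fin.cons 0 fun i : Fin 3 => (a i.succ - a 0) / mu i, ?_⟩
      rw [Fin.sum_univ_succ]
      simp only [Fin.cons_zero, Fin.cons_succ, zero_smul, zero_add, smul_smul]
      have h2 : ∀ i : Fin 3, (a i.succ - a 0) / mu i * mu i = a i.succ - a 0 := fun i =>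
        div_mul_cancel₀ _ (h.mu_pos i).ne'
      simp only [h2]
      have h3 := h.sum_g
      rw [Fin.sum_univ_succ] at h3
      have h4 : m = a 0 • g 0 + ∑ i : Fin 3, a i.succ • g i.succ := by
        rw [← ha]
        exact Fin.sum_univ_succ _
      rw [h4, eq_neg_of_add_eq_zero_left h3, smul_neg, Finset.smul_sum]
      simp only [sub_smul, Finset.sum_sub_distrib]
      abel
    · intro j x hx
      refine Fin.cases ?_ (fun i => ?_) j
      · exact h.subD x hx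
      · simp only [Fin.cons_succ, smul_dotProduct, smul_eq_mul]
        exact mul_le_mul_of_nonneg_left (h.sub _ x hx) (h.mu_pos i).le
    · intro z j
      refine Fin.cases ?_ (fun i => ?_) j
      · intro hz
        simp only [Fin.cons_zero]
        refine h.lab5_D ?_
        revert hz
        generalize lab5 g b z = l
        revert l
        decide
      · intro hz
        simp only [Fin.cons_succ, smul_dotProduct, smul_eq_mul]
        refine mul_le_mul_of_nonneg_left (lab5_i i ?_) (h.mu_pos i).le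
        revert hz
        generalize lab5 g b z = l
        revert l i
        decide
    · intro l m hlm
      have h3 := hob1 l m hlm
      rw [hQ1] at h3
      rw [Fin.sum_univ_succ]
      simp only [Fin.cons_zero, Fin.cons_succ, smul_dotProduct, smul_eq_mul]
      exact h3
  obtain ⟨u1, hu1⟩ := Pool.Agent.Helper82.TET.superb_of_superbase f1 hf1
  have hpar := NN_parity hu1 h.sum_g h.span h.coh
  rw [e1, add_zero, hN, e0] at hpar
  exact absurd hpar (by decide)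

/-- **The wall state of a body in a polytope with five facets.** -/
theorem exists_ostate_t (thmA : ∀ (K : Set (Fin 3 → ℝ)) (f P : Fin 4 → Fin 3 → ℤ) (g : Fin 4 → Fin 3 → ℝ), LFree K →
      OChain K f P g → (∀ m : Fin 3 → ℝ, ∃ a : Fin 4 → ℝ, ∑ j, a j • g j = m) → WidthLe K (2 + Real.sqrt 2))
    {κ : ℝ} (h0 : 0 ≤ κ) (h1 : κ ≤ 1) {K : Set (Fin 3 → ℝ)} {g : Fin 4 → Fin 3 → ℝ} {b : Fin 4 → ℝ}
    {mu : Fin 3 → ℝ} (h : Two K (2 + Real.sqrt 2) g b mu) :
    ∃ (t : ℝ) (f : Fin 4 → V) (x : V), t ∈ Set.Icc (0 : ℝ) 1 ∧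
      OState κ K (2 + Real.sqrt 2) (nT g mu t) ((1 - t) • g 0) (t • vD g mu) (bT b mu t) ((1 - t) * b 0)
        (t * bD b mu) (rT mu t) (lab5 g b) f x := by
  obtain ⟨Q, hQ⟩ : ∃ Q : ℝ → Matrix (Fin 3) (Fin 3) ℝ,
      Q = fun t => QM κ (nT g mu t) ((1 - t) • g 0) (t • vD g mu) := ⟨_, rfl⟩
  have hQc : ∀ i j, Continuous fun t => Q t i j := by
    intro i j
    rw [hQ]
    simp only [QM, Matrix.of_apply, nT, cf, Pi.smul_apply, smul_eq_mul, Fin.sum_univ_three]
    fun_prop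
  have hQp : ∀ t ∈ Set.Icc (0 : ℝ) 1, (Q t).PosDef := by
    intro t ht
    rw [hQ]
    exact QM_posDef h0 h1 (h.nT_sep ht)
  have hQ0 : ∀ x y : V, bil (Q 0) x y = ∑ j, (g j ⬝ᵥ toR x) * (g j ⬝ᵥ toR y) := by
    intro x y
    rw [hQ, bil_QM, Fin.sum_univ_succ]
    simp only [frm, nT, cf, smul_dotProduct, smul_eq_mul, zero_mul, sub_zero, one_mul, add_zero, mul_zero]
    ring
  have hQ1 : ∀ x y : V, bil (Q 1) x y = (vD g mu ⬝ᵥ toR x) * (vD g mu ⬝ᵥ toR y) +
      ∑ i : Fin 3, (mu i * (g i.succ ⬝ᵥ toR x)) * (mu i * (g i.succ ⬝ᵥ toR y)) := by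
    intro x y
    rw [hQ, bil_QM]
    simp only [frm, nT, cf, smul_dotProduct, smul_eq_mul, zero_mul, sub_self, one_mul, add_zero, mul_zero, zero_add]
    ring
  obtain ⟨t, ht, f, x, hf, hobt, hwall, hoct⟩ := exists_wall thmA h Q hQc hQp hQ0 hQ1
  refine ⟨t, f, x, ht, h.five ht, hf, ?_, ?_, hoct⟩
  · intro l m hlm
    have h3 := hobt l m hlm
    rw [hQ, bil_QM] at h3
    exact h3
  · rw [hQ, bil_QM] at hwall
    exact hwall

/-- **The wall state of a body in a polytope with five facets**, without the data of the path. -/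
theorem exists_ostate (thmA : ∀ (K : Set (Fin 3 → ℝ)) (f P : Fin 4 → Fin 3 → ℤ) (g : Fin 4 → Fin 3 → ℝ), LFree K →
      OChain K f P g → (∀ m : Fin 3 → ℝ, ∃ a : Fin 4 → ℝ, ∑ j, a j • g j = m) → WidthLe K (2 + Real.sqrt 2))
    {κ : ℝ} (h0 : 0 ≤ κ) (h1 : κ ≤ 1) {K : Set (Fin 3 → ℝ)} {g : Fin 4 → Fin 3 → ℝ} {b : Fin 4 → ℝ}
    {mu : Fin 3 → ℝ} (h : Two K (2 + Real.sqrt 2) g b mu) :
    ∃ n nC nD b' bC bD' ρ lab f x, OState κ K (2 + Real.sqrt 2) n nC nD b' bC bD' ρ lab f x := by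
  obtain ⟨t, f, x, -, hx⟩ := exists_ostate_t thmA h0 h1 h
  exact ⟨_, _, _, _, _, _, _, _, _, _, hx⟩

end Pool.Agent.Helper20.PS
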