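import Pool.Agent.Helper20.PS.WHat
import Pool.Agent.Helper1.FIVE.OBSym
import Pool.Agent.Helper82.TET.Glue

/-!
# The list of facts of the state with the kernel vector

`V` is the 5 x 3 matrix of the normals in the basis of the superbase (rows: `0 = C`, `1, 2, 3`, `4 = D`), `Z` the
inverse of `Vᵀ V`, `k` the unit kernel vector, `L` the labels in coordinates, `S ^ 2` the sum of the conorms `p`
(in the order 02, 03, 12, 13, 23; the conorm 01 is zero).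
-/

set_option autoImplicit false

namespace Pool.Agent.Helper20.PS

open Matrix
open Pool.Agent.Helper12.LW (LFree toR)
open Pool.Agent.Helper84.FL (Superbase)
open Pool.Agent.Helper20.FIVE
open Pool.Agent.Helper1.FIVE

/-- a homogeneous fact -/
def WF (V : Matrix (Fin 5) (Fin 3) ℝ) (Z : Matrix (Fin 3) (Fin 3) ℝ) (k : Fin 5 → ℝ) (η S W κ μ e : ℝ)
    (C M : Matrix (Fin 5) (Fin 3) ℝ) (B : Fin 5 → ℝ) : Prop :=
  κ + S ^ 2 * (W * μ) + S * (e * η) ≤ pr5 V C + S ^ 2 * pr5 (V * Z) M + S * ∑ w, k w * B w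

/-- unit row -/
def e5 (w : Fin 5) : Fin 5 → ℝ := Pi.single w 1

/-- the form with the conorms 02, 03, 12, 13, 23 -/
def sellM (p : Fin 5 → ℝ) : Matrix (Fin 3) (Fin 3) ℝ :=
  !![p 0 + p 1, 0, -p 0; 0, p 2 + p 3, -p 2; -p 0, -p 2, p 0 + p 2 + p 4]

/-- the state with the kernel vector -/
structure WS (W : ℝ) (l : Fin 6 → Fin 5) (V : Matrix (Fin 5) (Fin 3) ℝ) (Z : Matrix (Fin 3) (Fin 3) ℝ)
    (k : Fin 5 → ℝ) (η S : ℝ) (p : Fin 5 → ℝ) (L : (Fin 3 → ℤ) → Fin 5) : Prop where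
  p0 : ∀ i, 0 ≤ p i
  psum : ∑ i, p i = S ^ 2
  Spos : 0 < S
  gram : Vᵀ * V = sellM p
  inv : (Vᵀ * V) * Z = 1
  ksum : ∑ w, k w = 0
  ksq : ∑ w, k w ^ 2 = 1
  kV : ∀ j, ∑ w, k w * V w j = 0
  one : ∀ j, ∑ w, V w j = 0
  oct : ∀ i, L (oc i) = l i
  kle : ∀ w, k w ≤ k 4
  lek : ∀ w, k 0 ≤ k w
  etale : η ≤ k 4
  leeta : k 0 ≤ η
  /-- chains -/
  chain : ∀ z : Fin 5 → Fin 3 → ℤ, (∀ w, L (z w) = w) → WF V Z k η S W 1 0 0 (zM z) 0 0
  /-- labels -/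
  label : ∀ (i : Fin 3) (z y : Fin 3 → ℤ), L z = li i → (L y = 0 ∨ L y = 4) →
    WF V Z k η S W 0 0 0 (rowM (li i) (toR (z - y))) 0 0
  labelC : ∀ z y : Fin 3 → ℤ, L z = 0 → L y = 4 → WF V Z k η S W 0 0 0 (rowM 0 (toR (z - y))) 0 0
  /-- the chain of the circuit `C` -/
  chainC : ∀ (z : Fin 5 → Fin 3 → ℤ), (∀ w, L (z w) = w) → ∀ y : Fin 3 → ℤ, L y = 4 →
    ∀ m : Fin 5 → ℝ, m 4 = 0 → (∀ w, w ≠ 4 → k 4 - k w ≤ m w * (k 4 - η)) →
      WF V Z k η S W 1 0 0 (∑ w, m w • rowM w (toR (z w - y))) 0 0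
  /-- the chain of the circuit `D` -/
  chainD : ∀ (z : Fin 5 → Fin 3 → ℤ), (∀ w, L (z w) = w) → ∀ y : Fin 3 → ℤ, L y = 0 →
    ∀ m : Fin 5 → ℝ, m 0 = 0 → (∀ i : Fin 3, k (li i) - k 0 ≤ m (li i) * (η - k 0)) → k 0 < η →
      ((0 ≤ pr5 V (rowM 4 (toR (z 4 - y))) ∧ k 4 - k 0 ≤ m 4 * (η - k 0)) ∨
        (pr5 V (rowM 4 (toR (z 4 - y))) ≤ 0 ∧ m 4 * (η - k 0) ≤ k 4 - k 0)) →
      WF V Z k η S W 1 0 0 (∑ w, m w • rowM w (toR (z w - y))) 0 0
  /-- the width, with the ordering rows; `a`, `a'` are scaled by `S` -/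
  width : ∀ u : Fin 3 → ℤ, u ≠ 0 → ∀ a a' : ℝ, ∃ i j : Fin 5,
    WF V Z k η S W 0 1 (a' - a) 0 (rowM i (toR u) - rowM j (toR u)) (a' • e5 i - a • e5 j) ∧
    (∀ w, WF V Z k η S W 0 0 0 0 (rowM i (toR u) - rowM w (toR u)) (a' • (e5 i - e5 w))) ∧
    ∀ w, WF V Z k η S W 0 0 0 0 (rowM w (toR u) - rowM j (toR u)) (a • (e5 w - e5 j))
  /-- the budget -/
  psi : ∀ i : Fin 3, 33 / 50 * ((k (li i) - k 0) * (k 4 - η)) ≤ (η - k 0) * (k 4 - k (li i))
  psiL : ∀ i : Fin 3, 33 / 50 * (k (li i) - k 0) ≤ η - k 0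
  act : ∃ i : Fin 3, η ≤ k (li i)
  act' : ∃ i : Fin 3, k (li i) ≤ η

/-- a linear inequality in `k` and `η` is a fact -/
theorem WF.ofK {V : Matrix (Fin 5) (Fin 3) ℝ} {Z : Matrix (Fin 3) (Fin 3) ℝ} {k : Fin 5 → ℝ} {η S W e : ℝ}
    {B : Fin 5 → ℝ} (hS : 0 < S) (h : e * η ≤ ∑ w, k w * B w) : WF V Z k η S W 0 0 e 0 0 B := by
  unfold WF
  have h0 : ∀ A : Matrix (Fin 5) (Fin 3) ℝ, pr5 A 0 = 0 := fun A => by simp [pr5]
  rw [h0, h0]
  have h1 := mul_le_mul_of_nonneg_left h hS.le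
  linarith

variable {K : Set (Fin 3 → ℝ)} {W : ℝ} {n : Fin 3 → Fin 3 → ℝ} {nC nD : Fin 3 → ℝ} {b : Fin 3 → ℝ} {bC bD : ℝ}
  {ρ : Fin 3 → ℝ} {lab : (Fin 3 → ℤ) → Fin 5} {f : Fin 4 → Fin 3 → ℤ} {x : Fin 3 → ℤ} {h : ℝ} {mu : Fin 3 → ℝ}

theorem pr5_zero (A : Matrix (Fin 5) (Fin 3) ℝ) : pr5 A 0 = 0 := by simp [pr5]

/-- the dual basis of the first three vectors -/
theorem exists_dual3 {f : Fin 4 → Fin 3 → ℤ} (hf : Superbase f) :
    ∃ w : Fin 3 → Fin 3 → ℤ, (∀ i l : Fin 3, w i ⬝ᵥ f l.castSucc = if l = i then 1 else 0) ∧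
      ∀ i l : Fin 3, toR (w i) ⬝ᵥ toR (f l.castSucc) = if l = i then (1 : ℝ) else 0 := by
  obtain ⟨w, hw⟩ := Pool.Agent.Helper84.FL.dual_basis f hf
  have h0 : ∀ i l : Fin 3, w i.castSucc ⬝ᵥ f l.castSucc = if l = i then 1 else 0 := by
    intro i l
    have h1 : w i.castSucc ⬝ᵥ f l.castSucc = ∑ k, w i.castSucc k * f l.castSucc k := rfl
    have h2' : ∀ l : Fin 3, l.castSucc ≠ 3 := by decide
    have h2 := h2' l
    rw [h1, hw, if_neg h2, sub_zero]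
    by_cases h : l = i
    · rw [if_pos h, if_pos (by rw [h])]
    · rw [if_neg h, if_neg fun h' => h (Fin.castSucc_injective 3 h')]
  refine ⟨fun i => w i.castSucc, h0, fun i l => ?_⟩
  have h3 : toR (w i.castSucc) ⬝ᵥ toR (f l.castSucc) = ((w i.castSucc ⬝ᵥ f l.castSucc : ℤ) : ℝ) := by
    simp [dotProduct, toR]
  rw [h3, h0]
  split_ifs <;> simp

/-- every integer vector is the vector of coordinates of a dual lattice vector -/
theorem exists_uu {f : Fin 4 → Fin 3 → ℤ} (hf : Superbase f) (u : Fin 3 → ℤ) (hu : u ≠ 0) :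
    ∃ r : Fin 3 → ℤ, r ≠ 0 ∧ uu f r = toR u := by
  obtain ⟨w, hw, -⟩ := exists_dual3 hf
  have h1 : ∀ m : Fin 3, (∑ l : Fin 3, u l • w l) ⬝ᵥ f m.castSucc = u m := by
    intro m
    rw [sum_dotProduct]
    simp only [smul_dotProduct, smul_eq_mul, hw]
    simp
  refine ⟨∑ l : Fin 3, u l • w l, ?_, ?_⟩
  · intro h0
    apply hu
    funext m
    have := h1 m
    rw [h0, zero_dotProduct] at this
    exact this.symm
  · funext m
    have h2 : (((∑ l : Fin 3, u l • w l) ⬝ᵥ f m.castSucc : ℤ) : ℝ) = ((u m : ℤ) : ℝ) := by rw [h1 m]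
    show toR (∑ l : Fin 3, u l • w l) ⬝ᵥ toR (f m.castSucc) = (u m : ℝ)
    rw [← h2]
    simp [dotProduct, toR]

/-- the coordinates of `pt f y` -/
theorem dot_pt {f : Fin 4 → Fin 3 → ℤ} {w : Fin 3 → Fin 3 → ℤ}
    (hw : ∀ i l : Fin 3, toR (w i) ⬝ᵥ toR (f l.castSucc) = if l = i then (1 : ℝ) else 0) (y : Fin 3 → ℝ) (i : Fin 3) :
    toR (w i) ⬝ᵥ pt f y = y i := by
  unfold pt
  rw [dotProduct_sum]
  simp only [dotProduct_smul, smul_eq_mul, hw]
  simp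

theorem exists_pt {f : Fin 4 → Fin 3 → ℤ} (hf : Superbase f) (x : Fin 3 → ℝ) : ∃ y : Fin 3 → ℝ, pt f y = x := by
  obtain ⟨u, hu⟩ := Pool.Agent.Helper82.TET.superb_of_superbase f hf
  have h1 := Pool.Agent.Helper22.Sym.repr_vec f u hu
  exact exists_coord (u := u) (fun x => (h1 x).symm) hf.sum x

/-- **The state with the kernel vector.** -/
theorem exists_ws (hO : OState 0 K W n nC nD b bC bD ρ lab f x) (hB : Budget nC b bC bD ρ lab h mu) :
    ∃ V Z k η S p L, WS W (labs lab f x) V Z k η S p L := by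
  have F := hO.five
  obtain ⟨k, η, σ, v⟩ := exists_kv F
  obtain ⟨Z, hZ, -⟩ := exists_Z5 n nC nD f fun y hy => by
    have h1 := F.sep _ hy
    obtain ⟨w, -, hw⟩ := exists_dual3 hO.sb
    funext l
    rw [← dot_pt hw y l, h1, dotProduct_zero]
    rfl
  obtain ⟨p, hp⟩ : ∃ p : Fin 5 → ℝ, p = ![sel5 n nC nD f 0 2, sel5 n nC nD f 0 3, sel5 n nC nD f 1 2,
      sel5 n nC nD f 1 3, sel5 n nC nD f 2 3] := ⟨_, rfl⟩
  have hp0 : ∀ i, 0 ≤ p i := by
    intro i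
    rw [hp]
    fin_cases i
    · exact neg_nonneg.2 (hO.obt 0 2 (by decide))
    · exact neg_nonneg.2 (hO.obt 0 3 (by decide))
    · exact neg_nonneg.2 (hO.obt 1 2 (by decide))
    · exact neg_nonneg.2 (hO.obt 1 3 (by decide))
    · exact neg_nonneg.2 (hO.obt 2 3 (by decide))
  have hw0 : sel5 n nC nD f 0 1 = 0 := by
    unfold sel5
    rw [hO.wall, neg_zero]
  have hgram : (V5 n nC nD f)ᵀ * V5 n nC nD f = sellM p := by
    rw [V5_selling n nC nD hO.sb.sum, hw0, hp]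
    unfold sellM
    simp
  have hppos : 0 < ∑ i, p i := by
    refine lt_of_le_of_ne (Finset.sum_nonneg fun i _ => hp0 i) fun h0 => ?_
    have h1 := (Finset.sum_eq_zero_iff_of_nonneg fun i _ => hp0 i).1 h0.symm
    have h2 : sellM p = 0 := by
      unfold sellM
      ext i j
      fin_cases i <;> fin_cases j <;> simp [h1]
    have h3 := hZ
    rw [hgram, h2, Matrix.zero_mul] at h3
    have h4 := congrFun (congrFun h3 0) 0
    simp at h4
  obtain ⟨S, hS⟩ : ∃ S : ℝ, S = Real.sqrt (∑ i, p i) := ⟨_, rfl⟩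
  have hSpos : 0 < S := by
    rw [hS]
    exact Real.sqrt_pos.2 hppos
  have hS2 : S ^ 2 = ∑ i, p i := by
    rw [hS]
    exact Real.sq_sqrt hppos.le
  have hF : ∀ (κ : ℝ) (C : Matrix (Fin 5) (Fin 3) ℝ), κ ≤ pr5 (V5 n nC nD f) C →
      WF (V5 n nC nD f) Z k η S W κ 0 0 C 0 0 := by
    intro κ C hC
    unfold WF
    rw [pr5_zero]
    simp only [Pi.zero_apply, mul_zero, Finset.sum_const_zero, zero_mul, add_zero]
    exact hC
  refine ⟨V5 n nC nD f, Z, k, η, S, p, fun c => lab (latt f x c), ⟨hp0, hS2.symm, hSpos, hgram, hZ, v.sum, v.sq,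
    v.col f, col_one F f, ?_, v.le_four F, v.zero_le F, v.eta_le F, v.le_eta F, ?_, ?_, ?_, ?_, ?_, ?_, v.psi F hB,
    v.psi_lin F hB, v.act hB, v.act' hB⟩⟩
  · intro i
    show lab (latt f x (oc i)) = lab (octp f x i)
    rw [octp_eq hO.sb.sum]
  · intro z hz
    exact hF _ _ (F.chain5 f x z hz)
  · intro i z y hz hy
    exact hF _ _ (F.label5 f x i z y hz hy)
  · intro z y hz hy
    refine hF _ _ ?_
    rw [← val5 f x]
    have h1 := (F.lab_C _ hz).1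
    have h2 := hB.labCD _ hy
    show 0 ≤ nC ⬝ᵥ toR (latt f x z) - nC ⬝ᵥ toR (latt f x y)
    linarith
  · intro z hz y hy m hm4 hm
    refine hF _ _ ?_
    have h1 := v.chainC F hB.labCD f x z hz y hy m hm4 hm
    rw [pr5_sum]
    simp only [pr5_smul]
    exact h1
  · intro z hz y hy m hm0 hm hη hm4
    refine hF _ _ ?_
    have h1 := v.chainD F f x z hz y hy m hm0 hm hη hm4
    rw [pr5_sum]
    simp only [pr5_smul]
    exact h1
  · intro u hu a a'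
    obtain ⟨r, hr, hru⟩ := exists_uu hO.sb u hu
    obtain ⟨i, j, h1, h2, h3⟩ := v.width F (exists_pt hO.sb) hZ r hr (a / S) (a' / S)
    rw [hru] at h1 h2 h3
    have hk : ∀ w, ∑ w', k w' * e5 w w' = k w := fun w => by
      unfold e5
      rw [Finset.sum_eq_single w]
      · rw [Pi.single_eq_same, mul_one]
      · intro w' _ hw'
        rw [Pi.single_eq_of_ne hw', mul_zero]
      · intro h
        exact absurd (Finset.mem_univ w) h
    have hk2 : ∀ (c c' : ℝ) (i j : Fin 5), ∑ w, k w * (c • e5 i - c' • e5 j) w = c * k i - c' * k j := by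
      intro c c' i j
      have e1 : ∀ w, k w * (c • e5 i - c' • e5 j) w = c * (k w * e5 i w) - c' * (k w * e5 j w) := fun w => by
        simp only [Pi.sub_apply, Pi.smul_apply, smul_eq_mul]
        ring
      simp only [e1, Finset.sum_sub_distrib, ← Finset.mul_sum, hk]
    have hS1 : ∀ c, S ^ 2 * (c / S) = S * c := fun c => by
      field_simp
    refine ⟨i, j, ?_, fun w => ?_, fun w => ?_⟩
    · unfold WF
      rw [pr5_zero, pr5_sub, pr5_rowM, pr5_rowM, hk2]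
      have h4 := mul_le_mul_of_nonneg_left h1 (sq_nonneg S)
      have e1 : S ^ 2 * (((V5 n nC nD f * Z) i ⬝ᵥ toR u + a' / S * k i) -
          ((V5 n nC nD f * Z) j ⬝ᵥ toR u + a / S * k j) + (a / S - a' / S) * η) =
          S ^ 2 * ((V5 n nC nD f * Z) i ⬝ᵥ toR u - (V5 n nC nD f * Z) j ⬝ᵥ toR u) +
            (S ^ 2 * (a' / S)) * k i - (S ^ 2 * (a / S)) * k j + (S ^ 2 * (a / S) - S ^ 2 * (a' / S)) * η := by ring
      rw [e1, hS1, hS1] at h4
      linarith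
    · unfold WF
      have e0 : a' • (e5 i - e5 w) = a' • e5 i - a' • e5 w := smul_sub _ _ _
      rw [pr5_zero, pr5_sub, pr5_rowM, pr5_rowM, e0, hk2]
      have h4 := mul_le_mul_of_nonneg_left (h2 w) (sq_nonneg S)
      rw [mul_add, mul_add, ← mul_assoc, ← mul_assoc, hS1] at h4
      linarith
    · unfold WF
      have e0 : a • (e5 w - e5 j) = a • e5 w - a • e5 j := smul_sub _ _ _
      rw [pr5_zero, pr5_sub, pr5_rowM, pr5_rowM, e0, hk2]
      have h4 := mul_le_mul_of_nonneg_left (h3 w) (sq_nonneg S)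
      rw [mul_add, mul_add, ← mul_assoc, ← mul_assoc, hS1] at h4
      linarith

end Pool.Agent.Helper20.PS
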