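import Pool.Agent.Helper1.FIVE.OBud

/-!
# The kernel vector of the five normals

`k` is the unit vector orthogonal to the columns of `V5` and to the constants; `k 0` is its smallest and `k 4` its
largest entry (`0 = C`, `4 = D`); `η = ∑ k w * b w`. All facts are linear in `V5`, `V5 * Z`, `k` and `η`.
-/

set_option autoImplicit false

namespace Pool.Agent.Helper20.PS

open Matrix
open Pool.Agent.Helper12.LW (LFree toR)
open Pool.Agent.Helper84.FL (Superbase)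
open Pool.Agent.Helper20.FIVE
open Pool.Agent.Helper1.FIVE

variable {K : Set (Fin 3 → ℝ)} {W : ℝ} {n : Fin 3 → Fin 3 → ℝ} {nC nD : Fin 3 → ℝ} {b : Fin 3 → ℝ} {bC bD : ℝ}
  {ρ : Fin 3 → ℝ} {lab : (Fin 3 → ℤ) → Fin 5}

/-- the unit vector in the kernel -/
structure KV (n : Fin 3 → Fin 3 → ℝ) (nC nD : Fin 3 → ℝ) (b : Fin 3 → ℝ) (bC bD : ℝ) (ρ : Fin 3 → ℝ)
    (k : Fin 5 → ℝ) (η σ : ℝ) : Prop where
  sum : ∑ w, k w = 0
  sq : ∑ w, k w ^ 2 = 1
  pos : 0 < σ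
  rc : ∀ w, RC ρ w = σ * (k 4 - k w)
  rd : ∀ w, RD ρ w = σ * (k w - k 0)
  ec : etaC ρ b bC bD = σ * (k 4 - η)
  ed : etaD ρ b bC bD = σ * (η - k 0)
  ker : ∑ w, k w • N5 n nC nD w = 0

/-- **The unit vector in the kernel exists.** -/
theorem exists_kv (h : Five K W n nC nD b bC bD ρ lab) : ∃ k η σ, KV n nC nD b bC bD ρ k η σ := by
  obtain ⟨m, hm⟩ : ∃ m : ℝ, m = (∑ w, RD ρ w) / 5 := ⟨_, rfl⟩
  obtain ⟨q, hq⟩ : ∃ q : Fin 5 → ℝ, q = fun w => RD ρ w - m := ⟨_, rfl⟩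
  obtain ⟨S, hS⟩ : ∃ S : ℝ, S = ∑ w, q w ^ 2 := ⟨_, rfl⟩
  have h0 : RD ρ 0 = 0 := rfl
  have h4 : RD ρ 4 = 1 := rfl
  have hSpos : 0 < S := by
    have h1 : q 0 ^ 2 ≤ S := by
      rw [hS]
      exact Finset.single_le_sum (f := fun w => q w ^ 2) (fun _ _ => sq_nonneg _) (Finset.mem_univ 0)
    have h2 : q 4 ^ 2 ≤ S := by
      rw [hS]
      exact Finset.single_le_sum (f := fun w => q w ^ 2) (fun _ _ => sq_nonneg _) (Finset.mem_univ 4)
    rw [hq] at h1 h2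
    simp only [h0, h4] at h1 h2
    nlinarith [sq_nonneg (m - 1 / 2)]
  obtain ⟨σ, hσ⟩ : ∃ σ : ℝ, σ = Real.sqrt S := ⟨_, rfl⟩
  have hσ0 : 0 < σ := by
    rw [hσ]
    exact Real.sqrt_pos.2 hSpos
  have hσ2 : σ ^ 2 = S := by
    rw [hσ]
    exact Real.sq_sqrt hSpos.le
  have hsumq : ∑ w, q w = 0 := by
    rw [hq, Finset.sum_sub_distrib, Finset.sum_const, Finset.card_univ, Fintype.card_fin, hm]
    simp only [nsmul_eq_mul]
    push_cast
    ring
  have hk : ∀ w, q w / σ * σ = q w := fun w => div_mul_cancel₀ _ hσ0.ne'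
  have hrd : ∀ w, RD ρ w = σ * (q w / σ - q 0 / σ) := fun w => by
    have e1 := hk w
    have e2 := hk 0
    have e3 : q w - q 0 = RD ρ w := by
      rw [hq]
      simp only [h0]
      ring
    linear_combination -e3 - e1 + e2
  have hrc : ∀ w, RC ρ w = σ * (q 4 / σ - q w / σ) := fun w => by
    have e1 := hrd w
    have e2 := hrd 4
    rw [h4] at e2
    linear_combination RC_add ρ w + e2 - e1
  obtain ⟨η, hη⟩ : ∃ η : ℝ, η = ∑ w, q w / σ * B5 b bC bD w := ⟨_, rfl⟩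
  refine ⟨fun w => q w / σ, η, σ, ⟨?_, ?_, hσ0, hrc, hrd, ?_, ?_, ?_⟩⟩
  · rw [← Finset.sum_div, hsumq, zero_div]
  · have e1 : ∀ w, (q w / σ) ^ 2 = q w ^ 2 / σ ^ 2 := fun w => div_pow _ _ _
    simp only [e1]
    rw [← Finset.sum_div, ← hS, hσ2, div_self hSpos.ne']
  · unfold etaC
    simp only [hrc]
    have e1 : ∀ w, σ * (q 4 / σ - q w / σ) * B5 b bC bD w =
        σ * (q 4 / σ * B5 b bC bD w - q w / σ * B5 b bC bD w) := fun w => by ring
    simp only [e1]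
    rw [← Finset.mul_sum, Finset.sum_sub_distrib, ← Finset.mul_sum, h.sumB5, ← hη, mul_one]
  · unfold etaD
    simp only [hrd]
    have e1 : ∀ w, σ * (q w / σ - q 0 / σ) * B5 b bC bD w =
        σ * (q w / σ * B5 b bC bD w - q 0 / σ * B5 b bC bD w) := fun w => by ring
    simp only [e1]
    rw [← Finset.mul_sum, Finset.sum_sub_distrib, ← Finset.mul_sum, h.sumB5, ← hη, mul_one]
  · have e1 : ∀ w, (q w / σ) • N5 n nC nD w = (1 / σ) • (RD ρ w • N5 n nC nD w) - (m / σ) • N5 n nC nD w := fun w => by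
      rw [smul_smul, ← sub_smul]
      congr 1
      rw [hq]
      ring
    simp only [e1]
    rw [Finset.sum_sub_distrib, ← Finset.smul_sum, ← Finset.smul_sum, h.kerD, h.sumN, smul_zero, smul_zero, sub_zero]

section

variable {k : Fin 5 → ℝ} {η σ : ℝ}

theorem KV.le_four (v : KV n nC nD b bC bD ρ k η σ) (h : Five K W n nC nD b bC bD ρ lab) (w : Fin 5) : k w ≤ k 4 := by
  have h1 := h.RC_nonneg w
  rw [v.rc w] at h1
  have h2 := (mul_nonneg_iff_of_pos_left v.pos).1 h1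
  linarith

theorem KV.zero_le (v : KV n nC nD b bC bD ρ k η σ) (h : Five K W n nC nD b bC bD ρ lab) (w : Fin 5) : k 0 ≤ k w := by
  have h1 := h.RD_nonneg w
  rw [v.rd w] at h1
  have h2 := (mul_nonneg_iff_of_pos_left v.pos).1 h1
  linarith

theorem KV.eta_le (v : KV n nC nD b bC bD ρ k η σ) (h : Five K W n nC nD b bC bD ρ lab) : η ≤ k 4 := by
  have h1 := h.etaC_nonneg
  rw [v.ec] at h1
  have h2 := (mul_nonneg_iff_of_pos_left v.pos).1 h1
  linarith

theorem KV.le_eta (v : KV n nC nD b bC bD ρ k η σ) (h : Five K W n nC nD b bC bD ρ lab) : k 0 ≤ η := by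
  have h1 := h.etaD_nonneg
  rw [v.ed] at h1
  have h2 := (mul_nonneg_iff_of_pos_left v.pos).1 h1
  linarith

theorem KV.lt (v : KV n nC nD b bC bD ρ k η σ) : k 0 < k 4 := by
  have h1 : RD ρ 4 = 1 := rfl
  rw [v.rd 4] at h1
  have h2 : 0 < σ * (k 4 - k 0) := by
    rw [h1]
    exact one_pos
  have h3 := (mul_pos_iff_of_pos_left v.pos).1 h2
  linarith

/-- `k` is orthogonal to the columns -/
theorem KV.col (v : KV n nC nD b bC bD ρ k η σ) (f : Fin 4 → Fin 3 → ℤ) (l : Fin 3) :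
    ∑ w, k w * V5 n nC nD f w l = 0 := sum_V5 v.ker f l

/-- the columns are orthogonal to the constants -/
theorem col_one (h : Five K W n nC nD b bC bD ρ lab) (f : Fin 4 → Fin 3 → ℤ) (l : Fin 3) :
    ∑ w, V5 n nC nD f w l = 0 := by
  have h1 := sum_V5 (R := fun _ => (1 : ℝ)) (by simpa using h.sumN) f l
  simpa using h1

/-- **The width rows**, for all real `a`, `a'`, with the ordering rows -/
theorem KV.width (v : KV n nC nD b bC bD ρ k η σ) (h : Five K W n nC nD b bC bD ρ lab) {f : Fin 4 → Fin 3 → ℤ}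
    (hpt : ∀ x : Fin 3 → ℝ, ∃ y : Fin 3 → ℝ, pt f y = x)
    {Z : Matrix (Fin 3) (Fin 3) ℝ} (hZ : ((V5 n nC nD f)ᵀ * V5 n nC nD f) * Z = 1) (r : Fin 3 → ℤ) (hr : r ≠ 0)
    (a a' : ℝ) :
    ∃ i j : Fin 5, W ≤ ((V5 n nC nD f * Z) i ⬝ᵥ uu f r + a' * k i) - ((V5 n nC nD f * Z) j ⬝ᵥ uu f r + a * k j) +
        (a - a') * η ∧
      (∀ l, (V5 n nC nD f * Z) l ⬝ᵥ uu f r + a' * k l ≤ (V5 n nC nD f * Z) i ⬝ᵥ uu f r + a' * k i) ∧
      (∀ l, (V5 n nC nD f * Z) j ⬝ᵥ uu f r + a * k j ≤ (V5 n nC nD f * Z) l ⬝ᵥ uu f r + a * k l) := by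
  have hσ := v.pos.ne'
  obtain ⟨i, j, h1, h2, h3⟩ := h.width5 hpt hZ r hr (-a / σ) (-a' / σ)
  have e1 : ∀ (c : ℝ) (w : Fin 5), -c / σ * RC ρ w = c * k w - c * k 4 := fun c w => by
    rw [v.rc w]
    field_simp
    ring
  have e2 : (-a / σ - -a' / σ) * etaC ρ b bC bD = (a' - a) * k 4 + (a - a') * η := by
    rw [v.ec]
    field_simp
    ring
  refine ⟨i, j, ?_, fun l => ?_, fun l => ?_⟩
  · rw [e1, e1, e2] at h1
    linarith
  · have h4 := h2 l
    rw [e1, e1] at h4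
    linarith
  · have h4 := h3 l
    rw [e1, e1] at h4
    linarith

/-- a bound for a nonnegative combination of the heights over a point -/
theorem height_at (h : Five K W n nC nD b bC bD ρ lab) (f : Fin 4 → Fin 3 → ℤ) (x : Fin 3 → ℤ)
    (z : Fin 5 → Fin 3 → ℤ) (hz : ∀ w, lab (latt f x (z w)) = w) {R : Fin 5 → ℝ} (h0 : ∀ w, 0 ≤ R w)
    (hR : ∑ w, R w • N5 n nC nD w = 0) (y : Fin 3 → ℤ) :
    ∑ w, R w * B5 b bC bD w ≤ ∑ w, R w * pr5 (V5 n nC nD f) (rowM w (toR (z w - y))) := by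
  have h1 := h.height f x z hz h0 hR
  refine h1.trans (le_of_eq ?_)
  have e1 : ∀ w, pr5 (V5 n nC nD f) (rowM w (toR (z w - y))) =
      V5 n nC nD f w ⬝ᵥ toR (z w) - V5 n nC nD f w ⬝ᵥ toR y := fun w => by
    rw [pr5_rowM, ← dotProduct_sub]
    congr 1
    funext j
    simp [toR]
  have e2 : ∑ w, R w * (V5 n nC nD f w ⬝ᵥ toR y) = 0 := by
    simp only [V5_row]
    have h4 := congrArg (fun p => p ⬝ᵥ pt f (toR y)) hR
    simp only [sum_dotProduct, smul_dotProduct, smul_eq_mul, zero_dotProduct] at h4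
    exact h4
  simp only [e1, mul_sub, Finset.sum_sub_distrib]
  rw [e2, sub_zero]
  unfold pr5 zMR dotProduct
  refine Finset.sum_congr rfl fun w _ => ?_
  rw [Finset.mul_sum]
  exact Finset.sum_congr rfl fun l _ => by simp only [Matrix.of_apply]; ring

/-- **The chain of the circuit `C`** under linear conditions on `k` and `η` -/
theorem KV.chainC (v : KV n nC nD b bC bD ρ k η σ) (h : Five K W n nC nD b bC bD ρ lab)
    (hCD : ∀ z, lab z = 4 → nC ⬝ᵥ toR z ≤ bC) (f : Fin 4 → Fin 3 → ℤ) (x : Fin 3 → ℤ)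
    (z : Fin 5 → Fin 3 → ℤ) (hz : ∀ w, lab (latt f x (z w)) = w) (y : Fin 3 → ℤ) (hy : lab (latt f x y) = 4)
    (m : Fin 5 → ℝ) (hm4 : m 4 = 0) (hm : ∀ w, w ≠ 4 → k 4 - k w ≤ m w * (k 4 - η)) :
    1 ≤ ∑ w, m w * pr5 (V5 n nC nD f) (rowM w (toR (z w - y))) := by
  have hpos : 0 < k 4 - η := by
    rcases eq_or_lt_of_le (v.eta_le h) with h1 | h1
    · exfalso
      have h2 := hm 0 (by decide)
      rw [← h1, sub_self, mul_zero] at h2
      linarith [v.lt]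
    · linarith
  have h1 := height_at h f x z hz h.RC_nonneg h.kerC y
  have h2 : ∑ w, RC ρ w * B5 b bC bD w = σ * (k 4 - η) := v.ec
  rw [h2] at h1
  have hh : ∀ w, w ≠ 4 → 0 ≤ pr5 (V5 n nC nD f) (rowM w (toR (z w - y))) := by
    intro w hw
    have hcase : ∀ w : Fin 5, w = 0 ∨ w = 4 ∨ ∃ i : Fin 3, w = li i := by decide
    rcases hcase w with h3 | h3 | ⟨i, h3⟩
    · rw [h3, ← val5 f x]
      have h4 := (h.lab_C _ (hz 0)).1
      have h5 := hCD _ hy
      show 0 ≤ nC ⬝ᵥ toR (latt f x (z 0)) - nC ⬝ᵥ toR (latt f x y)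
      linarith
    · exact absurd h3 hw
    · rw [h3]
      exact h.label5 f x i (z (li i)) y (hz (li i)) (Or.inr hy)
  have h3 : ∑ w, RC ρ w * pr5 (V5 n nC nD f) (rowM w (toR (z w - y))) ≤
      ∑ w, σ * (k 4 - η) * (m w * pr5 (V5 n nC nD f) (rowM w (toR (z w - y)))) := by
    refine Finset.sum_le_sum fun w _ => ?_
    by_cases hw : w = 4
    · rw [hw, hm4, v.rc 4, sub_self, mul_zero, zero_mul, mul_zero]
    · rw [v.rc w]
      have h4 := mul_le_mul_of_nonneg_right (mul_le_mul_of_nonneg_left (hm w hw) v.pos.le) (hh w hw)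
      calc _ ≤ _ := h4
        _ = _ := by ring
  rw [← Finset.mul_sum] at h3
  have h4 : 0 < σ * (k 4 - η) := mul_pos v.pos hpos
  have h5 := h1.trans h3
  have h6 : σ * (k 4 - η) * 1 ≤ σ * (k 4 - η) * ∑ w, m w * pr5 (V5 n nC nD f) (rowM w (toR (z w - y))) := by
    rwa [mul_one]
  exact le_of_mul_le_mul_left h6 h4

/-- **The chain of the circuit `D`** under linear conditions on `k` and `η`; the sign of the value of the plane `D` on
`z 4 - y` decides the direction of the last condition -/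
theorem KV.chainD (v : KV n nC nD b bC bD ρ k η σ) (h : Five K W n nC nD b bC bD ρ lab)
    (f : Fin 4 → Fin 3 → ℤ) (x : Fin 3 → ℤ)
    (z : Fin 5 → Fin 3 → ℤ) (hz : ∀ w, lab (latt f x (z w)) = w) (y : Fin 3 → ℤ) (hy : lab (latt f x y) = 0)
    (m : Fin 5 → ℝ) (hm0 : m 0 = 0) (hm : ∀ i : Fin 3, k (li i) - k 0 ≤ m (li i) * (η - k 0)) (hη : k 0 < η)
    (hm4 : (0 ≤ pr5 (V5 n nC nD f) (rowM 4 (toR (z 4 - y))) ∧ k 4 - k 0 ≤ m 4 * (η - k 0)) ∨
      (pr5 (V5 n nC nD f) (rowM 4 (toR (z 4 - y))) ≤ 0 ∧ m 4 * (η - k 0) ≤ k 4 - k 0)) :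
    1 ≤ ∑ w, m w * pr5 (V5 n nC nD f) (rowM w (toR (z w - y))) := by
  have hpos : 0 < η - k 0 := by linarith
  have h1 := height_at h f x z hz h.RD_nonneg h.kerD y
  have h2 : ∑ w, RD ρ w * B5 b bC bD w = σ * (η - k 0) := v.ed
  rw [h2] at h1
  have h3 : ∑ w, RD ρ w * pr5 (V5 n nC nD f) (rowM w (toR (z w - y))) ≤
      ∑ w, σ * (η - k 0) * (m w * pr5 (V5 n nC nD f) (rowM w (toR (z w - y)))) := by
    refine Finset.sum_le_sum fun w _ => ?_
    have hcase : ∀ w : Fin 5, w = 0 ∨ w = 4 ∨ ∃ i : Fin 3, w = li i := by decide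
    rcases hcase w with h3 | h3 | ⟨i, h3⟩
    · rw [h3, hm0, v.rd 0, sub_self, mul_zero, zero_mul, mul_zero]
    · rw [h3, v.rd 4]
      rcases hm4 with ⟨h4, h5⟩ | ⟨h4, h5⟩
      · have h6 := mul_le_mul_of_nonneg_right (mul_le_mul_of_nonneg_left h5 v.pos.le) h4
        calc _ ≤ _ := h6
          _ = _ := by ring
      · have h6 := mul_le_mul_of_nonpos_right (mul_le_mul_of_nonneg_left h5 v.pos.le) h4
        calc _ ≤ _ := h6
          _ = _ := by ring
    · rw [h3, v.rd (li i)]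
      have h4 := h.label5 f x i (z (li i)) y (hz (li i)) (Or.inl hy)
      have h6 := mul_le_mul_of_nonneg_right (mul_le_mul_of_nonneg_left (hm i) v.pos.le) h4
      calc _ ≤ _ := h6
        _ = _ := by ring
  rw [← Finset.mul_sum] at h3
  have h4 : 0 < σ * (η - k 0) := mul_pos v.pos hpos
  have h5 := h1.trans h3
  have h6 : σ * (η - k 0) * 1 ≤ σ * (η - k 0) * ∑ w, m w * pr5 (V5 n nC nD f) (rowM w (toR (z w - y))) := by
    rwa [mul_one]
  exact le_of_mul_le_mul_left h6 h4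

/-! ### the budget -/

theorem KV.eta_h {h mu} (v : KV n nC nD b bC bD ρ k η σ) (B : Budget nC b bC bD ρ lab h mu) :
    σ * (η - k 0) = h := by
  rw [← v.ed]
  exact B.etaD

theorem KV.eta_h' {h mu} (v : KV n nC nD b bC bD ρ k η σ) (F : Five K W n nC nD b bC bD ρ lab)
    (B : Budget nC b bC bD ρ lab h mu) : σ * (k 4 - η) = 1 - h := by
  rw [← v.ec]
  exact B.etaC F

theorem RD_li (ρ : Fin 3 → ℝ) (i : Fin 3) : RD ρ (li i) = ρ i := by
  fin_cases i <;> rfl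

theorem RC_li (ρ : Fin 3 → ℝ) (i : Fin 3) : RC ρ (li i) = 1 - ρ i := by
  fin_cases i <;> rfl

/-- the cut by `D` at the vertex `i` -/
theorem KV.psi {h mu} (v : KV n nC nD b bC bD ρ k η σ) (F : Five K W n nC nD b bC bD ρ lab)
    (B : Budget nC b bC bD ρ lab h mu) (i : Fin 3) :
    33 / 50 * ((k (li i) - k 0) * (k 4 - η)) ≤ (η - k 0) * (k 4 - k (li i)) := by
  have h1 := B.rel' i
  have h2 := B.mu_le i
  have h3 : 0 ≤ h * (1 - ρ i) := mul_nonneg B.h0 (by linarith [F.rho1 i])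
  have h4 := mul_le_mul_of_nonneg_right h2 h3
  have e1 := v.eta_h B
  have e2 := v.eta_h' F B
  have e3 := v.rd (li i)
  have e4 := v.rc (li i)
  rw [RD_li] at e3
  rw [RC_li] at e4
  have h5 : 33 / 50 * ((1 - h) * ρ i) ≤ h * (1 - ρ i) := by
    rw [h1]
    linarith
  rw [← e2, ← e1, e4, e3] at h5
  have h6 : (σ * σ) * (33 / 50 * ((k (li i) - k 0) * (k 4 - η))) ≤ (σ * σ) * ((η - k 0) * (k 4 - k (li i))) := by
    linarith
  exact le_of_mul_le_mul_left h6 (mul_pos v.pos v.pos)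

/-- the linear form of the budget -/
theorem KV.psi_lin {h mu} (v : KV n nC nD b bC bD ρ k η σ) (F : Five K W n nC nD b bC bD ρ lab)
    (B : Budget nC b bC bD ρ lab h mu) (i : Fin 3) : 33 / 50 * (k (li i) - k 0) ≤ η - k 0 := by
  have h1 := B.psi i (F.rho1 i)
  have h2 : 0 ≤ h * (17 / 50 * ρ i) := mul_nonneg B.h0 (mul_nonneg (by norm_num) (F.rho0 i))
  have e1 := v.eta_h B
  have e3 := v.rd (li i)
  rw [RD_li] at e3
  have h3 : 33 / 50 * ρ i ≤ h := by linarith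
  rw [← e1, e3] at h3
  have h4 : σ * (33 / 50 * (k (li i) - k 0)) ≤ σ * (η - k 0) := by linarith
  exact le_of_mul_le_mul_left h4 v.pos

/-- the plane `D` is not redundant -/
theorem KV.act {h mu} (v : KV n nC nD b bC bD ρ k η σ) (B : Budget nC b bC bD ρ lab h mu) :
    ∃ i : Fin 3, η ≤ k (li i) := by
  obtain ⟨i, hi⟩ := B.act
  refine ⟨i, ?_⟩
  have h1 := B.rel i
  have h2 := B.den i
  have h3 : h * ((1 - h) + h * mu i) ≤ ρ i * ((1 - h) + h * mu i) := by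
    rw [h1]
    have h4 : 0 ≤ h * ((1 - h) * (mu i - 1)) := mul_nonneg B.h0 (mul_nonneg (by linarith [B.h1]) (by linarith))
    linarith
  have h4 := le_of_mul_le_mul_right h3 h2
  have e1 := v.eta_h B
  have e3 := v.rd (li i)
  rw [RD_li] at e3
  rw [← e1, e3] at h4
  have h5 := le_of_mul_le_mul_left h4 v.pos
  linarith

/-- the plane `C` is not redundant -/
theorem KV.act' {h mu} (v : KV n nC nD b bC bD ρ k η σ) (B : Budget nC b bC bD ρ lab h mu) :
    ∃ i : Fin 3, k (li i) ≤ η := by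
  obtain ⟨i, hi⟩ := B.act'
  refine ⟨i, ?_⟩
  have h1 := B.rel i
  have h2 := B.den i
  have h3 : ρ i * ((1 - h) + h * mu i) ≤ h * ((1 - h) + h * mu i) := by
    rw [h1]
    have h4 : 0 ≤ h * ((1 - h) * (1 - mu i)) := mul_nonneg B.h0 (mul_nonneg (by linarith [B.h1]) (by linarith))
    linarith
  have h4 := le_of_mul_le_mul_right h3 h2
  have e1 := v.eta_h B
  have e3 := v.rd (li i)
  rw [RD_li] at e3
  rw [← e1, e3] at h4
  have h5 := le_of_mul_le_mul_left h4 v.pos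
  linarith

end

end Pool.Agent.Helper20.PS
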